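import Pool.Agent.P.MP_2a8753_an.H.Iface

/-! The three theorems from the steps. -/

set_option autoImplicit false

namespace Pool.Agent.P.MP_2a8753_an.H

open MeasureTheory Filter Set Topology AddCircle Complex Polynomial
open scoped Real ComplexConjugate ENNReal

lemma fin_of_ind (hMI : S_MI) {S : Finset (ℤ × ℤ)} {r s : ℝ}
    (H : Ind (Finset.insertNone S) (pp (r, s))) (o u v : ℝ × ℝ) (hdet : u.1 * v.2 - u.2 * v.1 = 1)
    (g : ℝ → ℂ) (hg : MemLp g 2 volume) (hg0 : ¬ g =ᵐ[volume] 0) (c : ℤ × ℤ → ℂ) (d : ℂ)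
    (h : ∀ᵐ x ∂(volume : Measure ℝ), ∑ k ∈ S, c k * tf (o + (k.1 : ℝ) • u + (k.2 : ℝ) • v) g x
      + d * tf (o + r • u + s • v) g x = 0) : (∀ k ∈ S, c k = 0) ∧ d = 0 := by
  have := hMI _ _ _ o u v hdet H g hg hg0 (fun i => i.elim d c) (h.mono fun x hx => by
    rw [Finset.sum_insertNone, add_comm]
    exact hx)
  exact ⟨fun k hk => this (some k) (Finset.some_mem_insertNone.2 hk),
    this none Finset.none_mem_insertNone⟩

theorem thm_C (hEXP : S_EXP) (hZK : S_ZK) (hEQ : S_EQ) (hC3 : S_C3) (hBB : S_BB)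
    (S : Finset (ℤ × ℤ)) (θ : ℝ × ℝ)
    (h : θ ∉ convexHull ℝ ((fun k : ℤ × ℤ => ((k.1 : ℝ), (k.2 : ℝ))) '' S)) :
    Ind (Finset.insertNone S) (pp θ) := by
  by_cases hI : Irr θ
  · exact hZK S θ fun c F hc hF => h (hC3 S c θ hc hI (hEQ _ θ F (hEXP.2.2.2.1 S c hc) hI hF))
  · exact hBB S θ (fun k hk e => h (subset_convexHull ℝ _ ⟨k, hk, e⟩)) hI

theorem thm_A0 (hEXP : S_EXP) (hZK : S_ZK) (hEQ : S_EQ) (hEND : S_END) (hBB : S_BB)
    (n : ℤ) (hn : n ≠ 0) (θ : ℝ × ℝ) (h : ∀ k ∈ S3 n, ((k.1 : ℝ), (k.2 : ℝ)) ≠ θ) :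
    Ind (Finset.insertNone (S3 n)) (pp θ) := by
  by_cases hI : Irr θ
  · exact hZK _ θ fun c F hc hF => hEND n c θ hn hc hI (hEQ _ θ F (hEXP.2.2.2.1 _ c hc) hI hF)
  · exact hBB _ θ h hI

theorem thm_A (hMI : S_MI) (H : ∀ n : ℤ, n ≠ 0 → ∀ θ : ℝ × ℝ,
      (∀ k ∈ S3 n, ((k.1 : ℝ), (k.2 : ℝ)) ≠ θ) → Ind (Finset.insertNone (S3 n)) (pp θ))
    (p : Fin 4 → ℝ × ℝ) (hp : Function.Injective p) (n : ℤ) (hn : n ≠ 0)
    (hdet : ((p 1).1 - (p 0).1) * ((p 2).2 - (p 0).2) -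
      ((p 1).2 - (p 0).2) * ((p 2).1 - (p 0).1) = n)
    (g : ℝ → ℂ) (hg : MemLp g 2 volume) (hg0 : ¬ g =ᵐ[volume] 0) (c : Fin 4 → ℂ)
    (h : ∀ᵐ x ∂(volume : Measure ℝ), ∑ i, c i * tf (p i) g x = 0) : c = 0 := by
  have hn' : (n : ℝ) ≠ 0 := Int.cast_ne_zero.2 hn
  set u : ℝ × ℝ := p 1 - p 0 with hu
  set v : ℝ × ℝ := (n : ℝ)⁻¹ • (p 2 - p 0) with hv
  have hd : u.1 * v.2 - u.2 * v.1 = 1 := by
    simp only [hu, hv, Prod.fst_sub, Prod.snd_sub, Prod.smul_fst, Prod.smul_snd, smul_eq_mul]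
    field_simp
    linear_combination hdet
  set w : ℝ × ℝ := p 3 - p 0 with hw
  set r : ℝ := w.1 * v.2 - w.2 * v.1 with hr
  set s : ℝ := u.1 * w.2 - u.2 * w.1 with hs
  have e3 : p 0 + r • u + s • v = p 3 := by
    have : r • u + s • v = w := by
      ext
      · simp only [Prod.fst_add, Prod.smul_fst, smul_eq_mul, hr, hs]
        linear_combination w.1 * hd
      · simp only [Prod.snd_add, Prod.smul_snd, smul_eq_mul, hr, hs]
        linear_combination w.2 * hd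
    rw [add_assoc, this, hw, add_sub_cancel]
  have e0 : p 0 + ((0 : ℤ) : ℝ) • u + ((0 : ℤ) : ℝ) • v = p 0 := by simp
  have e1 : p 0 + ((1 : ℤ) : ℝ) • u + ((0 : ℤ) : ℝ) • v = p 1 := by simp [hu]
  have e2 : p 0 + ((0 : ℤ) : ℝ) • u + (n : ℝ) • v = p 2 := by simp [hv, smul_smul, hn']
  have n1 : ((0, 0) : ℤ × ℤ) ≠ (1, 0) := by simp
  have n2 : ((0, 0) : ℤ × ℤ) ≠ (0, n) := by simp [hn.symm]
  have n3 : ((1, 0) : ℤ × ℤ) ≠ (0, n) := by simp
  have hθ : ∀ k ∈ S3 n, ((k.1 : ℝ), (k.2 : ℝ)) ≠ (r, s) := by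
    intro k hk e
    obtain ⟨a1, a2⟩ := Prod.mk.inj e
    rw [← a1, ← a2] at e3
    simp only [S3, Finset.mem_insert, Finset.mem_singleton] at hk
    rcases hk with rfl | rfl | rfl
    · exact absurd (hp (e0.symm.trans e3)) (by decide)
    · exact absurd (hp (e1.symm.trans e3)) (by decide)
    · exact absurd (hp (e2.symm.trans e3)) (by decide)
  obtain ⟨h1, h2⟩ := fin_of_ind hMI (H n hn _ hθ) (p 0) u v hd g hg hg0
    (fun k => if k = (0, 0) then c 0 else if k = (1, 0) then c 1 else c 2) (c 3)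
    (h.mono fun x hx => by
      rw [S3, Finset.sum_insert (by simp [hn.symm]), Finset.sum_pair n3, if_pos rfl,
        if_neg n1.symm, if_pos rfl, if_neg n2.symm, if_neg n3.symm, e0, e1, e2, e3]
      rw [Fin.sum_univ_four] at hx
      linear_combination hx)
  have c0 := h1 (0, 0) (by simp [S3])
  have c1 := h1 (1, 0) (by simp [S3])
  have c2 := h1 (0, n) (by simp [S3])
  rw [if_pos rfl] at c0
  rw [if_neg n1.symm, if_pos rfl] at c1
  rw [if_neg n2.symm, if_neg n3.symm] at c2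
  funext i
  fin_cases i <;> assumption

end Pool.Agent.P.MP_2a8753_an.H
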