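import Pool.Agent.P.MP_2a8753_an.H.Iface

/-! The ergodic steps. -/

set_option autoImplicit false
set_option linter.unusedSectionVars false

namespace Pool.Agent.P.MP_2a8753_an.H

open MeasureTheory Filter Set Topology AddCircle Complex Polynomial
open scoped Real ComplexConjugate ENNReal

section ME

/-- The average minus the mean. -/
noncomputable def me_av (t : T2) (n : ℕ) (φ : T2 → ℂ) (y : T2) : ℂ :=
  (n : ℂ)⁻¹ * ∑ k ∈ Finset.range n, φ (y + k • t) - ∫ z, φ z

/-- The averages converge. -/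
def me_G (t : T2) (φ : T2 → ℂ) : Prop :=
  Integrable φ ∧ Tendsto (fun n : ℕ => ∫ y, ‖me_av t n φ y‖) atTop (𝓝 0)

lemma me_int (t : T2) (n : ℕ) {φ : T2 → ℂ} (h : Integrable φ) : Integrable (me_av t n φ) :=
  ((integrable_finsetSum _ fun k _ => h.comp_add_right (k • t)).const_mul _).sub
    (integrable_const _)

lemma me_add (t : T2) (n : ℕ) {φ ψ : T2 → ℂ} (h : Integrable φ) (h' : Integrable ψ) :
    ∫ y, ‖me_av t n (φ + ψ) y‖ ≤ (∫ y, ‖me_av t n φ y‖) + ∫ y, ‖me_av t n ψ y‖ := by
  rw [← integral_add (me_int t n h).norm (me_int t n h').norm]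
  refine integral_mono (me_int t n (h.add h')).norm
    ((me_int t n h).norm.add (me_int t n h').norm) fun y => ?_
  refine le_trans (le_of_eq (congrArg _ ?_)) (norm_add_le _ _)
  simp only [me_av, Pi.add_apply, integral_add h h', Finset.sum_add_distrib]
  ring

lemma me_le (t : T2) (n : ℕ) {φ : T2 → ℂ} (h : Integrable φ) :
    ∫ y, ‖me_av t n φ y‖ ≤ 2 * ∫ y, ‖φ y‖ := by
  have h1 : ∀ k : ℕ, Integrable fun y => ‖φ (y + k • t)‖ := fun k => (h.comp_add_right _).norm
  have h2 := (integrable_finsetSum (Finset.range n) fun k _ => h1 k).const_mul (n : ℝ)⁻¹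
  refine (integral_mono (me_int t n h).norm (h2.add (integrable_const (∫ y, ‖φ y‖)))
    fun y => (norm_sub_le _ _).trans (add_le_add ?_ (norm_integral_le_integral_norm _))).trans ?_
  · rw [norm_mul, norm_inv, Complex.norm_natCast]
    exact mul_le_mul_of_nonneg_left (norm_sum_le _ _) (by positivity)
  · rw [integral_add' h2 (integrable_const _), integral_const_mul,
      integral_finsetSum _ fun k _ => h1 k]
    simp only [integral_add_right_eq_self (fun y => ‖φ y‖), Finset.sum_const, Finset.card_range,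
      nsmul_eq_mul, integral_const, probReal_univ, one_smul, ← mul_assoc]
    have h3 : 0 ≤ ∫ y, ‖φ y‖ := integral_nonneg fun _ => norm_nonneg _
    nlinarith [inv_mul_le_one (a := (n : ℝ))]

lemma me_lim {t : T2} {φ : T2 → ℂ} (h : Integrable φ)
    (H : ∀ ε : ℝ, 0 < ε → ∃ ψ, me_G t ψ ∧ ∫ y, ‖φ y - ψ y‖ ≤ ε) : me_G t φ := by
  refine ⟨h, tendsto_order.2 ⟨fun a ha => Eventually.of_forall fun n =>
    ha.trans_le (integral_nonneg fun _ => norm_nonneg _), fun a ha => ?_⟩⟩
  obtain ⟨ψ, h1, h2⟩ := H (a / 3) (by positivity)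
  filter_upwards [(tendsto_order.1 h1.2).2 (a / 3) (by positivity)] with n hn
  have h3 := me_add t n (h.sub h1.1) h1.1
  have h4 := me_le t n (h.sub h1.1)
  rw [sub_add_cancel] at h3
  simp only [Pi.sub_apply] at h4
  linarith

lemma me_chr {t : T2} {χ : T2 → ℂ} {l : ℂ} (hi : Integrable χ) (h1 : ∀ y, ‖χ y‖ = 1)
    (h : ∀ y, χ (y + t) = χ y * l) (hl : l ≠ 1) : me_G t χ := by
  have l1 : ‖l‖ = 1 := by simpa [h1] using (congrArg norm (h 0)).symm
  have h0 : ∫ z, χ z = 0 := by
    have := integral_add_right_eq_self (μ := volume) χ t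
    simp only [h, integral_mul_const] at this
    exact (mul_eq_left₀ · |>.1 this |> hl) |> not_not.1
  have hk : ∀ y (k : ℕ), χ (y + k • t) = χ y * l ^ k := fun y k => by
    induction k with
    | zero => simp
    | succ k ih => rw [succ_nsmul, ← add_assoc, h, ih, pow_succ, mul_assoc]
  refine ⟨hi, squeeze_zero (fun n => integral_nonneg fun _ => norm_nonneg _) (fun n => ?_)
    (tendsto_const_div_atTop_nhds_zero_nat (2 / ‖l - 1‖))⟩
  refine (integral_mono (me_int t n hi).norm (integrable_const (2 / ‖l - 1‖ / n))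
    fun y => ?_).trans (by simp)
  simp only [me_av, h0, hk, sub_zero, ← Finset.mul_sum, geom_sum_eq hl, norm_mul, norm_inv, h1,
    Complex.norm_natCast, one_mul, norm_div]
  rw [mul_comm, ← div_eq_mul_inv]
  gcongr
  exact (norm_sub_le _ _).trans (by rw [norm_pow, l1, one_pow, norm_one, one_add_one_eq_two])

lemma me_cts {φ : T2 → ℂ} (h : Continuous φ) : Integrable φ :=
  h.integrable_of_hasCompactSupport (HasCompactSupport.of_compactSpace _)

lemma me_span {θ : ℝ × ℝ} (hθ : Irr θ) {g : C(UnitAddTorus (Fin 2), ℂ)}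
    (hg : g ∈ Submodule.span ℂ (range UnitAddTorus.mFourier)) :
    me_G (cT θ) fun y => g ![y.1, y.2] := by
  induction hg using Submodule.span_induction with
  | mem g hg =>
    obtain ⟨m, rfl⟩ := hg
    have e : (fun y : T2 => UnitAddTorus.mFourier m ![y.1, y.2]) =
        fun y => fourier (m 0) y.1 * fourier (m 1) y.2 := funext fun y => by
      simp [UnitAddTorus.mFourier]
    rw [e]
    by_cases hm : m 0 = 0 ∧ m 1 = 0
    · refine ⟨me_cts (by fun_prop), tendsto_const_nhds.congr' ?_⟩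
      filter_upwards [eventually_ne_atTop 0] with n hn
      simp [me_av, hm.1, hm.2, hn]
    · refine me_chr (l := fourier (m 0) (θ.1 : S1) * fourier (m 1) (θ.2 : S1))
        (me_cts (by fun_prop)) (fun y => by rw [norm_mul, norm_fourier, norm_fourier, one_mul])
        (fun y => ?_) fun e => hm ?_
      · simp only [cT, Prod.fst_add, Prod.snd_add, fourier_add_right]
        ring
      · rw [fourier_coe_apply, fourier_coe_apply, ← Complex.exp_add, Complex.exp_eq_one_iff] at e
        obtain ⟨k, e⟩ := e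
        refine hθ _ _ k (Complex.ofReal_injective (mul_left_cancel₀ two_pi_I_ne_zero ?_))
        push_cast at e ⊢
        linear_combination e
  | zero => exact ⟨by simp, by simp [me_av]⟩
  | add f g _ _ h h' =>
    refine ⟨h.1.add h'.1, squeeze_zero (fun n => integral_nonneg fun _ => norm_nonneg _)
      (fun n => me_add _ n h.1 h'.1) (by simpa using h.2.add h'.2)⟩
  | smul c f _ h =>
    refine ⟨h.1.const_mul c, ?_⟩
    have := h.2.const_mul ‖c‖
    rw [mul_zero] at this
    refine this.congr fun n => ?_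
    rw [← integral_const_mul]
    refine integral_congr_ae (Eventually.of_forall fun y => ?_)
    simp only [← norm_mul, me_av, ContinuousMap.smul_apply, smul_eq_mul, integral_const_mul,
      ← Finset.mul_sum]
    congr 1
    ring

theorem p_ME :
    S_ME := by
  intro θ hθ φ hφ
  refine (me_lim (t := cT θ) hφ fun ε hε => ?_).2
  obtain ⟨f, h1, h2⟩ := hφ.exists_boundedContinuous_integral_sub_le hε
  refine ⟨f, me_lim h2 fun ε hε => ?_, h1⟩
  have h3 : (⟨fun x => f (x 0, x 1), by fun_prop⟩ : C(UnitAddTorus (Fin 2), ℂ)) ∈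
      (Submodule.span ℂ (range UnitAddTorus.mFourier)).topologicalClosure := by
    rw [UnitAddTorus.span_mFourier_closure_eq_top]
    trivial
  obtain ⟨g, h4, h5⟩ := Metric.mem_closure_iff.1 h3 ε hε
  have h6 := me_span hθ h4
  refine ⟨_, h6, (integral_mono (h2.sub h6.1).norm (integrable_const ε) fun y => ?_).trans
    (by simp)⟩
  have := (ContinuousMap.dist_apply_le_dist ![y.1, y.2]).trans h5.le
  rwa [dist_eq_norm] at this

end ME

section CORE

lemma core_exp {m u : ℂ} (h : ‖m‖ ≤ 1 / 4) (h' : ‖u‖ ≤ ‖m‖ / 4) : ‖m‖ / 4 ≤ ‖exp (m + u) - 1‖ := by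
  have h1 := norm_add_le m u
  have h2 := norm_sub_le (m + u) u
  have h3 := Complex.norm_exp_sub_one_sub_id_le (x := m + u) (by linarith)
  have h4 := norm_sub_le (exp (m + u) - 1) (exp (m + u) - 1 - (m + u))
  rw [sub_sub_cancel] at h4
  rw [add_sub_cancel_right] at h2
  nlinarith [norm_nonneg (m + u), norm_nonneg m]

lemma core_mul {n : ℕ} (hn : 0 < n) (K t : ℝ) :
    (n : ℝ≥0∞) * ENNReal.ofReal (K * (t / n)) = ENNReal.ofReal (K * t) := by
  rw [← ENNReal.ofReal_natCast, ← ENNReal.ofReal_mul n.cast_nonneg]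
  congr 1
  field_simp

theorem p_CORE (hME : S_ME) :
    S_CORE := by
  intro θ hθ Ψ Φ hΨ h hI
  by_contra hm
  set m := ∫ y, Ψ y
  have M0 : 0 < ‖m‖ := norm_pos_iff.2 hm
  obtain ⟨K, s₀, s0, h⟩ := h (‖m‖ / 64) (by positivity)
  obtain ⟨t, t0, t1, t2⟩ : ∃ t : ℝ, 0 < t ∧ K * t ≤ 1 / 8 ∧ t * ‖m‖ ≤ 1 / 4 := by
    have a : 0 < |K| + ‖m‖ := by positivity
    have b : (|K| + ‖m‖) * (1 / (8 * (|K| + ‖m‖))) = 1 / 8 := by field_simp
    have c : 0 < 1 / (8 * (|K| + ‖m‖)) := by positivity
    exact ⟨_, c, by nlinarith [le_abs_self K], by nlinarith [abs_nonneg K]⟩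
  have c0 : 0 < ENNReal.ofReal (1 / 8) := ENNReal.ofReal_pos.2 (by norm_num)
  obtain ⟨n, ⟨n1, n2⟩, n3, n4⟩ := (((eventually_gt_atTop 0).and
    ((tendsto_const_div_atTop_nhds_zero_nat t).eventually_lt_const s0)).and
    (((hME θ hθ Ψ hΨ).eventually_lt_const (show 0 < ‖m‖ / 8 * (1 / 8) by positivity)).and
      ((hI t t0 (t * ‖m‖ / 4) (by positivity)).eventually_lt_const c0))).exists
  obtain ⟨G, E, g1, g2, g3, g4⟩ := h (t / n) (by positivity) n2
  have mp : ∀ k : ℕ, MeasurePreserving (fun y : T2 => y + k • cT θ) volume volume := fun k =>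
    measurePreserving_add_right _ _
  have b1 : volume (⋃ k ∈ Finset.range n, (fun y : T2 => y + k • cT θ) ⁻¹' Gᶜ) ≤
      ENNReal.ofReal (1 / 8) := by
    refine (measure_biUnion_finset_le _ _).trans ((Finset.sum_le_card_nsmul _ _ _ fun k _ =>
      (measure_preimage_add_right _ _ _).trans_le g1).trans ?_)
    rw [Finset.card_range, nsmul_eq_mul, core_mul n1]
    exact ENNReal.ofReal_le_ofReal t1
  have a0 : 0 < t * ‖m‖ / 8 := by positivity
  have b2 : volume {y : T2 | ENNReal.ofReal (t * ‖m‖ / 8) ≤ ∑ k ∈ Finset.range n, E (y + k • cT θ)} ≤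
      ENNReal.ofReal (1 / 8) := by
    have a : ∀ k : ℕ, AEMeasurable fun y : T2 => E (y + k • cT θ) := fun k =>
      g2.comp_quasiMeasurePreserving (mp k).quasiMeasurePreserving
    refine (meas_ge_le_lintegral_div (Finset.aemeasurable_fun_sum _ fun k _ => a k)
      (ENNReal.ofReal_pos.2 a0).ne' ENNReal.ofReal_ne_top).trans (ENNReal.div_le_of_le_mul ?_)
    rw [lintegral_finsetSum' _ fun k _ => a k, ← ENNReal.ofReal_mul (by norm_num)]
    refine (Finset.sum_le_card_nsmul _ _ _ fun k _ =>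
      (lintegral_add_right_eq_self E _).trans_le g3).trans_eq ?_
    rw [Finset.card_range, nsmul_eq_mul, core_mul n1]
    congr 1
    ring
  have b3 : volume {y : T2 | ‖m‖ / 8 ≤ ‖(n : ℂ)⁻¹ * ∑ k ∈ Finset.range n, Ψ (y + k • cT θ) - m‖} ≤
      ENNReal.ofReal (1 / 8) := by
    have a := (mul_meas_ge_le_integral_of_nonneg (Eventually.of_forall fun _ => norm_nonneg _)
      (((integrable_finsetSum _ fun k _ => (mp k).integrable_comp_of_integrable hΨ).const_mul
        (n : ℂ)⁻¹).sub (integrable_const m)).norm (‖m‖ / 8)).trans_lt n3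
    rw [← ENNReal.ofReal_toReal (measure_ne_top _ _)]
    exact ENNReal.ofReal_le_ofReal (lt_of_mul_lt_mul_left a (by positivity)).le
  have b := (measure_union_le _ _).trans (add_le_add ((measure_union_le _ _).trans
    (add_le_add b1 b2)) ((measure_union_le _ _).trans (add_le_add b3 n4.le)))
  rw [← ENNReal.ofReal_add (by norm_num) (by norm_num),
    ← ENNReal.ofReal_add (by norm_num) (by norm_num)] at b
  refine (b.trans_lt (ENNReal.ofReal_lt_one.2 (by norm_num))).ne ((congrArg _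
    (eq_univ_of_forall fun y => by_contra fun hy => ?_)).trans measure_univ)
  simp only [mem_union, mem_iUnion, mem_preimage, mem_compl_iff, mem_ofPred_eq, not_or, not_le,
    not_exists, not_not] at hy
  obtain ⟨⟨y1, y2⟩, y3, y4⟩ := hy
  choose! ε e1 e2 using fun k hk => g4 _ (y1 k hk)
  have e3 : ‖∑ k ∈ Finset.range n, ε k‖ < t * ‖m‖ / 8 := by
    rw [← ENNReal.ofReal_lt_ofReal_iff a0, ofReal_norm]
    exact ((enorm_sum_le _ _).trans (Finset.sum_le_sum e1)).trans_lt y2
  have tm : ‖t * m‖ = t * ‖m‖ := by rw [norm_mul, norm_real, Real.norm_of_nonneg t0.le]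
  have := core_exp (m := t * m) (u := t * ((n : ℂ)⁻¹ * ∑ k ∈ Finset.range n, Ψ (y + k • cT θ) - m) +
    ∑ k ∈ Finset.range n, ε k) (tm.trans_le t2) ((norm_add_le _ _).trans (by
      rw [tm, norm_mul, norm_real, Real.norm_of_nonneg t0.le]
      nlinarith))
  rw [Finset.prod_congr rfl e2, ← exp_sum, Finset.sum_add_distrib, ← Finset.mul_sum] at y4
  refine (tm ▸ this).not_gt (y4.trans_eq' ?_)
  congr 3
  push_cast
  ring

end CORE

section NV

lemma nv_zero {F : ℝ × S1 → ℂ}
    (qp : ∀ (x : ℝ) (m : ℤ) (w : S1), F (x + m, w) = fourier m w * F (x, w)) (x : ℝ) (w : S1) :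
    F (sec (x : S1), w) = 0 ↔ F (x, w) = 0 := by
  obtain ⟨m, hm⟩ := sec_coe x
  conv_rhs => rw [hm, qp]
  simp

theorem p_NV (hME : S_ME) :
    S_NV := by
  classical
  intro P θ F hP hθ hS
  let Z : Set T2 := {y | F (sec y.1, y.2) = 0}
  have hZ : MeasurableSet Z :=
    (hS.ms.comp ((measurable_sec.comp measurable_fst).prodMk measurable_snd))
      (measurableSet_singleton 0)
  let φ : T2 → ℂ := Z.indicator fun _ => 1
  have hφ : Integrable φ := (integrable_const (1 : ℂ)).indicator hZ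
  have h1 : ∀ᵐ y : T2, φ (y - cT θ) = φ y := by
    filter_upwards [ae_sec hS.eq, hP] with y hy hp
    have e : y - cT θ ∈ Z ↔ y ∈ Z := by
      have e1 : (y - cT θ).1 = ((sec y.1 - θ.1 : ℝ) : S1) := by simp [cT]
      have e2 : (y - cT θ).2 = y.2 - θ.2 := rfl
      change F (sec (y - cT θ).1, (y - cT θ).2) = 0 ↔ F (sec y.1, y.2) = 0
      rw [e1, e2, nv_zero hS.qp]
      simp only [coe_sec, Prod.mk.eta] at hy
      have h0 : ee (θ.2 * sec y.1) ≠ 0 := Complex.exp_ne_zero _
      constructor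
      · intro h
        rw [h, mul_zero] at hy
        exact (mul_eq_zero.1 hy.symm).resolve_left hp
      · intro h
        rw [h, mul_zero] at hy
        exact (mul_eq_zero.1 hy).resolve_left h0
    simp only [φ, indicator, e]
  have h2 : ∀ k : ℕ, ∀ᵐ y : T2, φ (y + k • cT θ) = φ y := by
    intro k
    induction k with
    | zero => simp
    | succ k ih =>
      filter_upwards [ih, (measurePreserving_add_right volume
        ((k + 1) • cT θ)).quasiMeasurePreserving.ae h1] with y hy hy'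
      rw [← hy', ← hy, succ_nsmul, ← add_assoc, add_sub_cancel_right]
  have h3 : ∫ y, ‖φ y - ∫ z, φ z‖ = 0 := by
    refine tendsto_nhds_unique tendsto_const_nhds ((hME θ hθ φ hφ).congr' ?_)
    filter_upwards [eventually_gt_atTop 0] with n hn
    refine integral_congr_ae ?_
    filter_upwards [ae_all_iff.2 h2] with y hy
    have : (n : ℂ) ≠ 0 := by exact_mod_cast hn.ne'
    simp [hy, this]
  have h4 : ∀ᵐ y, φ y = ∫ z, φ z := by
    have := (integral_eq_zero_iff_of_nonneg (fun _ => norm_nonneg _)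
      (hφ.sub (integrable_const _)).norm).1 h3
    filter_upwards [this] with y hy
    simpa [sub_eq_zero] using hy
  by_cases hc : ∫ z, φ z = 1
  · refine absurd ?_ hS.nz
    filter_upwards [ae_proj h4] with y hy
    rw [hc] at hy
    by_contra h
    have : ((y.1 : S1), y.2) ∉ Z := fun hz => h ((nv_zero hS.qp y.1 y.2).1 hz)
    simp [φ, this] at hy
  · filter_upwards [ae_proj h4] with y hy h
    have : ((y.1 : S1), y.2) ∈ Z := (nv_zero hS.qp y.1 y.2).2 h
    simp only [φ, indicator_of_mem this] at hy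
    exact hc hy.symm

end NV

section RH

/-- Translation is continuous in measure. -/
lemma rh_tr {f : T2 → ℂ} (hf : Measurable f) {c : ℕ → T2} (hc : Tendsto c atTop (𝓝 0)) :
    ∃ ns : ℕ → ℕ, StrictMono ns ∧
      ∀ᵐ y, Tendsto (fun i => f (y + c (ns i))) atTop (𝓝 (f y)) := by
  let ψ : ℂ → ℂ := fun z => (Homeomorph.unitBall z : Metric.ball (0 : ℂ) 1)
  have hψ : IsInducing ψ := IsInducing.subtypeVal.comp Homeomorph.unitBall.isInducing
  have hm : Measurable fun y => ψ (f y) := hψ.continuous.measurable.comp hf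
  have hi : Integrable fun y => ψ (f y) :=
    Integrable.of_bound hm.aestronglyMeasurable 1 (ae_of_all _ fun y =>
      (mem_ball_zero_iff.1 (Homeomorph.unitBall (f y)).2).le)
  have hs : ∀ n, Integrable fun y => ψ (f (y + c n)) := fun n => hi.comp_add_right (c n)
  have h1 := ENNReal.tendsto_ofReal ((tc volume hi).comp hc)
  rw [ENNReal.ofReal_zero] at h1
  have h2 : TendstoInMeasure volume (fun n y => ψ (f (y + c n))) atTop fun y => ψ (f y) := by
    refine tendstoInMeasure_of_tendsto_eLpNorm one_ne_zero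
      (fun n => (hs n).aestronglyMeasurable) hi.aestronglyMeasurable (h1.congr fun n => ?_)
    rw [eLpNorm_one_eq_lintegral_enorm, ← ofReal_integral_norm_eq_lintegral_enorm ((hs n).sub hi)]
    rfl
  obtain ⟨ns, hns, h3⟩ := h2.exists_seq_tendsto_ae
  exact ⟨ns, hns, h3.mono fun y hy => hψ.tendsto_nhds_iff.2 hy⟩

lemma rh_ne : ∀ᵐ y : T2, sec y.1 ≠ 1 :=
  ae_sec (p := fun y => y.1 ≠ 1)
    (Measure.quasiMeasurePreserving_fst.ae (Measure.ae_ne volume (1 : ℝ)))

lemma rh_eq (F : ℝ × S1 → ℂ) {h : ℝ × ℝ} {y : T2} (hy : sec y.1 + h.1 ∈ Ioc (0 : ℝ) 1) :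
    F (sec y.1 + h.1, y.2 + h.2) = F (sec (y + cT h).1, (y + cT h).2) := by
  have : (y + cT h).1 = ((sec y.1 + h.1 : ℝ) : S1) := by simp [cT]
  rw [this, sec_coe_of_mem hy]
  rfl

theorem p_RH :
    S_RH := by
  intro F hF _ hz h hh
  have hm : ∀ n, Measurable (rho F (h n)) := fun n => by
    have := continuous_ee.measurable
    unfold rho
    fun_prop
  refine tendstoInMeasure_iff_norm.1 ((exists_seq_tendstoInMeasure_atTop_iff
    (g := fun _ => 1) fun n => (hm n).aestronglyMeasurable).2 fun ns hns => ?_)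
  have hk : Tendsto (fun i => h (ns i)) atTop (𝓝 0) := hh.comp hns.tendsto_atTop
  obtain ⟨ms, hms, H⟩ := rh_tr (f := fun y => F (sec y.1, y.2)) (by fun_prop)
    ((continuous_cT.tendsto' 0 0 cT_zero).comp hk)
  refine ⟨ms, hms, ?_⟩
  have hl := hk.comp hms.tendsto_atTop
  filter_upwards [H, ae_sec hz, rh_ne] with y h1 h2 h3
  have h4 : ∀ᶠ i in atTop, sec y.1 + (h (ns (ms i))).1 ∈ Ioc (0 : ℝ) 1 := by
    have : Tendsto (fun i => sec y.1 + (h (ns (ms i))).1) atTop (𝓝 (sec y.1 + 0)) :=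
      tendsto_const_nhds.add hl.fst_nhds
    rw [add_zero] at this
    exact this.eventually (Ioc_mem_nhds (sec_mem _).1 ((sec_mem _).2.lt_of_ne h3))
  have h5 : Tendsto (fun i => ee (-(sec y.1 * (h (ns (ms i))).2))) atTop (𝓝 1) :=
    (continuous_ee.tendsto' 0 1 ee_zero).comp
      (by simpa using (hl.snd_nhds.const_mul (sec y.1)).neg)
  have h6 := (h1.div_const (F (sec y.1, y.2))).mul h5
  rw [div_self h2, one_mul] at h6
  refine h6.congr' (h4.mono fun i hi => ?_)
  simp only [rho, rh_eq F hi]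
  rfl

end RH

section EQ

lemma eq_fourier (m : ℤ) (t : ℝ) : fourier m (t : S1) = ee (m * t) := by
  rw [fourier_coe_apply]; simp only [ee]; congr 1; push_cast; ring

lemma eq_fadd (m : ℤ) (w v : S1) : fourier m (w + v) = fourier m w * fourier m v := by
  simp [fourier_apply, smul_add, toCircle_add]

lemma eq_per {F : ℝ × S1 → ℂ}
    (qp : ∀ (x : ℝ) (m : ℤ) (w : S1), F (x + m, w) = fourier m w * F (x, w)) (h : ℝ × ℝ)
    (x : ℝ) (w : S1) :
    rho F h ((x : S1), w) = F (x + h.1, w + h.2) / F (x, w) * ee (-(x * h.2)) := by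
  obtain ⟨m, hm⟩ := sec_coe x
  unfold rho
  dsimp only
  generalize sec (x : S1) = s at hm
  subst hm
  have e1 : F (s + m + h.1, w + h.2) = fourier m w * ee (m * h.2) * F (s + h.1, w + h.2) := by
    rw [add_right_comm, qp, eq_fadd, eq_fourier]
  have e2 : ee (-(s * h.2)) = ee (m * h.2) * ee (-((s + m) * h.2)) := by
    rw [← ee_add]; congr 1; ring
  have h0 : fourier m w ≠ 0 := by rw [fourier_apply]; exact Circle.coe_ne_zero _
  rw [e1, qp, e2, mul_assoc, mul_div_mul_left _ _ h0]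
  ring

lemma eq_tr {p : ℝ × S1 → Prop} (H : ∀ᵐ y, p y) (a : ℝ × S1) : ∀ᵐ y, p (y + a) :=
  (((measurePreserving_add_right volume a.1).prod
    (measurePreserving_add_right volume a.2)).quasiMeasurePreserving).ae H

lemma eq_step {P : T2 → ℂ} {θ : ℝ × ℝ} {F : ℝ × S1 → ℂ} (hP : ∀ᵐ y, P y ≠ 0) (hs : Sol P θ F)
    (h0 : ∀ᵐ y, F y ≠ 0) (h : ℝ × ℝ) : ∀ᵐ y : T2, rho F h y ≠ 0 ∧ rho F h (y + cT (-θ)) =
      P (y + cT h) / P y * ee (-(θ.2 * h.1 + -θ.1 * h.2)) * rho F h y := by
  have A : ∀ᵐ y : ℝ × S1, rho F h (y.1, y.2) ≠ 0 ∧ rho F h (((y.1 : S1), y.2) + cT (-θ)) =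
      P (((y.1 : S1), y.2) + cT h) / P (y.1, y.2) * ee (-(θ.2 * h.1 + -θ.1 * h.2)) *
        rho F h (y.1, y.2) := by
    filter_upwards [ae_proj hP, h0, eq_tr h0 (h.1, h.2), hs.eq, eq_tr hs.eq (h.1, h.2)]
      with ⟨x, w⟩ a1 a2 a3 a4 a5
    simp only [Prod.mk_add_mk] at a1 a2 a3 a4 a5 ⊢
    have e1 : ((x : S1), w) + cT (-θ) = (((x - θ.1 : ℝ) : S1), w - θ.2) := by
      simp [cT, sub_eq_add_neg]
    have e2 : ((x : S1), w) + cT h = (((x + h.1 : ℝ) : S1), w + h.2) := rfl
    rw [e1, e2, eq_per hs.qp, eq_per hs.qp]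
    refine ⟨mul_ne_zero (div_ne_zero a3 a2) (ee_ne_zero _), ?_⟩
    have b4 : F (x - θ.1, w - θ.2) = P (x, w) * F (x, w) / ee (θ.2 * x) := by
      rw [← a4, mul_div_cancel_left₀ _ (ee_ne_zero _)]
    have b5 : F (x - θ.1 + h.1, w - θ.2 + h.2) =
        P (((x + h.1 : ℝ) : S1), w + h.2) * F (x + h.1, w + h.2) / ee (θ.2 * (x + h.1)) := by
      rw [← a5, mul_div_cancel_left₀ _ (ee_ne_zero _), sub_add_eq_add_sub, sub_add_eq_add_sub]
    have e3 : ee (θ.2 * x) * ee (-((x - θ.1) * h.2)) =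
        ee (θ.2 * (x + h.1)) * (ee (-(θ.2 * h.1 + -θ.1 * h.2)) * ee (-(x * h.2))) := by
      rw [← ee_add, ← ee_add, ← ee_add]; congr 1; ring
    have n1 := ee_ne_zero (θ.2 * x)
    have n2 := ee_ne_zero (θ.2 * (x + h.1))
    rw [b4, b5]
    generalize ee (θ.2 * x) = u1, ee (θ.2 * (x + h.1)) = u2, ee (-((x - θ.1) * h.2)) = u3,
      ee (-(θ.2 * h.1 + -θ.1 * h.2)) = u4, ee (-(x * h.2)) = u5 at e3 n1 n2 ⊢
    field_simp
    linear_combination (P (((x + h.1 : ℝ) : S1), w + h.2)) * e3
  simpa using ae_sec A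

theorem p_EQ (hNV : S_NV) (hRH : S_RH) :
    S_EQ := by
  intro P θ F hP hθ hs h q hh
  have h0 := hNV P θ F hP hθ hs
  have H := hRH F hs.ms hs.qp h0 h hh
  refine ((H.shift fun n => q n • cT (-θ)).div H).congr fun n => ?_
  have A := eq_step hP hs h0 (h n)
  have B := ae_all_iff.2 fun k : ℕ =>
    (measurePreserving_add_right volume (k • cT (-θ))).quasiMeasurePreserving.ae A
  filter_upwards [A, B] with y a b
  rw [div_eq_iff a.1]
  induction q n with
  | zero => simp
  | succ k ih =>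
    rw [Finset.prod_range_succ, succ_nsmul, ← add_assoc, (b k).2, ih]
    ring

end EQ

section AVG

lemma avg_mp (e : ℝ × ℝ) : MeasurePreserving (fun p : T2 × ℝ => p.1 + cT (p.2 • e))
    (volume.prod (volume.restrict (Ioc (0 : ℝ) 1))) volume := by
  have m : Measurable fun p : T2 × ℝ => p.1 + cT (p.2 • e) := Continuous.measurable (by fun_prop)
  refine ⟨m, Measure.ext fun s hs => ?_⟩
  rw [Measure.map_apply m hs, Measure.prod_apply_symm (m hs)]
  exact (lintegral_congr fun t => measure_preimage_add_right _ (cT (t • e)) s).trans (by simp)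

theorem p_AVG :
    S_AVG := by
  intro w e C hw h
  have mp := avg_mp e
  have m := hw.comp mp.measurable
  have i1 : Integrable (w ∘ fun p : T2 × ℝ => p.1 + cT (p.2 • e))
      (volume.prod (volume.restrict (Ioc (0 : ℝ) 1))) := by
    refine (integrable_prod_iff m.aestronglyMeasurable).2 ⟨h.mono fun y hy => hy.1.1, .of_bound
      m.aestronglyMeasurable.norm.integral_prod_right' C (h.mono fun y hy => ?_)⟩
    rw [Real.norm_of_nonneg (integral_nonneg fun _ => norm_nonneg _),
      ← intervalIntegral.integral_of_le zero_le_one]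
    exact hy.2
  have i2 := (mp.integrable_comp hw.aestronglyMeasurable).1 i1
  simp only [intervalIntegral.integral_of_le zero_le_one]
  refine ⟨i2, i1.integral_prod_left, (integral_prod _ i1).symm.trans ?_, fun η hη => ?_⟩
  · conv_rhs => rw [← mp.map_eq, integral_map mp.measurable.aemeasurable hw.aestronglyMeasurable]
    rfl
  have c : Tendsto (fun t : ℝ => cT (t • e)) (𝓝 0) (𝓝 0) :=
    Continuous.tendsto' (by fun_prop) _ _ (by rw [zero_smul, cT_zero])
  obtain ⟨δ, hδ, H⟩ := Metric.eventually_nhds_iff.1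
    (((tc volume i2.ofReal).comp c).eventually_le_const hη)
  have m2 : Measurable fun p : T2 × ℝ => ‖w (p.1 + cT (p.2 • e)) - w p.1‖ₑ :=
    (m.sub (hw.comp measurable_fst)).enorm
  refine ⟨min δ 1, lt_min hδ one_pos, fun s s0 s1 => ⟨fun y => ∫⁻ t in Ioc 0 s,
    ‖w (y + cT (t • e)) - w y‖ₑ, m2.lintegral_prod_right'.aemeasurable, ?_,
    h.mono fun y hy => ?_⟩⟩
  · rw [lintegral_lintegral_swap m2.aemeasurable]
    refine (setLIntegral_mono' (g := fun _ => ENNReal.ofReal η) measurableSet_Ioc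
      fun t ht => ?_).trans_eq ?_
    · have := H (y := t) (by
        rw [Real.dist_0_eq_abs, abs_of_pos ht.1]
        exact ht.2.trans_lt (s1.trans_le (min_le_left _ _)))
      simp only [Function.comp, ← RCLike.ofReal_sub, RCLike.norm_ofReal] at this
      exact (ofReal_integral_norm_eq_lintegral_enorm ((i2.comp_add_right _).sub i2)).ge.trans
        (ENNReal.ofReal_le_ofReal this)
    · rw [setLIntegral_const, Real.volume_Ioc, sub_zero, ENNReal.ofReal_mul hη.le]
  · have i3 := hy.1.mono_set (uIcc_subset_uIcc_left (b := 1) (x := s)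
      (mem_uIcc_of_le s0.le (s1.le.trans (min_le_right _ _))))
    have := intervalIntegral.integral_sub i3 (intervalIntegrable_const (c := w y))
    rw [intervalIntegral.integral_const, sub_zero, smul_eq_mul] at this
    rw [← this, intervalIntegral.integral_of_le s0.le]
    exact enorm_integral_le_lintegral_enorm _

end AVG

section F0

lemma f0_alg {A B : ℂ} {J a : ℝ} (hB : B ≠ 0) (h : A / conj A = B / conj B * exp (I * J)) :
    A / B * ee (-a) / conj (A / B * ee (-a)) = exp (I * J - 4 * π * I * a) := by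
  have hB' : conj B ≠ 0 := (_root_.map_ne_zero _).2 hB
  have e : exp (I * J - 4 * π * I * a) = exp (I * J) * (ee (-a) / ee a) := by
    rw [ee, ee, ← Complex.exp_sub, ← Complex.exp_add]
    congr 1
    push_cast
    ring
  rw [map_mul, map_div₀, conj_ee, neg_neg, mul_div_mul_comm, div_div_div_comm, h, e,
    mul_div_cancel_left₀ _ (div_ne_zero hB hB')]

theorem p_F0 (hCORE : S_CORE) (hAVG : S_AVG) :
    S_F0 := by
  intro P w θ ν e C hw h1 h2 hθ hE
  obtain ⟨a1, -, -, a2⟩ := hAVG w e C hw h1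
  let X : ℝ → T2 → ℂ := fun s y =>
    P (y + cT (s • e)) / P y * ee (-(ν.1 * (s • e).1 + ν.2 * (s • e).2))
  have hi : Integrable fun y => w y - 4 * π * (ν.1 * e.1 + ν.2 * e.2) := a1.sub (integrable_const _)
  have := hCORE θ hθ (fun y => I * (w y - 4 * π * (ν.1 * e.1 + ν.2 * e.2) : ℝ))
    (fun s y => X s y / conj (X s y)) (hi.ofReal.const_mul I) (fun η hη => ?_) fun t ht => ?_
  · rw [integral_const_mul, integral_complex_ofReal, mul_eq_zero, ofReal_eq_zero,
      integral_sub a1 (integrable_const _)] at this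
    simpa [sub_eq_zero] using this
  · obtain ⟨s₀, h0, H⟩ := a2 η hη
    refine ⟨0, s₀, h0, fun s s1 s2 => ?_⟩
    obtain ⟨E, e1, e2, e3⟩ := H s s1 s2
    refine ⟨_, E, (mem_ae_iff.1 (e3.and (h2 s))).trans_le zero_le, e1, e2, fun y ⟨b1, b2, b3⟩ =>
      ⟨I * ((∫ t in (0 : ℝ)..s, w (y + cT (t • e))) - s * w y : ℝ), ?_, ?_⟩⟩
    · refine le_trans (le_of_eq ?_) b1
      rw [← ofReal_norm, ← ofReal_norm, norm_mul, norm_I, one_mul, norm_real]
    · refine (f0_alg b2 b3).trans (congrArg _ ?_)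
      simp only [Prod.smul_fst, Prod.smul_snd, smul_eq_mul]
      push_cast
      ring
  · have h3 := hE (fun n => (t / n) • e) (fun n => n) (by
      simpa using (tendsto_const_div_atTop_nhds_zero_nat t).smul_const e)
    simpa only [X, Finset.prod_div_distrib, map_prod] using h3.div h3.conj

end F0

end Pool.Agent.P.MP_2a8753_an.H
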