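import Pool.Agent.P.MP_2a8753_an.H.Iface

/-! The first order invariant. -/

set_option autoImplicit false
set_option linter.unusedSectionVars false

namespace Pool.Agent.P.MP_2a8753_an.H

open MeasureTheory Filter Set Topology AddCircle Complex Polynomial
open scoped Real ComplexConjugate ENNReal

section CI

theorem p_CI :
    S_CI := by
  intro r hr
  have h : (∮ z in C(0, 1), (z - r)⁻¹) = 2 * π * I * ∫ t in (0 : ℝ)..1, ee t / (ee t - r) := by
    have := intervalIntegral.smul_integral_comp_mul_left (a := 0) (b := 1)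
      (fun θ : ℝ => deriv (circleMap 0 1) θ • (circleMap 0 1 θ - r)⁻¹) (2 * π)
    rw [mul_zero, mul_one] at this
    rw [circleIntegral, ← this, real_smul, mul_assoc _ I, ← intervalIntegral.integral_const_mul I]
    refine congrArg₂ _ (by simp) (intervalIntegral.integral_congr fun t _ => ?_)
    have e : circleMap 0 1 (2 * π * t) = ee t := by
      simp only [circleMap, ee]
      push_cast
      ring_nf
    simp only [deriv_circleMap, e, smul_eq_mul]
    ring
  refine mul_left_cancel₀ two_pi_I_ne_zero (h.symm.trans ?_)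
  split_ifs with a
  · rw [mul_one, circleIntegral.integral_sub_inv_of_mem_ball (mem_ball_zero_iff.2 a)]
  · have b : ∀ z ∈ Metric.closedBall (0 : ℂ) 1, DifferentiableAt ℂ (fun z => (z - r)⁻¹) z :=
      fun z hz => (differentiableAt_id.sub_const r).inv (sub_ne_zero.2 fun e => hr
        (le_antisymm (e ▸ mem_closedBall_zero_iff.1 hz) (not_lt.1 a)))
    rw [mul_zero]
    exact circleIntegral_eq_zero_of_differentiable_on_off_countable zero_le_one countable_empty
      (fun z hz => (b z hz).continuousAt.continuousWithinAt)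
      fun z hz => b z (Metric.ball_subset_closedBall hz.1)

end CI

section PH1

lemma ph1_re {z r : ℂ} (hz : ‖z‖ = 1) (h : z ≠ r) :
    4 * π * (z / (z - r)).re = 2 * π + 2 * π * (1 - ‖r‖ ^ 2) / ‖z - r‖ ^ 2 := by
  have h1 : normSq (z - r) ≠ 0 := normSq_eq_zero.not.2 (sub_ne_zero.2 h)
  have h2 : normSq z = 1 := by rw [normSq_eq_norm_sq, hz, one_pow]
  rw [Complex.div_re, ← normSq_eq_norm_sq, ← normSq_eq_norm_sq]
  field_simp
  simp only [normSq_apply, sub_re, sub_im] at h2 ⊢
  linear_combination 2 * h2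

lemma ph1_im (z r : ℂ) : 2 * (2 * π * I * z / (z - r)).im = 4 * π * (z / (z - r)).re := by
  rw [mul_div_assoc, show (2 * π * I * (z / (z - r)) : ℂ) = ((2 * π : ℝ) : ℂ) * (z / (z - r) * I) by
    push_cast; ring, im_ofReal_mul, mul_I_im]
  ring

lemma ph1_unit {z r : ℂ} (hz : ‖z‖ = 1) (hr : ‖r‖ = 1) (h : z ≠ r) :
    (z - r) / conj (z - r) = -(z * r) := by
  have h1 : z * conj z = 1 := by rw [mul_conj', hz]; simp
  have h2 : r * conj r = 1 := by rw [mul_conj', hr]; simp
  rw [div_eq_iff ((_root_.map_ne_zero _).2 (sub_ne_zero.2 h)), map_sub]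
  linear_combination r * h1 - z * h2

lemma ph1_ode {r : ℂ} (h : ∀ t, ee t ≠ r) {w : ℝ → ℝ} (hw : Continuous w)
    (e : ∀ t, w t = 4 * π * (ee t / (ee t - r)).re) (t₀ t₁ : ℝ) :
    (ee t₁ - r) / conj (ee t₁ - r) =
      (ee t₀ - r) / conj (ee t₀ - r) * exp (I * (∫ t in t₀..t₁, w t : ℝ)) := by
  have hd : ∀ t, HasDerivAt (fun t => (ee t - r) / conj (ee t - r) *
      exp (-(I * (∫ s in t₀..t, w s : ℝ)))) 0 t := fun t => by
    have n1 := sub_ne_zero.2 (h t)
    have n2 : conj (ee t - r) ≠ 0 := (_root_.map_ne_zero _).2 n1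
    have d1 : HasDerivAt (fun t => ee t - r) (2 * π * I * ee t) t := by
      simpa using (hasDerivAt_ee 1 t).sub_const r
    have d2 : HasDerivAt (fun t => conj (ee t - r)) (conj (2 * π * I * ee t)) t := d1.star
    have d3 := (((hw.integral_hasStrictDerivAt t₀ t).hasDerivAt.ofReal_comp.const_mul I).neg).cexp
    have d4 := (d1.div d2 n2).mul d3
    refine d4.congr_deriv ?_
    have e1 : (w t : ℂ) = 2 * π * (ee t / (ee t - r) + conj (ee t) / conj (ee t - r)) := by
      rw [← map_div₀, add_conj, e]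
      push_cast
      ring
    simp only [e1, map_mul, conj_ofReal, conj_I, map_ofNat, Pi.div_apply, Pi.neg_apply]
    field_simp
    ring
  have := is_const_of_deriv_eq_zero (fun t => (hd t).differentiableAt) (fun t => (hd t).deriv) t₁ t₀
  simp only [intervalIntegral.integral_same, ofReal_zero, mul_zero, neg_zero, exp_zero,
    mul_one] at this
  rw [← this, mul_assoc, ← Complex.exp_add, neg_add_cancel, exp_zero, mul_one]

theorem p_PH1 (hCI : S_CI) :
    S_PH1 := by
  intro r
  have hp := Real.pi_pos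
  by_cases hr : ‖r‖ = 1
  · refine ⟨fun _ => 2 * π, continuous_const, fun t ht => ?_, ?_, ?_, fun t₀ t₁ h0 h1 => ?_⟩
    · rw [ph1_im, ph1_re (norm_ee t) ht, hr]
      simp
    · rw [intervalIntegral.integral_const, abs_of_pos (by positivity), sub_zero, one_smul]
      linarith
    · simp [Wn, hr]
    · rw [ph1_unit (norm_ee _) hr h0, ph1_unit (norm_ee _) hr h1, intervalIntegral.integral_const,
        show exp (I * ((t₁ - t₀) • (2 * π) : ℝ)) = ee (t₁ - t₀) by
          rw [ee, smul_eq_mul]; congr 1; push_cast; ring,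
        show ee t₁ = ee t₀ * ee (t₁ - t₀) by rw [← ee_add, add_sub_cancel]]
      ring
  have h : ∀ t, ee t ≠ r := fun t e => hr (e ▸ norm_ee t)
  have c1 : Continuous fun t => ee t / (ee t - r) :=
    continuous_ee.div (continuous_ee.sub continuous_const) fun t => sub_ne_zero.2 (h t)
  have c2 : Continuous fun t => 4 * π * (ee t / (ee t - r)).re :=
    continuous_const.mul (continuous_re.comp c1)
  have i1 : ∫ t in (0 : ℝ)..1, 4 * π * (ee t / (ee t - r)).re = 2 * π * Wn r := by
    have := reCLM.intervalIntegral_comp_comm (c1.intervalIntegrable (μ := volume) 0 1)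
    simp only [reCLM_apply] at this
    rw [intervalIntegral.integral_const_mul, this, hCI r hr, Wn, if_neg hr]
    split_ifs
    · rw [one_re]; ring
    · rw [zero_re]; ring
  refine ⟨_, c2, fun t _ => (ph1_im _ _).symm, ?_, i1, fun t₀ t₁ _ _ =>
    ph1_ode h c2 (fun _ => rfl) t₀ t₁⟩
  by_cases hl : ‖r‖ < 1
  · have : 0 ≤ 1 - ‖r‖ ^ 2 := by nlinarith [norm_nonneg r]
    rw [intervalIntegral.integral_congr (g := fun t => 4 * π * (ee t / (ee t - r)).re)
      fun t _ => abs_of_nonneg (by rw [ph1_re (norm_ee t) (h t)]; positivity), i1, Wn, if_pos hl]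
    linarith
  · have h1 : 0 ≤ ‖r‖ ^ 2 - 1 := by nlinarith [norm_nonneg r]
    refine (intervalIntegral.integral_mono_on zero_le_one (c2.abs.intervalIntegrable _ _)
      ((continuous_const.sub c2).intervalIntegrable _ _)
      (g := fun t => 4 * π - 4 * π * (ee t / (ee t - r)).re) fun t _ => ?_).trans_eq ?_
    · have h2 : 0 ≤ 2 * π * (‖r‖ ^ 2 - 1) / ‖ee t - r‖ ^ 2 := by positivity
      rw [ph1_re (norm_ee t) (h t), ← neg_sub (‖r‖ ^ 2), mul_neg, neg_div, abs_le]
      constructor <;> linarith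
    · rw [intervalIntegral.integral_sub (by simp) (c2.intervalIntegrable _ _), i1, Wn, if_neg hl,
        if_neg hr]
      simp

end PH1

section PH

lemma ph_ind (hPH1 : S_PH1) (s : Multiset ℂ) : ∃ W : ℝ → ℝ, Continuous W ∧
    (∀ t, (s.map (ee t - ·)).prod ≠ 0 →
      W t = 2 * (2 * π * I * ee t * (s.map fun z => 1 / (ee t - z)).sum).im) ∧
    ∫ t in (0 : ℝ)..1, |W t| ≤ 4 * π * s.card ∧
    ∫ t in (0 : ℝ)..1, W t = 2 * π * (s.map Wn).sum ∧
    ∀ t₀ t₁ : ℝ, (s.map (ee t₀ - ·)).prod ≠ 0 → (s.map (ee t₁ - ·)).prod ≠ 0 →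
      (s.map (ee t₁ - ·)).prod / conj (s.map (ee t₁ - ·)).prod =
        (s.map (ee t₀ - ·)).prod / conj (s.map (ee t₀ - ·)).prod *
          exp (I * (∫ t in t₀..t₁, W t : ℝ)) := by
  induction s using Multiset.induction_on with
  | empty => exact ⟨fun _ => 0, continuous_const, by simp⟩
  | cons r s ih =>
    obtain ⟨W, a1, a2, a3, a4, a5⟩ := ih
    obtain ⟨w, b1, b2, b3, b4, b5⟩ := hPH1 r
    simp only [Multiset.map_cons, Multiset.prod_cons, Multiset.sum_cons, Multiset.card_cons]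
    refine ⟨fun t => w t + W t, b1.add a1, fun t ht => ?_, ?_, ?_, fun t₀ t₁ h0 h1 => ?_⟩
    · rw [mul_ne_zero_iff] at ht
      dsimp only
      rw [a2 t ht.2, b2 t (sub_ne_zero.1 ht.1), mul_add (2 * π * I * ee t), add_im, mul_one_div,
        mul_add]
    · refine (intervalIntegral.integral_mono_on zero_le_one ((b1.add a1).abs.intervalIntegrable _ _)
        ((b1.abs.fun_add a1.abs).intervalIntegrable _ _) fun t _ => abs_add_le _ _).trans ?_
      rw [intervalIntegral.integral_add (b1.abs.intervalIntegrable _ _)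
        (a1.abs.intervalIntegrable _ _)]
      push_cast
      linarith
    · rw [intervalIntegral.integral_add (b1.intervalIntegrable _ _) (a1.intervalIntegrable _ _),
        a4, b4, mul_add]
    · rw [mul_ne_zero_iff] at h0 h1
      rw [intervalIntegral.integral_add (b1.intervalIntegrable _ _) (a1.intervalIntegrable _ _),
        map_mul, map_mul, mul_div_mul_comm, mul_div_mul_comm, a5 _ _ h0.2 h1.2,
        b5 _ _ (sub_ne_zero.1 h0.1) (sub_ne_zero.1 h1.1), ofReal_add, mul_add, Complex.exp_add]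
      ring

theorem p_PH (hPH1 : S_PH1) (hEXP : S_EXP) :
    S_PH := by
  intro p hp
  obtain ⟨W, a1, a2, a3, a4, a5⟩ := ph_ind hPH1 p.roots
  have hs := IsAlgClosed.splits p
  have he : ∀ t, p.eval (ee t) = p.leadingCoeff * (p.roots.map (ee t - ·)).prod := fun t =>
    hs.eval_eq_prod_roots _
  have h1 : om p =ᵐ[volume] W := by
    filter_upwards [(hEXP.2.2.1 p hp).1] with t ht
    rw [a2 t (right_ne_zero_of_mul (he t ▸ ht)), om, mul_div_assoc,
      hs.eval_derivative_div_eval_of_ne_zero ht]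
  have h2 : ∀ a b, ∫ t in a..b, om p t = ∫ t in a..b, W t := fun a b =>
    intervalIntegral.integral_congr_ae (h1.mono fun _ h _ => h)
  refine ⟨fun a b => (a1.intervalIntegrable a b).congr_ae (ae_restrict_of_ae h1.symm), ?_,
    (h2 _ _).trans a4, fun t₀ t₁ h0 h3 => ?_⟩
  · rw [hs.natDegree_eq_card_roots, intervalIntegral.integral_congr_ae (g := fun t => |W t|)
      (h1.mono fun _ h _ => by rw [h])]
    exact a3
  · rw [he] at h0 h3
    rw [he, he, h2, map_mul, map_mul, mul_div_mul_comm, mul_div_mul_comm,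
      a5 _ _ (right_ne_zero_of_mul h0) (right_ne_zero_of_mul h3), mul_assoc]

end PH

section F1

lemma f1_der (J : ℝ) (p : ℂ[X]) (t : ℝ) :
    HasDerivAt (fun s : ℝ => ee (-(J * s)) * p.eval (ee s))
      (2 * π * I * (-J : ℝ) * ee (-(J * t)) * p.eval (ee t) +
        ee (-(J * t)) * (p.derivative.eval (ee t) * (2 * π * I * ee t))) t := by
  have h1 := hasDerivAt_ee (-J) t
  simp only [neg_mul] at h1
  have h2 : HasDerivAt ee (2 * π * I * ee t) t := by simpa using hasDerivAt_ee 1 t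
  have h3 := (p.hasDerivAt (ee t)).comp t h2
  exact h1.mul h3

lemma f1_val (J : ℝ) (p : ℂ[X]) (t : ℝ) (a b : ℂ) (h : p.eval (ee t) ≠ 0)
    (ha : a = ee (-(J * t)) * p.eval (ee t))
    (hb : b = 2 * π * I * (-J : ℝ) * ee (-(J * t)) * p.eval (ee t) +
        ee (-(J * t)) * (p.derivative.eval (ee t) * (2 * π * I * ee t))) :
    2 * (b / a).im = -(4 * π * J) + om p t := by
  have h0 := ee_ne_zero (-(J * t))
  have : b / a = ((2 * π * (-J) : ℝ) : ℂ) * I +
      2 * π * I * ee t * p.derivative.eval (ee t) / p.eval (ee t) := by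
    rw [ha, hb]; push_cast; field_simp
  rw [this, add_im, om, mul_I_im, ofReal_re]
  ring

lemma f1_ph (J s : ℝ) : ee (-(J * s)) / conj (ee (-(J * s))) = exp (I * (-(4 * π * J) * s : ℝ)) := by
  rw [conj_ee, ee, ee, ← Complex.exp_sub]
  congr 1
  push_cast
  ring

theorem p_F1 (hF0 : S_F0) (hAVG : S_AVG) (hPH : S_PH) (hEXP : S_EXP) :
    S_F1 := by
  intro P P' θ ν e J lo hi D p hP hP' h0 hd hp hD hb hI hE
  set w : T2 → ℝ := fun y => 2 * (P' y / P y).im with hw
  have wm : Measurable w := by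
    have := hP.measurable
    have := hP'.measurable
    fun_prop
  have pe : ∀ y, P y = (p y).eval (ee 0) := fun y => by
    simpa [cT_zero, ee_zero] using hp y 0
  have pn : ∀ y, P y ≠ 0 → p y ≠ 0 := fun y h h' => h (by rw [pe, h', eval_zero])
  have ae : ∀ y, P y ≠ 0 → ∀ᵐ t : ℝ, w (y + cT (t • e)) = -(4 * π * J) + om (p y) t := by
    intro y hy
    filter_upwards [(hEXP.2.2.1 _ (pn y hy)).1] with t ht
    refine f1_val J (p y) t _ _ ht (hp y t) ((hd y t).unique ?_)
    simpa only [hp] using f1_der J (p y) t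
  have ii : ∀ y, P y ≠ 0 → ∀ a b,
      IntervalIntegrable (fun t : ℝ => -(4 * π * J) + om (p y) t) volume a b := fun y hy a b =>
    intervalIntegrable_const.add ((hPH _ (pn y hy)).1 a b)
  have ie : ∀ y, P y ≠ 0 → ∀ s, ∫ t in (0 : ℝ)..s, w (y + cT (t • e)) =
      -(4 * π * J) * s + ∫ t in (0 : ℝ)..s, om (p y) t := by
    intro y hy s
    rw [intervalIntegral.integral_congr_ae ((ae y hy).mono fun t ht _ => ht),
      intervalIntegral.integral_add intervalIntegrable_const ((hPH _ (pn y hy)).1 0 s),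
      intervalIntegral.integral_const, sub_zero, smul_eq_mul, mul_comm s]
  have H1 : ∀ᵐ y, IntervalIntegrable (fun t : ℝ => w (y + cT (t • e))) volume 0 1 ∧
      ∫ t in (0 : ℝ)..1, |w (y + cT (t • e))| ≤ |4 * π * J| + 4 * π * D := by
    filter_upwards [h0] with y hy
    refine ⟨(ii y hy 0 1).congr_ae (ae_restrict_of_ae ((ae y hy).mono fun t ht => ht.symm)), ?_⟩
    rw [intervalIntegral.integral_congr_ae (g := fun t => |-(4 * π * J) + om (p y) t|)
      ((ae y hy).mono fun t ht _ => by rw [ht])]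
    have i2 := ((hPH _ (pn y hy)).1 0 1).abs
    calc _ ≤ ∫ t in (0 : ℝ)..1, (|4 * π * J| + |om (p y) t|) :=
          intervalIntegral.integral_mono_on zero_le_one (ii y hy 0 1).abs
            (intervalIntegrable_const.add i2) fun t _ => by
              simpa only [abs_neg] using abs_add_le (-(4 * π * J)) (om (p y) t)
      _ ≤ _ := by
          rw [intervalIntegral.integral_add intervalIntegrable_const i2]
          have h1 := (hPH _ (pn y hy)).2.1
          have h2 : (4 * π : ℝ) * (p y).natDegree ≤ 4 * π * D := by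
            gcongr; exact hD y
          simp only [intervalIntegral.integral_const, sub_zero, one_smul]
          linarith
  have H2 : ∀ s : ℝ, ∀ᵐ y, P y ≠ 0 ∧ P (y + cT (s • e)) / conj (P (y + cT (s • e))) =
      P y / conj (P y) * exp (I * (∫ t in (0 : ℝ)..s, w (y + cT (t • e)) : ℝ)) := by
    intro s
    filter_upwards [h0, (measurePreserving_add_right volume (cT (s • e))).quasiMeasurePreserving.ae
      h0] with y hy hy'
    refine ⟨hy, ?_⟩
    have h1 : (p y).eval (ee s) ≠ 0 := fun h => hy' (by rw [hp, h, mul_zero])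
    have h2 := (hPH _ (pn y hy)).2.2.2 0 s (pe y ▸ hy) h1
    rw [ie y hy, hp, map_mul, mul_div_mul_comm, f1_ph, h2, ← pe, ofReal_add, mul_add,
      Complex.exp_add]
    ring
  have h1 := hF0 P w θ ν e _ wm H1 H2 hI hE
  obtain ⟨-, i1, h2, -⟩ := hAVG w e _ wm H1
  have key : ∀ᵐ y, -(4 * π * J) + 2 * π * lo ≤ ∫ t in (0 : ℝ)..1, w (y + cT (t • e)) ∧
      ∫ t in (0 : ℝ)..1, w (y + cT (t • e)) ≤ -(4 * π * J) + 2 * π * hi := by
    filter_upwards [h0, hb] with y hy hb
    rw [ie y hy, (hPH _ (pn y hy)).2.2.1, mul_one]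
    constructor
    · gcongr; exact hb.1
    · gcongr; exact hb.2
  have l1 := integral_mono_ae (integrable_const _) i1 (key.mono fun y h => h.1)
  have l2 := integral_mono_ae i1 (integrable_const _) (key.mono fun y h => h.2)
  simp only [integral_const, probReal_univ, one_smul, h2, h1] at l1 l2
  have := Real.pi_pos
  constructor <;> refine le_of_mul_le_mul_left ?_ (by positivity : 0 < 2 * π) <;> linarith

end F1

section SEP

theorem p_SEP :
    S_SEP := by
  intro S θ hθ
  obtain ⟨f, u, h1, h2⟩ := geometric_hahn_banach_closed_point (convex_convexHull ℝ _)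
    ((S.finite_toSet.image _).isCompact_convexHull ℝ).isClosed hθ
  have hf : ∀ p : ℝ × ℝ, f p = f (1, 0) * p.1 + f (0, 1) * p.2 := fun p => by
    rw [mul_comm, mul_comm _ p.2, ← smul_eq_mul, ← smul_eq_mul, ← map_smul, ← map_smul, ← map_add]
    simp
  have hU : IsOpen (⋂ k ∈ S, {p : ℝ × ℝ | p.1 * k.1 + p.2 * k.2 < p.1 * θ.1 + p.2 * θ.2}) :=
    isOpen_biInter_finset fun k _ => isOpen_lt (by fun_prop) (by fun_prop)
  obtain ⟨⟨r, s⟩, h⟩ := (Rat.denseRange_cast.prodMap Rat.denseRange_cast).exists_mem_open hU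
    ⟨(f (1, 0), f (0, 1)), mem_iInter₂.2 fun k hk => by
      have := (h1 _ (subset_convexHull ℝ _ ⟨k, hk, rfl⟩)).trans h2
      rw [hf, hf θ] at this
      exact this⟩
  refine ⟨r.num * s.den, s.num * r.den, fun k hk => ?_⟩
  have h3 : (r : ℝ) * k.1 + s * k.2 < r * θ.1 + s * θ.2 := mem_iInter₂.1 h k hk
  have e1 : (r.num : ℝ) = r * r.den := by exact_mod_cast r.mul_den_eq_num.symm
  have e2 : (s.num : ℝ) = s * s.den := by exact_mod_cast s.mul_den_eq_num.symm
  have h4 : (0 : ℝ) < r.den * s.den := by exact_mod_cast Nat.mul_pos r.den_pos s.den_pos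
  push_cast
  rw [e1, e2]
  nlinarith [mul_lt_mul_of_pos_left h3 h4]

end SEP

section C3

lemma c3_chi (a b : ℤ) (k : ℤ × ℤ) (y : T2) (t : ℝ) :
    fourier k.2 (y + cT (t • ((b : ℝ), -(a : ℝ)))).1 *
      fourier (-k.1) (y + cT (t • ((b : ℝ), -(a : ℝ)))).2 =
    fourier k.2 y.1 * fourier (-k.1) y.2 * ee ((a * k.1 + b * k.2 : ℤ) * t) := by
  rw [Prod.fst_add, Prod.snd_add, fourier_add_right, fourier_add_right, cT, fourier_coe_ee,
    fourier_coe_ee, mul_mul_mul_comm, ← ee_add]
  congr 2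
  simp only [Prod.smul_mk, smul_eq_mul]
  push_cast
  ring

lemma c3_wn (p : ℂ[X]) : 0 ≤ (p.roots.map Wn).sum ∧ (p.roots.map Wn).sum ≤ 2 * p.natDegree := by
  have h : ∀ r, 0 ≤ Wn r ∧ Wn r ≤ 2 := fun r => by
    unfold Wn
    split_ifs <;> norm_num
  refine ⟨Multiset.sum_nonneg fun x hx => ?_, (Multiset.sum_le_card_nsmul _ 2 fun x hx => ?_).trans ?_⟩
  · obtain ⟨r, -, rfl⟩ := Multiset.mem_map.1 hx
    exact (h r).1
  · obtain ⟨r, -, rfl⟩ := Multiset.mem_map.1 hx
    exact (h r).2
  · have : (p.roots.card : ℝ) ≤ p.natDegree := by exact_mod_cast card_roots' p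
    rw [Multiset.card_map, nsmul_eq_mul]
    linarith

theorem p_C3 (hF1 : S_F1) (hSEP : S_SEP) (hEXP : S_EXP) :
    S_C3 := by
  intro S c θ hc hθ hE
  by_contra hn
  obtain ⟨a, b, hab⟩ := hSEP S θ hn
  have hS : S.Nonempty := let ⟨k, hk, _⟩ := hc; ⟨k, hk⟩
  obtain ⟨u, hu, hu'⟩ := S.exists_max_image (fun k => a * k.1 + b * k.2) hS
  obtain ⟨v, hv, hv'⟩ := S.exists_min_image (fun k => a * k.1 + b * k.2) hS
  obtain ⟨D, hD⟩ := Int.eq_ofNat_of_zero_le (sub_nonneg.2 (hv' u hu))
  have hd : ∀ y : T2, (∑ k ∈ S, C (c k * (fourier k.2 y.1 * fourier (-k.1) y.2)) *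
      X ^ (a * k.1 + b * k.2 - (a * v.1 + b * v.2)).toNat).natDegree ≤ D := fun y =>
    natDegree_sum_le_of_forall_le _ _ fun k hk => (natDegree_C_mul_X_pow_le _ _).trans (by
      have := hu' k hk
      omega)
  have h := (hF1 (PP S c) (fun y => ∑ k ∈ S, c k * (fourier k.2 y.1 * fourier (-k.1) y.2) *
    (2 * π * I * ((a * k.1 + b * k.2 : ℤ) : ℝ))) (-θ) (θ.2, -θ.1) (b, -a)
    (-(a * v.1 + b * v.2 : ℤ)) 0 (2 * D) D _ (continuous_PP S c) (by fun_prop)
    (hEXP.2.2.2.1 S c hc) (fun y t => ?_) (fun y t => ?_) hd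
    (.of_forall fun y => ⟨(c3_wn _).1, (c3_wn _).2.trans (by
      have : ((_ : ℕ) : ℝ) ≤ D := Nat.cast_le.2 (hd y)
      linarith)⟩) (fun a b m e => ?_) hE).2
  · have h1 := hab u hu
    have h2 := congrArg (Int.cast : ℤ → ℝ) hD
    push_cast at h h1 h2
    linarith
  · simp only [PP, c3_chi]
    refine HasDerivAt.fun_sum fun k _ => ?_
    exact (((hasDerivAt_ee _ t).const_mul _).const_mul (c k)).congr_deriv (by ring)
  · simp only [PP, c3_chi, eval_finsetSum, eval_mul, eval_C, eval_pow, eval_X, Finset.mul_sum]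
    refine Finset.sum_congr rfl fun k hk => ?_
    obtain ⟨m, hm⟩ := Int.eq_ofNat_of_zero_le (sub_nonneg.2 (hv' k hk))
    rw [hm, Int.toNat_natCast, ← ee_nat_mul, sub_eq_iff_eq_add'.1 hm, Int.cast_add _ (m : ℤ),
      add_mul, ee_add, neg_mul, neg_neg, Int.cast_natCast]
    ring
  · have := hθ a b (-m) (by
      simp only [Prod.fst_neg, Prod.snd_neg] at e
      push_cast
      linarith)
    exact this

end C3

section NT

lemma nt_f (x : S1) (s : ℝ) : fourier 1 (x + (s : S1)) = fourier 1 x * ee s := by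
  have h : fourier 1 (s : S1) = ee s := by
    rw [fourier_coe_apply, ee]; congr 1; push_cast; ring
  rw [← h, fourier_one, fourier_one, fourier_one, toCircle_add, Circle.coe_mul]

lemma nt_n (x : S1) : ‖fourier 1 x‖ = 1 := by rw [fourier_one, Circle.norm_coe]

lemma nt_P (a b c : ℂ) (y : T2) (s : ℝ) : P3 a b c (y + cT (s • ((1 : ℝ), (0 : ℝ)))) =
    b * fourier 1 y.1 * ee s + (a + c * fourier 1 y.2) := by
  simp only [P3, cT, Prod.fst_add, Prod.snd_add, Prod.smul_mk, smul_eq_mul, mul_one, mul_zero,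
    QuotientAddGroup.mk_zero, add_zero, nt_f]
  ring

lemma nt_ae (hEXP : S_EXP) {a c : ℂ} (b : ℂ) (ha : a ≠ 0) (hc : c ≠ 0) :
    ∀ᵐ y : T2, ‖a + c * fourier 1 y.2‖ ≠ ‖b‖ := by
  have hQ : C (c * conj a) * X ^ 2 + C (a * conj a + c * conj c - b * conj b) * X + C (a * conj c)
      ≠ 0 := by
    intro h
    have := congrArg (eval 0) h
    simp [ha, hc] at this
  have h1 := Measure.quasiMeasurePreserving_snd (μ := (volume : Measure S1))
    (ν := (volume : Measure S1)) |>.ae (hEXP.2.2.1 _ hQ).2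
  refine h1.mono fun y hy h => hy ?_
  set w : ℂ := fourier 1 y.2 with hw
  have h2 : w * conj w = 1 := by rw [mul_conj, normSq_eq_norm_sq, hw, nt_n]; simp
  have h3 : (a + c * w) * conj (a + c * w) = b * conj b := by
    rw [mul_conj, mul_conj, normSq_eq_norm_sq, normSq_eq_norm_sq, h]
  simp only [eval_add, eval_mul, eval_C, eval_pow, eval_X]
  rw [map_add, map_mul] at h3
  linear_combination w * h3 - (a * conj c + c * conj c * w) * h2

lemma nt_k (hEXP : S_EXP) (a b c : ℂ) (hnt : ¬ (|‖a‖ - ‖c‖| < ‖b‖ ∧ ‖b‖ < ‖a‖ + ‖c‖)) :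
    ∃ k : ℤ, ∀ᵐ y : T2,
      ((C (b * fourier 1 y.1) * X + C (a + c * fourier 1 y.2)).roots.map Wn).sum = (k : ℝ) := by
  by_cases hb : b = 0
  · exact ⟨0, Eventually.of_forall fun y => by simp [hb, -map_add, -map_mul]⟩
  have hb' : 0 < ‖b‖ := norm_pos_iff.2 hb
  have hr : ∀ y : T2,
      ((C (b * fourier 1 y.1) * X + C (a + c * fourier 1 y.2)).roots.map Wn).sum =
      if ‖a + c * fourier 1 y.2‖ < ‖b‖ then 2 else if ‖a + c * fourier 1 y.2‖ = ‖b‖ then 1
        else 0 := by
    intro y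
    have h1 : b * fourier 1 y.1 ≠ 0 := by
      rw [← norm_ne_zero_iff, norm_mul, nt_n, mul_one]; exact hb'.ne'
    rw [roots_C_mul_X_add_C _ h1, Multiset.map_singleton, Multiset.sum_singleton, Wn, norm_neg,
      norm_mul, norm_inv, norm_mul, nt_n, mul_one, inv_mul_eq_div]
    simp only [div_lt_one hb', div_eq_one_iff_eq hb'.ne']
  simp only [hr]
  by_cases hac : a = 0 ∨ c = 0
  · refine ⟨if ‖a‖ + ‖c‖ < ‖b‖ then 2 else if ‖a‖ + ‖c‖ = ‖b‖ then 1 else 0,
      Eventually.of_forall fun y => ?_⟩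
    have : ‖a + c * fourier 1 y.2‖ = ‖a‖ + ‖c‖ := by
      rcases hac with h | h
      · rw [h, zero_add, norm_mul, nt_n]; simp
      · simp [h]
    rw [this]
    split_ifs <;> simp
  rw [not_or] at hac
  have hae := nt_ae hEXP b hac.1 hac.2
  have hn : ∀ y : T2, ‖c * fourier 1 y.2‖ = ‖c‖ := fun y => by rw [norm_mul, nt_n, mul_one]
  rcases not_and_or.1 hnt with h | h
  · refine ⟨0, hae.mono fun y hy => ?_⟩
    have h1 := abs_norm_sub_norm_le a (-(c * fourier 1 y.2))
    rw [norm_neg, hn, sub_neg_eq_add] at h1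
    rw [if_neg (by linarith), if_neg hy]
    simp
  · refine ⟨2, hae.mono fun y hy => ?_⟩
    have h1 := norm_add_le a (c * fourier 1 y.2)
    rw [hn] at h1
    rw [if_pos (lt_of_le_of_ne (by linarith) hy)]
    simp

theorem p_NT (hF1 : S_F1) (hEXP : S_EXP) :
    S_NT := by
  intro a b c θ ν h0 hnt hirr hν hEQ
  obtain ⟨k, hk⟩ := nt_k hEXP a b c hnt
  have h := hF1 (P3 a b c) (fun y => 2 * π * I * (b * fourier 1 y.1)) θ ν (1, 0) 0 k k 1
    (fun y => C (b * fourier 1 y.1) * X + C (a + c * fourier 1 y.2)) (continuous_P3 a b c)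
    (by fun_prop) (hEXP.2.2.2.2 a b c h0) (fun y t => ?_) (fun y t => ?_)
    (fun y => natDegree_linear_le) (hk.mono fun y hy => ⟨hy.ge, hy.le⟩) hirr hEQ
  · refine hν ⟨(k : ℚ) / 2, ?_⟩
    push_cast
    simp only [mul_one, mul_zero, add_zero] at h
    linarith [h.1, h.2]
  · simp only [nt_P]
    have h1 := ((hasDerivAt_ee 1 t).const_mul (b * fourier 1 y.1)).add_const
      (a + c * fourier 1 y.2)
    simp only [one_mul] at h1
    refine h1.congr_deriv ?_
    simp only [cT, Prod.fst_add, Prod.smul_mk, smul_eq_mul, mul_one, nt_f]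
    push_cast
    ring
  · rw [nt_P, zero_mul, neg_zero, ee_zero, one_mul]
    simp only [eval_add, eval_mul, eval_C, eval_X]

end NT

end Pool.Agent.P.MP_2a8753_an.H
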