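import Pool.Agent.P.MP_2a8753_an.H.Iface

/-! Local estimates for the three-term polynomial. -/

set_option autoImplicit false
set_option linter.unusedSectionVars false

namespace Pool.Agent.P.MP_2a8753_an.H

open MeasureTheory Filter Set Topology AddCircle Complex Polynomial
open scoped Real ComplexConjugate ENNReal

section ARC

theorem arc_low (u : S1) : 4 * ‖u‖ ≤ ‖fourier 1 u - 1‖ := by
  induction u using QuotientAddGroup.induction_on with
  | H s =>
    have e : ((s - round s : ℝ) : S1) = (s : S1) := by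
      rw [AddCircle.coe_sub, sub_eq_self, AddCircle.coe_eq_zero_iff]
      exact ⟨round s, by simp⟩
    have h1 : ‖(s : S1)‖ = |s - round s| := UnitAddCircle.norm_eq
    have h2 := abs_sub_round s
    rw [h1, ← e]
    generalize s - round s = t at h2
    have e2 : fourier 1 (t : S1) = Complex.exp (I * (2 * π * t : ℝ)) := by
      rw [fourier_coe_apply]
      congr 1
      push_cast
      ring
    have h3 := Real.mul_abs_le_abs_sin (x := π * t) (by
      rw [abs_mul, abs_of_pos Real.pi_pos]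
      nlinarith [Real.pi_pos])
    rw [abs_mul, abs_of_pos Real.pi_pos, ← mul_assoc, div_mul_cancel₀ _ Real.pi_ne_zero] at h3
    rw [e2, Complex.norm_exp_I_mul_ofReal_sub_one, show 2 * π * t / 2 = π * t by ring,
      Real.norm_eq_abs, abs_mul, abs_two]
    linarith

theorem p_ARC :
    S_ARC := by
  intro ζ δ
  rcases Set.eq_empty_or_nonempty {x : S1 | ‖fourier 1 x - ζ‖ ≤ δ} with h | ⟨y, hy⟩
  · rw [h, measure_empty]; exact zero_le
  refine (measure_mono (t := Metric.closedBall y (δ / 2)) fun x hx => ?_).trans ?_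
  · have h1 := arc_low (x - y)
    have e : fourier 1 x - fourier 1 y = fourier 1 y * (fourier 1 (x - y) - 1) := by
      simp only [fourier_one]
      rw [mul_sub, mul_one, ← Circle.coe_mul, ← AddCircle.toCircle_add, add_sub_cancel]
    have h2 : ‖fourier 1 x - fourier 1 y‖ = ‖fourier 1 (x - y) - 1‖ := by
      rw [e, norm_mul, fourier_one, Circle.norm_coe, one_mul]
    have h3 := norm_sub_le_norm_sub_add_norm_sub (fourier 1 x) ζ (fourier 1 y)
    rw [norm_sub_rev ζ] at h3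
    rw [Metric.mem_closedBall, dist_eq_norm]
    simp only [Set.mem_ofPred_eq] at hx hy
    linarith
  · rw [AddCircle.volume_closedBall]
    exact ENNReal.ofReal_le_ofReal ((min_le_right _ _).trans (by linarith))

end ARC

section D2

lemma d2_alg {a b c s t : ℝ} (ha : 0 < a) (hb : 0 < b) (hs : 0 < s)
    (hc : 2 * b * c = a ^ 2 - 1 - b ^ 2) (h1 : c ^ 2 + s ^ 2 = 1) {z w : ℂ} (hz : ‖z‖ = 1)
    (hw : ‖w‖ = 1) (h : ‖1 + a * z + b * w‖ ≤ t) :
    ‖w - (c + s * I)‖ ≤ (1 + a + b) / (b * s) * t ∨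
      ‖w - (c - s * I)‖ ≤ (1 + a + b) / (b * s) * t := by
  have w2 : w.re ^ 2 + w.im ^ 2 = 1 := by
    have := Complex.sq_norm w
    rw [hw, normSq_apply] at this
    linarith
  have e1 : ‖1 + b * w‖ ^ 2 - a ^ 2 = 2 * b * (w.re - c) := by
    rw [Complex.sq_norm, normSq_apply]
    simp only [add_re, one_re, mul_re, ofReal_re, ofReal_im, add_im, one_im, mul_im]
    linear_combination b ^ 2 * w2 + hc
  have e2 : ‖w - (c + s * I)‖ * ‖w - (c - s * I)‖ = 2 * |w.re - c| := by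
    have : (w - (c + s * I)) * (w - (c - s * I)) = w * ((2 * (w.re - c) : ℝ) : ℂ) := by
      apply Complex.ext <;>
        simp only [add_re, mul_re, ofReal_re, ofReal_im, add_im, mul_im, sub_re, sub_im, I_re, I_im]
      · linear_combination h1 - w2
      · ring
    rw [← norm_mul, this, norm_mul, hw, one_mul, Complex.norm_real, Real.norm_eq_abs, abs_mul,
      abs_two]
  have e3 : |‖1 + b * w‖ - a| ≤ t := by
    have := abs_norm_sub_norm_le (1 + b * w) (-(a * z))
    rw [norm_neg, norm_mul, hz, mul_one, Complex.norm_real, Real.norm_of_nonneg ha.le] at this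
    refine this.trans (le_of_eq_of_le ?_ h)
    congr 1; ring
  have e4 : ‖1 + b * w‖ ≤ 1 + b := by
    have := norm_add_le 1 (b * w)
    rwa [norm_one, norm_mul, hw, mul_one, Complex.norm_real, Real.norm_of_nonneg hb.le] at this
  have e5 : b * (2 * |w.re - c|) ≤ (1 + a + b) * t := by
    have n0 := norm_nonneg (1 + b * w)
    calc b * (2 * |w.re - c|) = |2 * b * (w.re - c)| := by
          rw [abs_mul, abs_of_pos (by positivity : 0 < 2 * b)]; ring
      _ = (‖1 + b * w‖ + a) * |‖1 + b * w‖ - a| := by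
          rw [← e1, sq_sub_sq, abs_mul, abs_of_nonneg (by positivity)]
      _ ≤ (1 + a + b) * t := mul_le_mul (by linarith) e3 (abs_nonneg _) (by positivity)
  have e6 : 2 * s ≤ ‖w - (c + s * I)‖ + ‖w - (c - s * I)‖ := by
    have := norm_sub_le (w - (c - s * I)) (w - (c + s * I))
    rw [show w - (c - s * I) - (w - (c + s * I)) = ((2 * s : ℝ) : ℂ) * I by push_cast; ring,
      norm_mul, norm_I, mul_one, Complex.norm_real, Real.norm_of_nonneg (by positivity)] at this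
    linarith
  rw [← e2] at e5
  have p := norm_nonneg (w - (c + s * I))
  have q := norm_nonneg (w - (c - s * I))
  simp only [div_mul_eq_mul_div, le_div_iff₀ (mul_pos hb hs)]
  rcases le_total ‖w - (c + s * I)‖ ‖w - (c - s * I)‖ with k | k
  · left
    have := mul_le_mul_of_nonneg_left (show s ≤ ‖w - (c - s * I)‖ by linarith)
      (mul_nonneg hb.le p)
    linarith
  · right
    have := mul_le_mul_of_nonneg_left (show s ≤ ‖w - (c + s * I)‖ by linarith)
      (mul_nonneg hb.le q)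
    linarith

theorem p_D2 (hARC : S_ARC) :
    S_D2 := by
  intro a b ⟨ha, hb, lo, hi⟩
  obtain ⟨c, hc⟩ : ∃ c : ℝ, 2 * b * c = a ^ 2 - 1 - b ^ 2 :=
    ⟨(a ^ 2 - 1 - b ^ 2) / (2 * b), by field_simp⟩
  have c1 : 0 < 1 - c ^ 2 := by
    have u : c < 1 := by
      refine lt_of_mul_lt_mul_left (a := 2 * b) ?_ (by positivity)
      nlinarith
    have l : -1 < c := by
      refine lt_of_mul_lt_mul_left (a := 2 * b) ?_ (by positivity)
      have := sq_lt_sq' (abs_lt.1 lo).1 (abs_lt.1 lo).2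
      nlinarith
    nlinarith
  have hs := Real.sqrt_pos.2 c1
  have h1 : c ^ 2 + √(1 - c ^ 2) ^ 2 = 1 := by rw [Real.sq_sqrt c1.le]; ring
  set s := √(1 - c ^ 2)
  set K := (1 + a + b) / (b * s) with hK
  have K0 : 0 ≤ K := by positivity
  refine ⟨2 * K / a, by positivity, fun t ht => ?_⟩
  have hm : MeasurableSet {y | ‖P3 1 a b y‖ ≤ t} :=
    (isClosed_le (by fun_prop) continuous_const).measurableSet
  set A : Set S1 := {x | ‖fourier 1 x - (c + s * I)‖ ≤ K * t} ∪
    {x | ‖fourier 1 x - (c - s * I)‖ ≤ K * t} with hA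
  have n1 : ∀ x : S1, ‖fourier 1 x‖ = 1 := fun x => Circle.norm_coe _
  calc volume {y | ‖P3 1 a b y‖ ≤ t}
      = ∫⁻ w, volume ((fun x => (x, w)) ⁻¹' {y | ‖P3 1 a b y‖ ≤ t}) :=
        Measure.prod_apply_symm hm
    _ ≤ ∫⁻ w, A.indicator (fun _ => ENNReal.ofReal (t / a)) w := by
        refine lintegral_mono fun w => ?_
        by_cases hw : w ∈ A
        · rw [indicator_of_mem hw]
          refine (measure_mono fun x hx => ?_).trans (hARC (-(1 + b * fourier 1 w) / a) (t / a))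
          have e : fourier 1 x - -(1 + b * fourier 1 w) / a = P3 1 a b (x, w) / a := by
            have : (a : ℂ) ≠ 0 := by exact_mod_cast ha.ne'
            simp only [P3]; field_simp; ring
          rw [mem_ofPred_eq, e, norm_div, Complex.norm_real, Real.norm_of_nonneg ha.le]
          exact div_le_div_of_nonneg_right hx ha.le
        · have e : (fun x => (x, w)) ⁻¹' {y | ‖P3 1 a b y‖ ≤ t} = ∅ :=
            eq_empty_of_forall_notMem fun x hx => hw (d2_alg ha hb hs hc h1 (n1 x) (n1 w) hx)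
          rw [e, measure_empty]
          exact zero_le
    _ ≤ ENNReal.ofReal (t / a) * volume A := lintegral_indicator_const_le _ _
    _ ≤ ENNReal.ofReal (t / a) * (ENNReal.ofReal (K * t) + ENNReal.ofReal (K * t)) :=
        mul_le_mul_right ((measure_union_le _ _).trans (add_le_add (hARC _ _) (hARC _ _))) _
    _ = _ := by
        rw [← ENNReal.ofReal_add (by positivity) (by positivity),
          ← ENNReal.ofReal_mul (by positivity)]
        congr 1; ring

end D2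

section LC

lemma lc_dy {f g : T2 → ℝ} {C b : ℝ} (hb : 0 ≤ b)
    (h : ∀ t : ℝ, 0 < t → volume {y | f y ≤ t} ≤ ENNReal.ofReal (C * t ^ 2)) (s : Set T2)
    (a u : ℕ → ℝ) (ha : ∀ j, 0 ≤ a j) (hu : ∀ j, 0 < u j)
    (h1 : ∀ j, a j * (C * u j ^ 2) ≤ b * (1 / 2) ^ j) (h2 : ∀ y ∈ s, ∃ j, g y ≤ a j ∧ f y ≤ u j) :
    ∫⁻ y in s, ENNReal.ofReal (g y) ≤ ENNReal.ofReal (b * 2) := by
  refine (lintegral_mono_set (t := ⋃ j, {y | g y ≤ a j ∧ f y ≤ u j})
    fun y hy => mem_iUnion.2 (h2 y hy)).trans ((lintegral_iUnion_le _ _).trans ?_)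
  rw [← tsum_geometric_two, ← tsum_mul_left, ENNReal.ofReal_tsum_of_nonneg
    (fun _ => by positivity) (summable_geometric_two.mul_left b)]
  refine ENNReal.tsum_le_tsum fun j => (setLIntegral_mono (g := fun _ => ENNReal.ofReal (a j))
    measurable_const fun y hy => ENNReal.ofReal_le_ofReal hy.1).trans ?_
  rw [setLIntegral_const]
  refine (mul_le_mul_right ((measure_mono fun y hy => hy.2).trans (h _ (hu j))) _).trans ?_
  rw [← ENNReal.ofReal_mul (ha j)]
  exact ENNReal.ofReal_le_ofReal (h1 j)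

theorem p_LC :
    S_LC := by
  intro f C hC hf h0 h
  refine ⟨⟨hf.inv.aestronglyMeasurable, ?_⟩, fun t ht => ?_⟩
  · rw [hasFiniteIntegral_iff_ofReal (.of_forall fun y => inv_nonneg.2 (h0 y)),
      ← setLIntegral_univ, ← union_compl_self {y | 0 < f y ∧ f y ≤ 1}]
    refine (lintegral_union_le _ _ _).trans_lt (ENNReal.add_lt_top.2 ⟨?_, ?_⟩)
    · refine (lc_dy (b := 2 * C) (by positivity) h _ (fun j => ((1 / 2) ^ (j + 1))⁻¹)
        (fun j => (1 / 2) ^ j) (fun _ => by positivity) (fun _ => by positivity)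
        (fun j => le_of_eq (by field_simp; ring)) fun y hy => ?_).trans_lt ENNReal.ofReal_lt_top
      obtain ⟨j, h1, h2⟩ := exists_nat_pow_near_of_lt_one hy.1 hy.2 one_half_pos one_half_lt_one
      exact ⟨j, inv_anti₀ (by positivity) h1.le, h2⟩
    · refine (setLIntegral_mono (g := fun _ => 1) measurable_const fun y hy => ?_).trans_lt ?_
      · refine ENNReal.ofReal_le_one.2 ?_
        rcases (h0 y).eq_or_lt with e | e
        · simp [← e]
        · exact inv_le_one_of_one_le₀ (not_le.1 fun e' => hy ⟨e, e'⟩).le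
      · rw [setLIntegral_one]
        exact measure_lt_top _ _
  · refine (lc_dy (b := 4 * C / t ^ 2) (by positivity) h _ (fun j => ((2 ^ j * t) ^ 4)⁻¹)
      (fun j => 2 ^ (j + 1) * t) (fun _ => by positivity) (fun _ => by positivity)
      (fun j => ?_) fun y hy => ?_).trans_eq (by congr 1; ring)
    · have : (1 : ℝ) ≤ 2 ^ j := one_le_pow₀ one_le_two
      rw [one_div_pow, pow_succ 2 j]
      generalize (2 : ℝ) ^ j = x at this
      rw [show ((x * t) ^ 4)⁻¹ * (C * (x * 2 * t) ^ 2) = 4 * C / t ^ 2 * (1 / x) * (1 / x) by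
        field_simp; norm_num]
      exact mul_le_of_le_one_right (by positivity) (div_le_one_of_le₀ this (by positivity))
    · obtain ⟨j, h1, h2⟩ := exists_nat_pow_near ((one_le_div ht).2 hy) one_lt_two
      exact ⟨j, inv_anti₀ (by positivity)
        (pow_le_pow_left₀ (by positivity) ((le_div_iff₀ ht).1 h1) 4), ((div_lt_iff₀ ht).1 h2).le⟩

end LC

section TAY

lemma tay_cos (t : ℝ) : ∃ d : ℝ, |d| ≤ (2 * π * t) ^ 4 ∧
    ee t + ee (-t) = 2 - (2 * π * t) ^ 2 + d := by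
  set x := 2 * π * t with hx
  refine ⟨2 * Real.cos x - 2 + x ^ 2, ?_, ?_⟩
  · have h1 := Real.one_sub_sq_div_two_le_cos (x := x)
    have h2 := Real.cos_le_one x
    rw [abs_of_nonneg (by linarith)]
    rcases le_total |x| 1 with h | h
    · have h3 := (abs_le.1 (Real.cos_bound h)).2
      rw [Even.pow_abs (by decide)] at h3
      have : 0 ≤ x ^ 4 := by positivity
      linarith
    · have h3 : 1 ≤ x ^ 2 := by rw [← sq_abs]; nlinarith
      nlinarith
  · have e1 : ee t = exp (x * I) := by rw [ee, hx]; congr 1; push_cast; ring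
    have e2 : ee (-t) = exp (-x * I) := by rw [ee, hx]; congr 1; push_cast; ring
    rw [e1, e2, ← two_cos, hx]
    push_cast
    ring

lemma tay_exp {x : ℂ} (h : ‖x‖ ≤ 1 / 2) : ∃ η : ℂ, ‖η‖ ≤ ‖x‖ ^ 2 ∧ 1 + x = exp (x + η) := by
  refine ⟨log (1 + x) - x, ?_, ?_⟩
  · refine (norm_log_one_add_sub_self_le (by linarith)).trans ?_
    have : (1 - ‖x‖)⁻¹ ≤ 2 := by
      rw [inv_le_comm₀ (by linarith) two_pos]
      linarith
    nlinarith [sq_nonneg ‖x‖]
  · rw [add_sub_cancel, exp_log]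
    intro e
    rw [eq_neg_of_add_eq_zero_right e] at h
    norm_num at h

lemma tay_abs {K S : ℝ} (hK : 0 ≤ K) : ∃ C : ℝ, 0 < C ∧ ∀ r : ℝ, 0 < r → ∀ P M d : ℂ, ‖P‖ ≤ S →
    ‖M‖ ≤ K → ‖d‖ ≤ K * r ^ 4 → C * r ≤ ‖P‖ → ∃ ε : ℂ, ‖ε‖ ≤ C * r ^ 4 / ‖P‖ ^ 4 ∧
      (P ^ 2 + r ^ 2 * M + d) / P ^ 2 = exp (r ^ 2 * M / P ^ 2 + ε) := by
  obtain ⟨L, hL⟩ : ∃ L, L = K + K * S ^ 2 := ⟨_, rfl⟩
  have KS : 0 ≤ K * S ^ 2 := by positivity
  have L0 : 0 ≤ L := by linarith
  have L2 := sq_nonneg L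
  refine ⟨1 + 2 * L + K * S ^ 2 + L ^ 2, by linarith, fun r hr P M d hP hM hd hC => ?_⟩
  have p0 : 0 < ‖P‖ := lt_of_lt_of_le (mul_pos (by linarith) hr) hC
  have P0 : P ≠ 0 := norm_pos_iff.1 p0
  obtain ⟨s, rfl⟩ : ∃ s, r = s * ‖P‖ := ⟨r / ‖P‖, by field_simp⟩
  have s0 : 0 < s := (mul_pos_iff_of_pos_right p0).1 hr
  have hs : (1 + 2 * L + K * S ^ 2 + L ^ 2) * s ≤ 1 := by
    rw [← mul_assoc] at hC
    exact le_of_mul_le_mul_right (by linarith) p0
  have s1 : s ≤ 1 := by nlinarith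
  have s2 : s ^ 2 ≤ s := by nlinarith
  have s4 : s ^ 4 ≤ s ^ 2 := pow_le_pow_of_le_one s0.le s1 (by norm_num)
  have pS : ‖P‖ ^ 2 ≤ S ^ 2 := by gcongr
  have h1 : ‖d / P ^ 2‖ ≤ K * S ^ 2 * s ^ 4 := by
    rw [norm_div, norm_pow, div_le_iff₀ (by positivity)]
    refine hd.trans ?_
    calc K * (s * ‖P‖) ^ 4 = K * ‖P‖ ^ 2 * s ^ 4 * ‖P‖ ^ 2 := by ring
      _ ≤ _ := by gcongr
  have h2 : ‖((s * ‖P‖ : ℝ) : ℂ) ^ 2 * M / P ^ 2‖ ≤ K * s ^ 2 := by
    rw [norm_div, norm_mul, norm_pow, norm_pow, norm_real, Real.norm_of_nonneg hr.le,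
      div_le_iff₀ (by positivity)]
    calc (s * ‖P‖) ^ 2 * ‖M‖ ≤ (s * ‖P‖) ^ 2 * K := by gcongr
      _ = _ := by ring
  have h3 : ‖((s * ‖P‖ : ℝ) : ℂ) ^ 2 * M / P ^ 2 + d / P ^ 2‖ ≤ L * s ^ 2 := by
    refine (norm_add_le_of_le h2 h1).trans ?_
    rw [hL, add_mul]
    gcongr
  obtain ⟨η, a1, a2⟩ := tay_exp (h3.trans (by nlinarith [mul_le_mul_of_nonneg_left s2 L0]))
  refine ⟨d / P ^ 2 + η, ?_, ?_⟩
  · have a3 : ‖η‖ ≤ L ^ 2 * s ^ 4 := a1.trans ((pow_le_pow_left₀ (norm_nonneg _) h3 2).trans_eq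
      (by ring))
    refine (norm_add_le_of_le h1 a3).trans ?_
    rw [mul_pow s, ← mul_assoc, mul_div_cancel_right₀ _ (by positivity), ← add_mul]
    gcongr
    linarith
  · rw [← add_assoc, ← a2]
    field_simp
    ring

lemma tay_shift (a b : ℝ) (h : ℝ × ℝ) (y : T2) :
    P3 1 a b (y + cT h) = 1 + a * fourier 1 y.1 * ee h.1 + b * fourier 1 y.2 * ee h.2 := by
  simp only [P3, cT, Prod.fst_add, Prod.snd_add, fourier_add_right, fourier_coe_ee, Int.cast_one,
    one_mul, mul_assoc]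

lemma tay_norm (x : S1) : ‖fourier 1 x‖ = 1 := Circle.norm_coe _

lemma tay_tri {a b : ℝ} (ha : 0 < a) (hb : 0 < b) (y : T2) {c1 c2 c3 : ℂ} {k1 k2 k3 : ℝ}
    (h1 : ‖c1‖ ≤ k1) (h2 : ‖c2‖ ≤ k2) (h3 : ‖c3‖ ≤ k3) :
    ‖a * fourier 1 y.1 * c1 + b * fourier 1 y.2 * c2 + a * fourier 1 y.1 * (b * fourier 1 y.2) * c3‖
      ≤ a * k1 + b * k2 + a * b * k3 := by
  refine norm_add₃_le.trans ?_
  simp only [norm_mul, tay_norm, norm_real, Real.norm_of_nonneg ha.le, Real.norm_of_nonneg hb.le,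
    mul_one]
  gcongr

lemma tay_dir {a b : ℝ} (ha : 0 < a) (hb : 0 < b) (e f : ℝ) : ∃ C : ℝ, 0 < C ∧ ∀ r : ℝ, 0 < r → ∀ y,
    C * r ≤ ‖P3 1 a b y‖ → ∃ ε : ℂ, ‖ε‖ ≤ C * r ^ 4 / ‖P3 1 a b y‖ ^ 4 ∧
      Q2 a b (r • (e, f)) y = exp (r ^ 2 * (a * fourier 1 y.1 * (-(2 * π * e) ^ 2 : ℝ) +
        b * fourier 1 y.2 * (-(2 * π * f) ^ 2 : ℝ) + a * fourier 1 y.1 * (b * fourier 1 y.2) *
          (-(2 * π * (e - f)) ^ 2 : ℝ)) / P3 1 a b y ^ 2 + ε) := by
  set K1 := a * (2 * π * e) ^ 2 + b * (2 * π * f) ^ 2 + a * b * (2 * π * (e - f)) ^ 2 with hK1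
  set K2 := a * (2 * π * e) ^ 4 + b * (2 * π * f) ^ 4 + a * b * (2 * π * (e - f)) ^ 4 with hK2
  have k1 : 0 ≤ K1 := by positivity
  have k2 : 0 ≤ K2 := by positivity
  obtain ⟨C, C0, hC⟩ := tay_abs (K := K1 + K2) (S := 1 + a + b) (by linarith)
  refine ⟨C, C0, fun r hr y h => ?_⟩
  obtain ⟨d1, a1, b1⟩ := tay_cos (r * e)
  obtain ⟨d2, a2, b2⟩ := tay_cos (r * f)
  obtain ⟨d3, a3, b3⟩ := tay_cos (r * e - r * f)
  have n : ∀ x : ℝ, ‖((-x ^ 2 : ℝ) : ℂ)‖ ≤ x ^ 2 := fun x => by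
    rw [norm_real, norm_neg, Real.norm_of_nonneg (sq_nonneg x)]
  have n' : ∀ {x k : ℝ}, |x| ≤ k → ‖(x : ℂ)‖ ≤ k := fun h => by rwa [norm_real]
  have hP : ‖P3 1 a b y‖ ≤ 1 + a + b := by
    refine norm_add₃_le.trans_eq ?_
    simp only [norm_mul, tay_norm, norm_real, Real.norm_of_nonneg ha.le,
      Real.norm_of_nonneg hb.le, mul_one, norm_one]
  obtain ⟨ε, c1, c2⟩ := hC r hr _ _ _ hP ((tay_tri ha hb y (n _) (n _) (n _)).trans
    (le_add_of_nonneg_right k2)) ((tay_tri ha hb y (n' a1) (n' a2) (n' a3)).trans (by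
      have : 0 ≤ K1 * r ^ 4 := by positivity
      rw [add_mul K1, hK2]
      refine le_trans (le_of_eq ?_) (le_add_of_nonneg_left this)
      ring)) h
  refine ⟨ε, c1, Eq.trans ?_ c2⟩
  rw [Q2, div_mul_div_comm, ← sq, tay_shift, tay_shift]
  congr 1
  have u1 := ee_neg_mul (r * e)
  have u2 := ee_neg_mul (r * f)
  rw [neg_sub, sub_eq_add_neg, sub_eq_add_neg (r * f), ee_add, ee_add] at b3
  simp only [Prod.smul_mk, smul_eq_mul, Prod.neg_mk, P3]
  push_cast at b1 b2 b3 ⊢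
  linear_combination (a * fourier 1 y.1) * b1 + (b * fourier 1 y.2) * b2 +
    (a * fourier 1 y.1 * (b * fourier 1 y.2)) * b3 + (a * fourier 1 y.1) ^ 2 * u1 +
    (b * fourier 1 y.2) ^ 2 * u2

theorem p_TAY :
    S_TAY := by
  intro a b ρ σ ha hb h1 h2
  obtain ⟨C1, c1, k1⟩ := tay_dir ha hb ρ 1
  obtain ⟨C2, c2, k2⟩ := tay_dir ha hb σ 0
  refine ⟨C1 + C2, by linarith, fun r hr y h => ?_⟩
  obtain ⟨ε1, a1, b1⟩ := k1 r hr y (le_trans (by nlinarith) h)
  obtain ⟨ε2, a2, b2⟩ := k2 r hr y (le_trans (by nlinarith) h)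
  refine ⟨ε1 + ε2, (norm_add_le_of_le a1 a2).trans_eq (by ring), ?_⟩
  rw [b1, b2, ← Complex.exp_add, add_add_add_comm, ← add_div, ← mul_add, Psi, mul_div_assoc]
  congr 2
  rw [ofReal_pow]
  congr 2
  have z1 : ∀ x : S1, fourier 1 x * conj (fourier 1 x) = 1 := fun x => by
    rw [mul_conj', tay_norm]; simp
  have e1 : 2 * (a : ℂ) ^ 2 * ρ = a ^ 2 + b ^ 2 - 1 := by exact_mod_cast h1
  have e2 : (a : ℂ) ^ 2 * (ρ ^ 2 + σ ^ 2) = b ^ 2 := by exact_mod_cast h2
  have a0 : (a : ℂ) ≠ 0 := by exact_mod_cast ha.ne'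
  have z2 := z1 y.1
  have z3 := z1 y.2
  simp only [P3, map_add, map_mul, map_one, conj_ofReal]
  generalize fourier 1 y.1 = z at *
  generalize fourier 1 y.2 = w at *
  push_cast
  field_simp
  linear_combination (-4 * z - 4 * b * z * w) * e2 + 4 * b * z * w * e1 + 4 * a * b * w * z2 +
    4 * b ^ 2 * z * z3

end TAY

section INX

lemma inx_int (g : ℂ → ℂ) : ∫ x : S1, g (fourier 1 x) = ∫ t in (0 : ℝ)..1, g (ee t) := by
  rw [← UnitAddCircle.intervalIntegral_preimage 0, zero_add]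
  simp only [fourier_coe_ee, Int.cast_one, one_mul]

theorem p_INX (hCI : S_CI) :
    S_INX := by
  intro A a ha hAa hA
  have ha' : (a : ℂ) ≠ 0 := by exact_mod_cast ha.ne'
  have hne : ∀ t, A + a * ee t ≠ 0 := by
    intro t h
    apply hAa
    rw [eq_neg_of_add_eq_zero_left h, norm_neg, norm_mul, norm_ee, mul_one, norm_real,
      Real.norm_of_nonneg ha.le]
  have hc : Continuous fun t => A + a * ee t := continuous_const.add (continuous_ee.const_mul _)
  have hc1 : Continuous fun t => ee t / (A + a * ee t) ^ 2 :=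
    continuous_ee.div (hc.pow 2) fun t => pow_ne_zero 2 (hne t)
  have h1 : ∫ t in (0 : ℝ)..1, ee t / (A + a * ee t) ^ 2 = 0 := by
    have hπ : (2 * π * I * a : ℂ) ≠ 0 := by simp [ha', Real.pi_ne_zero]
    have hd : ∀ t : ℝ, HasDerivAt (fun s => -(2 * π * I * a : ℂ)⁻¹ * (A + a * ee s)⁻¹)
        (ee t / (A + a * ee t) ^ 2) t := by
      intro t
      have h := hasDerivAt_ee 1 t
      simp only [one_mul] at h
      refine ((((h.const_mul (a : ℂ)).const_add A).inv (hne t)).const_mul _).congr_deriv ?_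
      have := hne t
      have h2 : (π : ℂ) ≠ 0 := by exact_mod_cast Real.pi_ne_zero
      push_cast
      field_simp
    rw [intervalIntegral.integral_eq_sub_of_hasDerivAt (fun t _ => hd t)
      (hc1.intervalIntegrable _ _), ee_one, ee_zero, sub_self]
  refine ⟨(inx_int fun z => z / (A + a * z) ^ 2).trans h1,
    (inx_int fun z => 1 / (A + a * z) ^ 2).trans ?_⟩
  have hr : ‖-A / a‖ = ‖A‖ / a := by
    rw [norm_div, norm_neg, norm_real, Real.norm_of_nonneg ha.le]
  have hne' : ∀ t, ee t - -A / a ≠ 0 := by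
    intro t h
    apply hne t
    rw [sub_eq_zero.1 h]
    field_simp
    ring
  have hc2 : Continuous fun t => ee t / (ee t - -A / a) :=
    continuous_ee.div (continuous_ee.sub continuous_const) hne'
  have h2 := hCI (-A / a) (by rw [hr, Ne, div_eq_one_iff_eq ha.ne']; exact hAa)
  have e : ∀ t, 1 / (A + a * ee t) ^ 2 = 1 / A ^ 2 - 1 / A ^ 2 * (ee t / (ee t - -A / a)) -
      a / A * (ee t / (A + a * ee t) ^ 2) := by
    intro t
    have h3 := hne t
    have h4 : ee t - -A / a = (A + a * ee t) / a := by field_simp; ring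
    rw [h4]
    field_simp
    ring
  simp only [e]
  have hc3 : Continuous fun t => 1 / A ^ 2 - 1 / A ^ 2 * (ee t / (ee t - -A / a)) :=
    continuous_const.sub (hc2.const_mul _)
  rw [intervalIntegral.integral_sub (hc3.intervalIntegrable _ _)
      ((hc1.const_mul _).intervalIntegrable _ _),
    intervalIntegral.integral_sub (continuous_const.intervalIntegrable _ _)
      ((hc2.const_mul _).intervalIntegrable _ _),
    intervalIntegral.integral_const_mul, intervalIntegral.integral_const_mul, h1, h2, hr]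
  simp only [div_lt_one ha]
  rcases lt_or_gt_of_ne hAa with h | h
  · simp [h, h.not_gt]
  · simp [h, h.not_gt]

end INX

section INW

lemma inw_re (t : ℝ) : (ee t).re = Real.cos (2 * π * t) := by
  rw [← Complex.exp_ofReal_mul_I_re, ee]
  congr 2
  push_cast
  ring

lemma inw_im (t : ℝ) : (ee t).im = Real.sin (2 * π * t) := by
  rw [← Complex.exp_ofReal_mul_I_im, ee]
  congr 2
  push_cast
  ring

lemma inw_norm (b t : ℝ) : ‖1 + b * ee t‖ ^ 2 = 1 + b ^ 2 + 2 * b * Real.cos (2 * π * |t|) := by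
  have h : Real.cos (2 * π * |t|) = Real.cos (2 * π * t) := by
    rw [← Real.cos_abs (2 * π * t), abs_mul, abs_of_pos Real.two_pi_pos]
  rw [h, Complex.sq_norm, Complex.normSq_apply]
  simp only [add_re, one_re, re_ofReal_mul, add_im, one_im, im_ofReal_mul, inw_re, inw_im]
  linear_combination b ^ 2 * Real.sin_sq_add_cos_sq (2 * π * t)

lemma inw_four (t : ℝ) : fourier 1 (t : S1) = ee t := by
  rw [fourier_coe_apply]
  simp [ee]

theorem p_INW :
    S_INW := by
  intro a b ⟨ha, hb, lo, hi⟩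
  obtain ⟨c, hc⟩ : ∃ c, c = (a ^ 2 - 1 - b ^ 2) / (2 * b) := ⟨_, rfl⟩
  have hc' : 2 * b * c = a ^ 2 - 1 - b ^ 2 := by rw [hc]; field_simp
  have c1 : -1 < c := by nlinarith [sq_lt_sq' (abs_lt.1 lo).1 (abs_lt.1 lo).2]
  have c2 : c < 1 := by nlinarith
  obtain ⟨w, hw⟩ : ∃ w, 2 * π * w = Real.arccos c :=
    ⟨Real.arccos c / (2 * π), by field_simp⟩
  have hp := Real.pi_pos
  have a1 : 0 < 2 * π * w := hw ▸ Real.arccos_pos.2 c2
  have a2 : 2 * π * w < π := hw ▸ Real.arccos_lt_pi.2 c1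
  have w0 : 0 < w := by nlinarith
  have w1 : w < 1 / 2 := by nlinarith
  have hcos : Real.cos (2 * π * w) = c := by rw [hw, Real.cos_arccos c1.le c2.le]
  have mem : ∀ t : ℝ, |t| ≤ 1 / 2 → 2 * π * |t| ∈ Icc 0 π := fun t ht =>
    ⟨by positivity, by nlinarith⟩
  have key : ∀ t : ℝ, |t| ≤ 1 / 2 → (a < ‖1 + b * ee t‖ ↔ |t| < w) := fun t ht => by
    rw [← sq_lt_sq₀ ha.le (norm_nonneg _), inw_norm,
      ← mul_lt_mul_iff_right₀ Real.two_pi_pos (b := |t|),
      ← Real.strictAntiOn_cos.lt_iff_gt ⟨a1.le, a2.le⟩ (mem t ht), hcos,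
      ← mul_lt_mul_iff_right₀ (a := 2 * b) (by positivity) (b := c), hc']
    constructor <;> intro <;> linarith
  have nz : ∀ t ∈ uIcc (-w) w, 1 + b * ee t ≠ 0 := fun t ht h0 => by
    rw [uIcc_of_le (by linarith)] at ht
    have h1 := abs_le.2 ht
    have h2 := inw_norm b t
    have h3 := Real.strictAntiOn_cos.antitoneOn (mem t (by linarith)) ⟨a1.le, a2.le⟩ (by gcongr)
    rw [h0, norm_zero] at h2
    nlinarith
  have hd : ∀ t ∈ uIcc (-w) w, HasDerivAt (fun s => -(2 * π * I * b)⁻¹ * (1 + b * ee s)⁻¹)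
      (ee t / (1 + b * ee t) ^ 2) t := fun t ht => by
    have h1 := hasDerivAt_ee 1 t
    simp only [one_mul, ofReal_one, mul_one] at h1
    refine ((((h1.const_mul (b : ℂ)).const_add 1).fun_inv (nz t ht)).const_mul
      (-(2 * π * I * b)⁻¹ : ℂ)).congr_deriv ?_
    have := nz t ht
    have : (b : ℂ) ≠ 0 := by exact_mod_cast hb.ne'
    have : (π : ℂ) ≠ 0 := by exact_mod_cast hp.ne'
    field_simp
  have hi := intervalIntegral.integral_eq_sub_of_hasDerivAt hd (ContinuousOn.intervalIntegrable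
    (continuous_ee.continuousOn.div (by have := continuous_ee; fun_prop)
      fun t ht => pow_ne_zero _ (nz t ht)))
  rw [← UnitAddCircle.integral_preimage (-1 / 2), setIntegral_congr_fun measurableSet_Ioc
    (g := (Ioo (-w) w).indicator fun t => ee t / (1 + b * ee t) ^ 2) fun t ht => by
      simp only [inw_four, indicator, mem_Ioo, ← abs_lt,
        key t (abs_le.2 ⟨by linarith [ht.1], by linarith [ht.2]⟩)],
    setIntegral_indicator measurableSet_Ioo, inter_eq_right.2 fun t ht =>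
      mem_Ioc.2 ⟨by linarith [ht.1], by linarith [ht.2]⟩, ← integral_Ioc_eq_integral_Ioo,
    ← intervalIntegral.integral_of_le (by linarith), hi, ← mul_sub]
  refine mul_ne_zero (by simp [hb.ne', hp.ne']) (sub_ne_zero.2 fun h => ?_)
  have h1 := congrArg Complex.im (inv_injective h)
  simp only [add_im, one_im, im_ofReal_mul, inw_im, mul_neg, Real.sin_neg] at h1
  nlinarith [Real.sin_pos_of_pos_of_lt_pi a1 a2]

end INW

end Pool.Agent.P.MP_2a8753_an.H
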