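import Pool.Agent.P.MP_2a8753_an.H.Iface

/-! The second order invariant and the rotation of the circle. -/

set_option autoImplicit false
set_option linter.unusedSectionVars false

namespace Pool.Agent.P.MP_2a8753_an.H

open MeasureTheory Filter Set Topology AddCircle Complex Polynomial
open scoped Real ComplexConjugate ENNReal

section INT

lemma int_conj (x : S1) : fourier 1 x * conj (fourier 1 x) = 1 := by
  rw [← fourier_neg, ← fourier_add]
  simp

lemma int_norm (x : S1) : ‖fourier 1 x‖ = 1 := by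
  rw [fourier_apply, Circle.norm_coe]

lemma int_alg {a b z w z' w' : ℂ} (ha : a ≠ 0) (hz : z * z' = 1) (hw : w * w' = 1) (k : ℂ) :
    k * (b / a) * (z * w) * (1 + a * z' + b * w') / (1 + a * z + b * w) ^ 2 =
      k * (b / a) * (w + b) * (z / (1 + b * w + a * z) ^ 2) +
        k * b * w * (1 / (1 + b * w + a * z) ^ 2) := by
  have e : z * w * (1 + a * z' + b * w') = z * (w + b) + a * w := by
    linear_combination a * w * hz + b * z * hw
  rw [mul_assoc (k * (b / a)), e, add_right_comm 1 (a * z)]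
  field_simp

lemma int_inner (hINX : S_INX) {a b : ℝ} (ha : 0 < a) (w : S1)
    (h0 : 1 + b * fourier 1 w ≠ 0) (h1 : ‖1 + b * fourier 1 w‖ ≠ a) :
    ∫ x : S1, Psi a b (x, w) = -(4 * π ^ 2) * b *
      (if a < ‖1 + b * fourier 1 w‖ then fourier 1 w / (1 + b * fourier 1 w) ^ 2 else 0) := by
  obtain ⟨e1, e2⟩ := hINX _ a ha h1 h0
  have hne : ∀ x : S1, (1 + b * fourier 1 w + a * fourier 1 x) ^ 2 ≠ 0 := fun x =>
    pow_ne_zero _ fun e => h1 (by
      rw [eq_neg_of_add_eq_zero_left e, norm_neg, norm_mul, int_norm, mul_one, norm_real,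
        Real.norm_of_nonneg ha.le])
  have i1 : Integrable fun x : S1 => fourier 1 x / (1 + b * fourier 1 w + a * fourier 1 x) ^ 2 :=
    (Continuous.div (by fun_prop) (by fun_prop) hne).integrable_of_hasCompactSupport
      (HasCompactSupport.of_compactSpace _)
  have i2 : Integrable fun x : S1 => 1 / (1 + b * fourier 1 w + a * fourier 1 x) ^ 2 :=
    (Continuous.div (by fun_prop) (by fun_prop) hne).integrable_of_hasCompactSupport
      (HasCompactSupport.of_compactSpace _)
  have e : ∀ x : S1, Psi a b (x, w) = -(4 * π ^ 2) * (b / a) * (fourier 1 w + b) *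
      (fourier 1 x / (1 + b * fourier 1 w + a * fourier 1 x) ^ 2) +
        -(4 * π ^ 2) * b * fourier 1 w * (1 / (1 + b * fourier 1 w + a * fourier 1 x) ^ 2) := by
    intro x
    rw [← int_alg (ofReal_ne_zero.2 ha.ne') (int_conj x) (int_conj w), Psi, P3, map_add, map_add,
      map_mul, map_mul, map_one, conj_ofReal, conj_ofReal]
  simp only [e]
  rw [integral_add (i1.const_mul _) (i2.const_mul _), integral_const_mul, integral_const_mul, e1,
    e2]
  split_ifs <;> ring

theorem p_INT (hINX : S_INX) (hINW : S_INW) (hEXP : S_EXP) :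
    S_INT := by
  intro a b h hi
  have hb : (b : ℂ) ≠ 0 := ofReal_ne_zero.2 h.b0.ne'
  have h1 := (hEXP.2.2.1 (1 + C (b : ℂ) * X) fun e => by simpa using congrArg (eval 0) e).2
  have h2 := (hEXP.2.2.1 (C (b : ℂ) * X ^ 2 + C (1 + b ^ 2 - a ^ 2 : ℂ) * X + C (b : ℂ))
    fun e => hb (by simpa using congrArg (eval 0) e)).2
  have key : ∫ y, Psi a b y = ∫ w : S1, -(4 * π ^ 2 : ℂ) * b *
      (if a < ‖1 + b * fourier 1 w‖ then fourier 1 w / (1 + b * fourier 1 w) ^ 2 else 0) := by
    refine (integral_prod_symm (Psi a b) hi).trans (integral_congr_ae ?_)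
    filter_upwards [h1, h2] with w k1 k2
    simp only [eval_add, eval_mul, eval_C, eval_X, eval_pow, eval_one] at k1 k2
    refine int_inner hINX h.a0 w k1 fun e => k2 ?_
    have e1 := Complex.mul_conj' (1 + b * fourier 1 w)
    rw [e, map_add, map_mul, map_one, conj_ofReal] at e1
    linear_combination fourier 1 w * e1 - b * (1 + b * fourier 1 w) * int_conj w
  rw [key, integral_const_mul]
  refine mul_ne_zero (mul_ne_zero ?_ hb) (hINW a b h)
  simp

end INT

section F2

lemma f2_q {a b : ℝ} {θ ν : ℝ × ℝ} (hE : EQ (P3 1 a b) θ ν) (t : ℝ) (e : ℝ × ℝ) :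
    IM fun n y => ∏ k ∈ Finset.range n, Q2 a b (√(t / n) • e) (y + k • cT θ) := by
  have h : Tendsto (fun n : ℕ => √(t / n) • e) atTop (𝓝 0) := by
    simpa using (tendsto_const_div_atTop_nhds_zero_nat t).sqrt.smul_const e
  refine ((hE _ id h).mul (hE (fun n => -(√(t / n) • e)) id (by simpa only [neg_zero] using h.neg))).congr fun n =>
    Eventually.of_forall fun y => ?_
  simp only [id, ← Finset.prod_mul_distrib]
  refine Finset.prod_congr rfl fun k _ => ?_
  rw [mul_mul_mul_comm, ← ee_add, Q2, Prod.fst_neg, Prod.snd_neg, mul_neg, mul_neg,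
    ← neg_add (ν.1 * _), neg_neg, neg_add_cancel, ee_zero, mul_one]

lemma f2_norm {a b : ℝ} (ha : 0 < a) (hb : 0 < b) (y : T2) :
    ‖Psi a b y‖ = 4 * π ^ 2 * (b / a) * ‖P3 1 a b y‖⁻¹ := by
  simp only [Psi, norm_div, norm_mul, norm_neg, norm_pow, Complex.norm_real, Real.norm_eq_abs,
    RCLike.norm_conj, fourier_apply, Circle.norm_coe, abs_of_pos ha, abs_of_pos hb,
    abs_of_pos Real.pi_pos, Complex.norm_ofNat]
  rcases eq_or_ne ‖P3 1 a b y‖ 0 with h | h
  · simp [h]
  · field_simp

theorem p_F2 (hCORE : S_CORE) (hD2 : S_D2) (hLC : S_LC) (hTAY : S_TAY) (hINT : S_INT) :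
    S_F2 := by
  intro a b θ ν hT hθ hE
  have ha := hT.a0
  obtain ⟨C₂, hC₂, h2⟩ := hD2 a b hT
  have hm : Measurable fun y => ‖P3 1 a b y‖ := by fun_prop
  obtain ⟨h3, h4⟩ := hLC _ C₂ hC₂ hm (fun _ => norm_nonneg _) h2
  have hI : Integrable (Psi a b) := (h3.const_mul (4 * π ^ 2 * (b / a))).mono' (by
    have := (continuous_P3 1 a b).measurable
    have := (continuous_conj.comp (continuous_P3 1 a b)).measurable
    refine Measurable.aestronglyMeasurable ?_
    unfold Psi
    exact (Measurable.mul (by fun_prop) this).div (by fun_prop))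
    (Eventually.of_forall fun y => (f2_norm ha hT.b0 y).le)
  set ρ := (a ^ 2 + b ^ 2 - 1) / (2 * a ^ 2) with hρ
  have h5 : 0 ≤ b ^ 2 / a ^ 2 - ρ ^ 2 := by
    have h6 := abs_lt.1 hT.lo
    have h7 : 0 < (1 - (a - b)) * (1 + (a - b)) * ((a + b - 1) * (a + b + 1)) :=
      mul_pos (mul_pos (by linarith [hT.hi]) (by linarith)) (mul_pos (by linarith)
        (by linarith [hT.b0]))
    rw [show b ^ 2 / a ^ 2 - ρ ^ 2 = (1 - (a - b)) * (1 + (a - b)) * ((a + b - 1) * (a + b + 1)) /
      (4 * a ^ 4) by rw [hρ]; field_simp; ring]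
    positivity
  obtain ⟨C, hC, h6⟩ := hTAY a b ρ √(b ^ 2 / a ^ 2 - ρ ^ 2) ha hT.b0 (by rw [hρ]; field_simp)
    (by rw [Real.sq_sqrt h5]; field_simp; ring)
  refine hINT a b hT hI (hCORE θ hθ _ (fun s y => Q2 a b (√s • (ρ, 1)) y *
    Q2 a b (√s • (√(b ^ 2 / a ^ 2 - ρ ^ 2), 0)) y) hI (fun η hη => ?_) fun t _ => ?_)
  · set R := C + 8 * C * C₂ / η + 1 with hR
    have h7 : 0 ≤ 8 * C * C₂ / η := by positivity
    have h8 : 1 ≤ R := by linarith
    refine ⟨C₂ * R ^ 2, 1, one_pos, fun s hs _ => ?_⟩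
    have hr := Real.sqrt_pos.2 hs
    have hs' := Real.sq_sqrt hs.le
    have hG : MeasurableSet {y | R * √s ≤ ‖P3 1 a b y‖} := measurableSet_le measurable_const hm
    refine ⟨{y | R * √s ≤ ‖P3 1 a b y‖}, indicator {y | R * √s ≤ ‖P3 1 a b y‖} fun y =>
      ENNReal.ofReal (C * √s ^ 4) * ENNReal.ofReal ((‖P3 1 a b y‖ ^ 4)⁻¹), ?_,
      (Measurable.indicator (by fun_prop) hG).aemeasurable, ?_, fun y hy => ?_⟩
    · refine (measure_mono fun y hy => ?_).trans ((h2 (R * √s) (by positivity)).trans_eq ?_)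
      · exact (not_le.1 (show ¬ R * √s ≤ ‖P3 1 a b y‖ from hy)).le
      · rw [mul_pow, hs', mul_assoc]
    · rw [lintegral_indicator hG, lintegral_const_mul' _ _ ENNReal.ofReal_ne_top]
      refine (mul_le_mul_right (h4 (R * √s) (by positivity)) _).trans ?_
      rw [← ENNReal.ofReal_mul (by positivity)]
      refine ENNReal.ofReal_le_ofReal ?_
      rw [show √s ^ 4 = s * s by rw [← hs']; simp; ring, mul_pow, hs',
        show C * (s * s) * (8 * C₂ / (R ^ 2 * s)) = η * s * (8 * C * C₂ / η / R ^ 2) by field_simp]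
      exact mul_le_of_le_one_right (by positivity) ((div_le_one (by positivity)).2 (by nlinarith))
    · obtain ⟨ε, h9, h10⟩ := h6 _ hr y (le_trans (by gcongr; linarith) hy)
      refine ⟨ε, ?_, by rw [h10, hs']⟩
      rw [indicator_of_mem hy, ← ENNReal.ofReal_mul (by positivity), ← ofReal_norm]
      exact ENNReal.ofReal_le_ofReal h9
  · simpa only [Finset.prod_mul_distrib] using (f2_q hE t _).mul (f2_q hE t _)

end F2

section TRI

lemma tri_unit {a z : ℂ} (ha : a ≠ 0) (hz : z ≠ 0) :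
    ∃ x : S1, ∀ y : S1, z * fourier 1 (y + x) = a * ((‖z‖ / ‖a‖ : ℝ) * fourier 1 y) := by
  obtain ⟨x, hx⟩ := (homeomorphCircle (T := 1) one_ne_zero).surjective
    ⟨a * (‖z‖ / ‖a‖ : ℝ) / z, mem_sphere_zero_iff_norm.2 (by simp [ha, hz, mul_div_cancel₀])⟩
  have h : (toCircle x : ℂ) = a * (‖z‖ / ‖a‖ : ℝ) / z := by
    rw [← homeomorphCircle_apply one_ne_zero, hx]
  refine ⟨x, fun y => ?_⟩
  rw [fourier_one, fourier_one, toCircle_add, Circle.coe_mul, h]
  field_simp

theorem p_TRI (hNT : S_NT) (hF2 : S_F2) :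
    S_TRI := by
  intro a b c θ ν h0 hθ hν hE
  refine hNT a b c θ ν h0 (fun ⟨h1, h2⟩ => ?_) hθ hν hE
  have h3 := abs_lt.1 h1
  have a0 : 0 < ‖a‖ := by linarith
  have b0 : 0 < ‖b‖ := by linarith
  have c0 : 0 < ‖c‖ := by linarith
  have ha := norm_pos_iff.1 a0
  obtain ⟨x, hx⟩ := tri_unit ha (norm_pos_iff.1 b0)
  obtain ⟨x', hx'⟩ := tri_unit ha (norm_pos_iff.1 c0)
  have e : ∀ y u : T2,
      P3 a b c (y + (x, x') + u) = a * P3 1 (‖b‖ / ‖a‖ : ℝ) (‖c‖ / ‖a‖ : ℝ) (y + u) := fun y u => by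
    rw [add_right_comm, P3, P3, Prod.fst_add, Prod.snd_add, hx, hx']
    ring
  refine hF2 (‖b‖ / ‖a‖) (‖c‖ / ‖a‖) θ ν ⟨by positivity, by positivity, ?_, ?_⟩ hθ fun h q hh => ?_
  · rwa [one_sub_div a0.ne', abs_div, abs_of_pos a0, div_lt_div_iff_of_pos_right a0]
  · rwa [one_add_div a0.ne', div_lt_div_iff_of_pos_right a0]
  · simpa only [add_assoc (_ + (x, x')), e, mul_div_mul_left _ _ ha, add_assoc _ (_ • cT θ)] using
      (hE h q hh).shift fun _ => (x, x')

end TRI

section END

/-- The endomorphism of the torus which carries the three-term polynomial. -/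
def end_M (n : ℤ) : T2 →+ T2 where
  toFun y := (-y.2, n • y.1)
  map_zero' := by simp
  map_add' x y := by simp [add_comm]

lemma end_mp {n : ℤ} (hn : n ≠ 0) : MeasurePreserving (end_M n) volume volume :=
  ((Measure.measurePreserving_neg (volume : Measure S1)).prod
    (Measure.measurePreserving_zsmul (volume : Measure S1) hn)).comp
      (Measure.measurePreserving_swap (μ := (volume : Measure S1)) (ν := volume))

lemma end_cT (n : ℤ) (h : ℝ × ℝ) : end_M n (cT h) = cT (-h.2, n * h.1) := by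
  rw [← zsmul_eq_mul]
  rfl

lemma end_PP {n : ℤ} (hn : n ≠ 0) (c : ℤ × ℤ → ℂ) (y : T2) :
    PP (S3 n) c y = P3 (c (0, 0)) (c (1, 0)) (c (0, n)) (end_M n y) := by
  have e1 : fourier 1 (end_M n y).1 = fourier (-1) y.2 := by
    simp [end_M, fourier_apply]
  have e2 : fourier 1 (end_M n y).2 = fourier n y.1 := by
    simp [end_M, fourier_apply]
  rw [PP, S3, Finset.sum_insert (by simp [hn.symm]), Finset.sum_insert (by simp),
    Finset.sum_singleton, P3, e1, e2]
  simp only [neg_zero, fourier_zero, mul_one, one_mul, add_assoc]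

theorem p_END (hTRI : S_TRI) :
    S_END := by
  intro n c θ hn hc hθ hE
  have hn' : (n : ℝ) ≠ 0 := Int.cast_ne_zero.2 hn
  refine hTRI (c (0, 0)) (c (1, 0)) (c (0, n)) (θ.2, n * -θ.1) (θ.1, θ.2 / n) ?_ ?_ ?_ ?_
  · rintro ⟨h1, h2, h3⟩
    obtain ⟨k, hk, hk'⟩ := hc
    simp only [S3, Finset.mem_insert, Finset.mem_singleton] at hk
    rcases hk with rfl | rfl | rfl <;> contradiction
  · intro a b m h
    obtain ⟨h1, h2⟩ := hθ (-(b * n)) a m (by push_cast; simp only at h; linarith)
    exact ⟨h2, (mul_eq_zero.1 (neg_eq_zero.1 h1)).resolve_right hn⟩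
  · rintro ⟨r, hr⟩
    refine r.den_nz (Int.natCast_eq_zero.1 (hθ r.den 0 r.num ?_).1)
    simp only at hr
    rw [← hr]
    push_cast
    rw [zero_mul, add_zero]
    exact_mod_cast r.den_mul_eq_num
  intro h q hh ε hε
  have hh' : Tendsto (fun j => ((h j).2 / n, -(h j).1)) atTop (𝓝 0) := by
    have : Continuous fun u : ℝ × ℝ => (u.2 / n, -u.1) := by fun_prop
    exact (this.tendsto' 0 0 (by simp)).comp hh
  refine (hE _ q hh' ε hε).congr fun j => ?_
  refine Eq.trans ?_ ((end_mp hn).measure_preimage (MeasurableSet.nullMeasurableSet ?_))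
  · congr 1
    ext y
    simp only [mem_preimage, mem_ofPred_eq, end_PP hn, map_add, map_nsmul, end_cT, neg_neg,
      mul_div_cancel₀ _ hn', Prod.fst_neg, Prod.snd_neg]
    rw [show θ.2 * ((h j).2 / n) + -θ.1 * -(h j).1 = θ.1 * (h j).1 + θ.2 / n * (h j).2 by ring]
  · have hm := (continuous_P3 (c (0, 0)) (c (1, 0)) (c (0, n))).measurable
    refine measurableSet_le measurable_const (Measurable.norm (Measurable.sub_const ?_ _))
    exact Finset.measurable_prod _ fun k _ => ((hm.comp ((measurable_add_const _).add_const _)).div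
      (hm.comp (measurable_add_const _))).mul_const _

end END

section DKS

lemma dks_pow {x : ℂ} (hx : ‖x‖ = 1) (m : ℕ) : ‖x ^ m - 1‖ ≤ m * ‖x - 1‖ := by
  induction m with
  | zero => simp
  | succ m ih =>
    rw [show x ^ (m + 1) - 1 = x * (x ^ m - 1) + (x - 1) by ring]
    refine (norm_add_le _ _).trans ?_
    rw [norm_mul, hx]
    push_cast
    linarith

lemma dks_f (w t : S1) (k : ℕ) : fourier 1 (w + k • t) = fourier 1 w * fourier 1 t ^ k := by
  simp only [fourier_one, toCircle_add, toCircle_nsmul, Circle.coe_mul, Circle.coe_pow]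

lemma dks_inj : Function.Injective fun w : S1 => fourier 1 w := fun a b e =>
  injective_toCircle one_ne_zero (Circle.coe_injective (by simpa only [fourier_one] using e))

/-- The product estimate from the estimate of the geometric sums. -/
lemma dks_prod {l a : ℂ} (hl : ‖l‖ = 1) {q : ℕ → ℕ} (ha : ‖a‖ < 1)
    (h1 : ∀ n m : ℕ, m ≠ 0 → ‖∑ k ∈ Finset.range (q n), (l ^ m) ^ k‖ ≤ m)
    (h2 : ∀ m : ℕ, m ≠ 0 → Tendsto (fun n => ‖∑ k ∈ Finset.range (q n), (l ^ m) ^ k‖) atTop (𝓝 0))
    {ε : ℝ} (hε : 0 < ε) : ∀ᶠ n in atTop, ∀ z : ℂ, ‖z‖ = 1 →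
      ‖∏ k ∈ Finset.range (q n), (1 - a * (z * l ^ k)) - 1‖ ≤ ε := by
  set b : ℕ → ℕ → ℝ := fun n m => ‖a‖ ^ m / m * ‖∑ k ∈ Finset.range (q n), (l ^ m) ^ k‖
  have hs := summable_geometric_of_lt_one (norm_nonneg a) ha
  have b1 : ∀ n m, ‖b n m‖ ≤ ‖a‖ ^ m := fun n m => by
    rw [Real.norm_of_nonneg (by positivity)]
    rcases eq_or_ne m 0 with rfl | e
    · simp [b]
    · exact (mul_le_mul_of_nonneg_left (h1 n m e) (by positivity)).trans_eq
        (div_mul_cancel₀ _ (Nat.cast_ne_zero.2 e))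
  have b2 := tendsto_tsum_of_dominated_convergence (𝓕 := atTop) (f := b) (g := fun _ => 0) hs
    (fun m => by
      rcases eq_or_ne m 0 with rfl | e
      · simp [b]
      · simpa using (h2 m e).const_mul (‖a‖ ^ m / m)) (.of_forall b1)
  rw [tsum_zero] at b2
  filter_upwards [b2.eventually (ge_mem_nhds (lt_min one_pos (half_pos hε)))] with n hn z hz
  have c1 : ∀ k, ‖a * (z * l ^ k)‖ < 1 := fun k => by simpa [hz, hl] using ha
  have c2 := (hasSum_sum fun k (_ : k ∈ Finset.range (q n)) =>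
    hasSum_taylorSeries_neg_log (c1 k)).norm_le_of_bounded
      (Summable.of_norm_bounded hs (b1 n)).hasSum fun m => by
        simp only [b, mul_pow, ← pow_mul, mul_comm _ m, ← Finset.sum_div, ← Finset.mul_sum]
        simp [hz, mul_div_right_comm]
  rw [Finset.sum_neg_distrib, norm_neg] at c2
  rw [← Finset.prod_congr rfl fun k _ => exp_log (x := 1 - a * (z * l ^ k))
    (sub_ne_zero.2 fun e => by simpa [← e] using c1 k), ← Complex.exp_sum]
  refine (norm_exp_sub_one_le (c2.trans (hn.trans (min_le_left _ _)))).trans ?_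
  linarith [c2.trans (hn.trans (min_le_right _ _))]

theorem p_DKS :
    S_DKS := by
  intro τ hτ
  set l : ℂ := fourier 1 (τ : S1) with hl
  have f1 : ∀ k : ℕ, fourier 1 (k • (τ : S1)) = l ^ k := fun k => by
    rw [← zero_add (k • _), dks_f, fourier_eval_zero, one_mul]
  have n1 : ∀ w : S1, ‖fourier 1 w‖ = 1 := fun w => by rw [fourier_one, Circle.norm_coe]
  have l1 : ∀ m, ‖l ^ m‖ = 1 := fun m => by rw [← f1, n1]
  have l2 : ∀ m, m ≠ 0 → l ^ m ≠ 1 := fun m h e => by
    have := dks_inj (a₁ := m • (τ : S1)) (a₂ := 0) (by simpa only [f1, fourier_eval_zero] using e)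
    rw [← coe_nsmul, AddCircle.coe_eq_zero_iff] at this
    obtain ⟨k, hk⟩ := this
    exact (hτ.natCast_mul h).ne_int k (by simpa using hk.symm)
  have ex : ∀ n : ℕ, ∃ q, q ≠ 0 ∧ ‖l ^ q - 1‖ < 1 / (n + 1 : ℝ) := fun n => by
    have h0 : ∀ᶠ w in 𝓝 (0 : S1), ‖fourier 1 w - 1‖ < 1 / (n + 1 : ℝ) :=
      ContinuousAt.eventually_lt (by fun_prop) continuousAt_const (by simp; positivity)
    obtain ⟨q, a, b⟩ := (((mapClusterPt_zero_atTop_nsmul (τ : S1)).frequently h0).and_eventually
      (eventually_ne_atTop 0)).exists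
    exact ⟨q, b, by rw [← f1]; exact a⟩
  have t0 : Tendsto (fun n : ℕ => 1 / (n + 1 : ℝ)) atTop (𝓝 0) :=
    tendsto_one_div_add_atTop_nhds_zero_nat
  have t1 : Tendsto (fun n => ‖l ^ Nat.find (ex n) - 1‖) atTop (𝓝 0) :=
    squeeze_zero (fun _ => norm_nonneg _) (fun n => (Nat.find_spec (ex n)).2.le) t0
  have g : ∀ q m, m ≠ 0 → ‖∑ k ∈ Finset.range q, (l ^ m) ^ k‖ = ‖(l ^ m) ^ q - 1‖ / ‖l ^ m - 1‖ :=
    fun q m h => by rw [geom_sum_eq (l2 m h), norm_div]
  refine ⟨fun n => Nat.find (ex n), tendsto_atTop.2 fun N => ?_, ?_, fun a ha ε hε => ?_⟩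
  · filter_upwards [(Finset.range N).eventually_all.2 fun m _ =>
      show ∀ᶠ n : ℕ in atTop, m ≠ 0 → 1 / (n + 1 : ℝ) ≤ ‖l ^ m - 1‖ from by
        rcases eq_or_ne m 0 with rfl | e
        · simp
        · exact (t0.eventually (ge_mem_nhds (norm_pos_iff.2 (sub_ne_zero.2 (l2 m e))))).mono
            fun _ h _ => h] with n hn
    exact (Nat.le_find_iff _ _).2 fun m hm h => (hn m (Finset.mem_range.2 hm) h.1).not_gt h.2
  · rw [((fourier 1).continuous.isClosedEmbedding dks_inj).isInducing.tendsto_nhds_iff,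
      fourier_eval_zero, tendsto_iff_norm_sub_tendsto_zero]
    simpa only [Function.comp_apply, f1] using t1
  · refine (dks_prod (l := l) (n1 τ) (q := fun n => Nat.find (ex n)) ha (fun n m h => ?_)
      (fun m h => ?_) hε).mono fun n hn w => by simpa only [dks_f] using hn _ (n1 w)
    · rw [g _ m h, div_le_iff₀ (norm_pos_iff.2 (sub_ne_zero.2 (l2 m h)))]
      rcases lt_or_ge m (Nat.find (ex n)) with e | e
      · rw [← pow_mul, mul_comm m, pow_mul]
        refine (dks_pow (l1 _) m).trans (mul_le_mul_of_nonneg_left ?_ m.cast_nonneg)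
        exact (Nat.find_spec (ex n)).2.le.trans (not_lt.1 fun e' => Nat.find_min (ex n) e ⟨h, e'⟩)
      · exact (dks_pow (l1 _) _).trans (mul_le_mul_of_nonneg_right (Nat.cast_le.2 e) (norm_nonneg _))
    · have t2 := (t1.const_mul (m : ℝ)).div_const ‖l ^ m - 1‖
      rw [mul_zero, zero_div] at t2
      refine squeeze_zero (fun _ => norm_nonneg _) (fun n => ?_) t2
      rw [g _ m h, ← pow_mul, mul_comm m, pow_mul]
      exact div_le_div_of_nonneg_right (dks_pow (l1 _) m) (norm_nonneg _)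

end DKS

section FAC

/-- The products of `N` along the Denjoy-Koksma times tend to `1` uniformly. -/
def fac_U (N : S1 → ℂ) : Prop :=
  ∀ τ q, DKq τ q → ∀ ε : ℝ, 0 < ε → ∀ᶠ n in atTop, ∀ w : S1,
    ‖∏ k ∈ Finset.range (q n), N (w + k • (τ : S1)) - 1‖ ≤ ε

theorem fac_map2 (f : ℂ → ℂ → ℂ) (hf : ContinuousAt (fun x : ℂ × ℂ => f x.1 x.2) (1, 1))
    (f11 : f 1 1 = 1)
    (hmul : ∀ (s : Finset ℕ) (a b : ℕ → ℂ),
      ∏ k ∈ s, f (a k) (b k) = f (∏ k ∈ s, a k) (∏ k ∈ s, b k))
    {A B : S1 → ℂ} (hA : fac_U A) (hB : fac_U B) : fac_U (fun w => f (A w) (B w)) := by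
  intro τ q h ε hε
  obtain ⟨δ, hδ, hd⟩ := Metric.continuousAt_iff.1 hf ε hε
  filter_upwards [hA τ q h (δ / 2) (by positivity), hB τ q h (δ / 2) (by positivity)]
    with n h1 h2 w
  have e := hmul (Finset.range (q n)) (fun k => A (w + k • (τ : S1)))
    (fun k => B (w + k • (τ : S1)))
  rw [e]
  have := @hd (∏ k ∈ Finset.range (q n), A (w + k • (τ : S1)),
    ∏ k ∈ Finset.range (q n), B (w + k • (τ : S1))) (by
      rw [Prod.dist_eq, max_lt_iff, dist_eq_norm, dist_eq_norm]
      exact ⟨(h1 w).trans_lt (by linarith), (h2 w).trans_lt (by linarith)⟩)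
  simp only [f11, dist_eq_norm] at this
  exact this.le

theorem fac_one : fac_U (fun _ => 1) := by
  intro τ q _ ε hε
  exact Eventually.of_forall fun n w => by simpa using hε.le

theorem fac_lin (a : ℂ) (ha : ‖a‖ < 1) : fac_U (fun w => 1 - a * fourier 1 w) :=
  fun _ _ h ε hε => h.dk a ha ε hε

theorem fac_mul {A B : S1 → ℂ} (hA : fac_U A) (hB : fac_U B) : fac_U (fun w => A w * B w) :=
  fac_map2 (fun x y => x * y) (by fun_prop) (by simp)
    (fun s a b => Finset.prod_mul_distrib) hA hB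

theorem fac_cdiv {A : S1 → ℂ} (hA : fac_U A) : fac_U (fun w => conj (A w) / A w) :=
  fac_map2 (fun x y => conj x / y)
    (ContinuousAt.div (Complex.continuous_conj.comp continuous_fst).continuousAt
      continuous_snd.continuousAt (by simp)) (by simp)
    (fun s a b => by rw [Finset.prod_div_distrib, map_prod]) hA hA

theorem fac_divc {A : S1 → ℂ} (hA : fac_U A) : fac_U (fun w => A w / conj (A w)) :=
  fac_map2 (fun x y => x / conj y)
    (ContinuousAt.div continuous_fst.continuousAt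
      (Complex.continuous_conj.comp continuous_snd).continuousAt (by simp)) (by simp)
    (fun s a b => by rw [Finset.prod_div_distrib, map_prod]) hA hA

theorem fac_unit (w : S1) : (fourier 1 w : ℂ) * conj (fourier 1 w : ℂ) = 1 := by
  rw [← fourier_neg, ← fourier_add]; simp

theorem fac_root (r : ℂ) : ∃ (D : ℤ) (N : S1 → ℂ),
    (∀ w : S1, (fourier 1 w : ℂ) - r ≠ 0 →
      ((fourier 1 w : ℂ) - r) / conj ((fourier 1 w : ℂ) - r) = fr r * fourier D w * N w) ∧
    fac_U N := by
  rcases lt_trichotomy ‖r‖ 1 with h | h | h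
  · refine ⟨1 + 1, fun w => conj (1 - conj r * fourier 1 w) / (1 - conj r * fourier 1 w), ?_,
      fac_cdiv (fac_lin _ (by simpa using h))⟩
    intro w hw
    have hu := fac_unit w
    rw [fr, if_pos h, fourier_add]
    beta_reduce
    generalize (fourier 1 w : ℂ) = z at hu hw ⊢
    have hz : z ≠ 0 := fun h0 => by simp [h0] at hu
    have hc : conj (z - r) ≠ 0 := by rwa [_root_.map_ne_zero]
    have e1 : 1 - conj r * z = z * conj (z - r) := by
      rw [map_sub]; linear_combination -hu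
    have e2 : z * conj (1 - conj r * z) = z - r := by
      simp only [map_sub, map_mul, map_one, Complex.conj_conj]; linear_combination (-r) * hu
    rw [e1] at e2 ⊢
    rw [div_eq_iff hc]
    have : z * z * ((starRingEnd ℂ) (z * (starRingEnd ℂ) (z - r)) / (z * (starRingEnd ℂ) (z - r)))
        * (starRingEnd ℂ) (z - r) = z * (starRingEnd ℂ) (z * (starRingEnd ℂ) (z - r)) := by
      field_simp
    rw [one_mul, this, e2]
  · refine ⟨1, fun _ => 1, ?_, fac_one⟩
    intro w hw
    have hu := fac_unit w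
    have hr : r * conj r = 1 := by
      rw [Complex.mul_conj, Complex.normSq_eq_norm_sq, h]; simp
    rw [fr, if_neg (by rw [h]; exact lt_irrefl _), if_pos h]
    generalize (fourier 1 w : ℂ) = z at hu hw ⊢
    have hc : conj (z - r) ≠ 0 := by rwa [_root_.map_ne_zero]
    rw [div_eq_iff hc, map_sub]
    linear_combination r * hu - z * hr
  · have hr0 : r ≠ 0 := fun h0 => by
      rw [h0, norm_zero] at h; exact absurd h (by norm_num)
    refine ⟨0, fun w => (1 - r⁻¹ * fourier 1 w) / conj (1 - r⁻¹ * fourier 1 w), ?_,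
      fac_divc (fac_lin _ (by rw [norm_inv]; exact inv_lt_one_of_one_lt₀ h))⟩
    intro w hw
    rw [fr, if_neg (not_lt.2 h.le), if_neg h.ne', fourier_zero]
    beta_reduce
    generalize (fourier 1 w : ℂ) = z at hw ⊢
    have e : z - r = -r * (1 - r⁻¹ * z) := by field_simp; ring
    rw [e, map_mul, map_neg, mul_one, div_mul_div_comm, neg_mul, neg_mul, neg_div_neg_eq]

theorem fac_ms (s : Multiset ℂ) : ∃ (D : ℤ) (N : S1 → ℂ),
    (∀ w : S1, (s.map ((fourier 1 w : ℂ) - ·)).prod ≠ 0 →
      (s.map ((fourier 1 w : ℂ) - ·)).prod / conj (s.map ((fourier 1 w : ℂ) - ·)).prod =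
        (s.map fr).prod * fourier D w * N w) ∧ fac_U N := by
  induction s using Multiset.induction_on with
  | empty => exact ⟨0, fun _ => 1, fun w _ => by simp, fac_one⟩
  | cons r s ih =>
    obtain ⟨D, N, h1, h2⟩ := ih
    obtain ⟨D', N', h1', h2'⟩ := fac_root r
    refine ⟨D' + D, fun w => N' w * N w, fun w hw => ?_, fac_mul h2' h2⟩
    rw [Multiset.map_cons, Multiset.prod_cons] at hw ⊢
    rw [Multiset.map_cons, Multiset.prod_cons, map_mul, ← div_mul_div_comm,
      h1 w (right_ne_zero_of_mul hw), h1' w (left_ne_zero_of_mul hw), fourier_add]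
    ring

theorem p_FAC :
    S_FAC := by
  intro p _
  obtain ⟨D, N, h1, h2⟩ := fac_ms p.roots
  refine ⟨D, N, fun w hw => ?_, h2⟩
  rw [(IsAlgClosed.splits p).eval_eq_prod_roots] at hw ⊢
  rw [map_mul, ← div_mul_div_comm, h1 w (right_ne_zero_of_mul hw), kap]
  ring

end FAC

section DK0

lemma dk0_pow (D : ℤ) (w : S1) (n : ℕ) : fourier D w ^ n = fourier (n * D) w := by
  induction n with
  | zero => simp
  | succ n ih => rw [pow_succ, ih, ← fourier_add]; congr 2; push_cast; ring

lemma dk0_int {j : ℤ} (h : j ≠ 0) : ∫ w : S1, fourier j w = 0 :=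
  integral_eq_zero_of_add_right_eq_neg (fourier_add_half_inv_index h one_pos)

theorem p_DK0 :
    S_DK0 := by
  intro τ q u N κ D hq hu h1 hκ he hN
  have h2 : ∀ n : ℕ, ∀ᵐ w, u (w + n • (τ : S1)) = κ ^ n *
      (∏ k ∈ Finset.range n, fourier D (w + k • (τ : S1))) *
      (∏ k ∈ Finset.range n, N (w + k • (τ : S1))) * u w := fun n => by
    induction n with
    | zero => simp
    | succ n ih =>
      filter_upwards [ih, (measurePreserving_add_right volume
        (n • (τ : S1))).quasiMeasurePreserving.ae he] with w a b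
      rw [succ_nsmul, ← add_assoc, b, a, Finset.prod_range_succ, Finset.prod_range_succ]
      ring
  have hi : Integrable u := Integrable.of_bound hu.aestronglyMeasurable 1 (h1.mono fun _ h => h.le)
  have hc : ∀ {f : S1 → ℂ}, Integrable f → Integrable fun w => f w * conj (u w) := fun hf =>
    hf.mul_bdd (c := 1) (continuous_conj.measurable.comp hu).aestronglyMeasurable
      (h1.mono fun _ h => by rw [norm_conj, h])
  have h3 : Tendsto (fun n => ∫ w, u (w + q n • (τ : S1)) * conj (u w)) atTop (𝓝 1) := by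
    rw [tendsto_iff_norm_sub_tendsto_zero]
    refine squeeze_zero (fun _ => norm_nonneg _) (fun n => ?_) ((tc volume hi).comp hq.rig)
    have h4 : ∫ w, u w * conj (u w) = 1 := by
      rw [integral_congr_ae (g := fun _ => 1) (h1.mono fun w h => by
        simp only [mul_conj, normSq_eq_norm_sq, h]; simp)]
      simp
    rw [← h4, ← integral_sub (hc (hi.comp_add_right _)) (hc hi)]
    refine (norm_integral_le_integral_norm _).trans (integral_congr_ae ?_).le
    filter_upwards [h1] with w h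
    rw [← sub_mul, norm_mul, norm_conj, h, mul_one]
  have h4 : Tendsto (fun n => κ ^ q n * (∏ k ∈ Finset.range (q n), fourier D (k • (τ : S1))) *
      ∫ w : S1, fourier (q n * D) w) atTop (𝓝 1) := by
    refine h3.congr_dist (tendsto_order.2 ⟨fun a ha => .of_forall fun _ =>
      ha.trans_le dist_nonneg, fun ε hε => ?_⟩)
    filter_upwards [hN (ε / 2) (half_pos hε)] with n hn
    rw [dist_eq_norm, ← integral_const_mul, ← integral_sub (hc (hi.comp_add_right _))
      (((map_continuous _).integrable_of_hasCompactSupport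
        (HasCompactSupport.of_compactSpace _)).const_mul _)]
    refine lt_of_le_of_lt ?_ (half_lt_self hε)
    refine (norm_integral_le_of_norm_le_const (C := ε / 2) ?_).trans (by simp)
    filter_upwards [h1, h2 (q n)] with w a b
    have h5 : u w * conj (u w) = 1 := by simp only [mul_conj, normSq_eq_norm_sq, a]; simp
    simp only [fourier_add_right, Finset.prod_mul_distrib, Finset.prod_const, Finset.card_range,
      dk0_pow] at b
    rw [b, mul_assoc, h5, mul_one, mul_comm (fourier _ w), ← mul_assoc, ← mul_sub_one, norm_mul,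
      norm_mul, norm_mul, norm_pow, hκ, norm_fourier, norm_prod]
    simpa [norm_fourier] using hn w
  rcases eq_or_ne D 0 with rfl | hD
  · simpa using h4
  · refine absurd (tendsto_nhds_unique h4 (tendsto_const_nhds.congr' ?_)) one_ne_zero
    filter_upwards [hq.top.eventually_gt_atTop 0] with n hn
    rw [dk0_int (mul_ne_zero (Nat.cast_ne_zero.2 hn.ne') hD), mul_zero]

end DK0

section DK

lemma dk_norm {z : ℂ} (h : z ≠ 0) : ‖z / conj z‖ = 1 := by
  rw [norm_div, RCLike.norm_conj, div_self (norm_ne_zero_iff.2 h)]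

lemma dk_fr (r : ℂ) : ‖fr r‖ = 1 := by
  unfold fr
  split_ifs with h1 h2
  · exact norm_one
  · rwa [norm_neg]
  · exact dk_norm fun e => h1 (by simp [e])

lemma dk_kap {p : ℂ[X]} (hp : p ≠ 0) : ‖kap p‖ = 1 := by
  rw [kap, norm_mul, dk_norm (leadingCoeff_ne_zero.2 hp), one_mul]
  induction p.roots using Multiset.induction_on with
  | empty => simp
  | cons a s ih => rw [Multiset.map_cons, Multiset.prod_cons, norm_mul, dk_fr, ih, one_mul]

theorem p_DK (hFAC : S_FAC) (hDK0 : S_DK0) (hEXP : S_EXP) :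
    S_DK := by
  intro τ q K p C j hτ hq hK h0 hp hC h
  have h1 := (hEXP.2.2.1 p hp).2
  have he : Ergodic (· + (τ : S1)) :=
    ergodic_add_right.2 (denseRange_zsmul_iff.1 (denseRange_zsmul_coe_iff.2 (by simpa using hτ)))
  have h2 : ∀ᵐ w, K w ≠ 0 := by
    rcases he.ae_empty_or_univ_of_preimage_ae_le (s := K ⁻¹' {0})
      (hK (measurableSet_singleton 0)).nullMeasurableSet (by
        filter_upwards [h, h1] with w e e1 e2
        rw [show K (w + (τ : S1)) = 0 from e2, mul_zero] at e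
        exact (mul_eq_zero.1 e.symm).resolve_left e1) with e | e
    · exact (eventuallyEq_empty.1 e)
    · exact (h0 (eventuallyEq_univ.1 e)).elim
  obtain ⟨D, N, f1, f2⟩ := hFAC p hp
  refine hDK0 τ q (fun w => K w / conj (K w)) N _ (D + (-j + -j)) hq
    (hK.div (continuous_conj.measurable.comp hK)) (h2.mono fun w => dk_norm) ?_ ?_ (f2 τ q hq)
  · rw [norm_mul, dk_kap hp, one_mul, ← inv_div, norm_inv, dk_norm hC, inv_one]
  · filter_upwards [h, h1, h2, he.quasiMeasurePreserving.ae h2] with w e e1 e2 e3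
    have e4 := congrArg conj e
    rw [map_mul, map_mul, map_mul, ← fourier_neg] at e4
    have e5 := f1 w e1
    have e6 : fourier j w * fourier (-j) w = 1 := by rw [← fourier_add, add_neg_cancel, fourier_zero]
    rw [div_eq_iff ((_root_.map_ne_zero conj).2 e1)] at e5
    have c2 := (_root_.map_ne_zero conj).2 e2
    have c3 := (_root_.map_ne_zero conj).2 e3
    rw [fourier_add, fourier_add]
    field_simp
    linear_combination (-C * K (w + τ) * conj (K w)) * e6 + (fourier (-j) w * conj (K w)) * e +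
      (fourier (-j) w * conj (K w) * K w) * e5 -
      (kap p * fourier D w * N w * K w * fourier (-j) w) * e4

end DK

end Pool.Agent.P.MP_2a8753_an.H
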