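import Pool.Agent.P.MP_2a8753_an.H.Iface

/-! The case of rank two. -/

set_option autoImplicit false
set_option linter.unusedSectionVars false

namespace Pool.Agent.P.MP_2a8753_an.H

open MeasureTheory Filter Set Topology AddCircle Complex Polynomial
open scoped Real ComplexConjugate ENNReal

section NSUB

theorem p_NSUB :
    S_NSUB := by
  intro q hq
  by_contra h
  obtain ⟨t, t1, t2, t3, t4⟩ := Measure.exists_subset_measure_lt_top
    (measurableSet_tendsto (𝓝 (1 : ℂ)) fun n => (continuous_ee.pow (q n)).measurable)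
    (pos_iff_ne_zero.2 h)
  have a := tendsto_integral_of_dominated_convergence (μ := volume.restrict t)
    (F := fun n y => ee y ^ q n) (f := fun _ => 1) (fun _ => 1)
    (fun n => (continuous_ee.pow (q n)).aestronglyMeasurable) (integrableOn_const t4.ne)
    (fun n => .of_forall fun y => by simp [norm_ee]) (ae_restrict_of_forall_mem t1 t2)
  have b := (Real.zero_at_infty_fourier (t.indicator fun _ => (1 : ℂ))).comp
    ((tendsto_neg_atTop_atBot.comp (tendsto_natCast_atTop_atTop.comp hq)).mono_right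
      atBot_le_cocompact)
  have c := tendsto_nhds_unique a (b.congr fun n => by
    rw [Function.comp_apply, fourier_eq_ee, ← integral_indicator t1]
    refine integral_congr_ae (.of_forall fun y => ?_)
    by_cases k : y ∈ t <;> simp [k, ← ee_nat_mul, mul_comm])
  simp [Measure.real, ENNReal.toReal_eq_zero_iff, t3.ne', t4.ne] at c

end NSUB

section ALG

section

variable {R ι : Type} [CommRing R] [IsDomain R] {e : ι → R →+* ℂ} {f g : ι → ℂ}

/-- A function that satisfies a polynomial equation pointwise. -/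
def alg_Al (e : ι → R →+* ℂ) (f : ι → ℂ) : Prop :=
  ∃ ψ : R[X], ψ ≠ 0 ∧ ∀ x, ψ.eval₂ (e x) (f x) = 0

lemma alg_const (r : R) : alg_Al e fun x => e x r :=
  ⟨X - C r, X_sub_C_ne_zero r, fun x => by simp [eval₂_sub]⟩

lemma alg_mul (hf : alg_Al e f) (hg : alg_Al e g) : alg_Al e fun x => f x * g x := by
  let : Algebra R (ι → ℂ) := (RingHom.pi e).toAlgebra
  have k : ∀ f, alg_Al e f ↔ IsAlgebraic R f := fun f => exists_congr fun ψ =>
    and_congr_right fun _ => by
      rw [funext_iff]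
      exact forall_congr' fun x => Eq.congr_left
        (hom_eval₂ ψ (algebraMap R (ι → ℂ)) (Pi.evalRingHom (fun _ => ℂ) x) f).symm
  exact (k _).2 (((k f).1 hf).mul ((k g).1 hg))

lemma alg_inv (hf : alg_Al e f) : alg_Al e fun x => (f x)⁻¹ := by
  obtain ⟨ψ, h0, h⟩ := hf
  refine ⟨X * ψ.reverse, mul_ne_zero X_ne_zero (reverse_eq_zero.not.2 h0), fun x => ?_⟩
  rw [eval₂_mul, eval₂_X]
  rcases eq_or_ne (f x) 0 with h1 | h1
  · simp [h1]
  · let := invertibleOfNonzero h1
    beta_reduce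
    rw [← invOf_eq_inv, (eval₂_reverse_eq_zero_iff _ _ _).2 (h x), mul_zero]

lemma alg_conj (s : R ≃+* R) (hs : ∀ x, (e x).comp s = (starRingEnd ℂ).comp (e x))
    (hf : alg_Al e f) : alg_Al e fun x => conj (f x) := by
  obtain ⟨ψ, h0, h⟩ := hf
  refine ⟨ψ.map s, (Polynomial.map_ne_zero_iff s.injective).2 h0, fun x => ?_⟩
  rw [eval₂_map, hs, ← hom_eval₂, h, map_zero]

lemma alg_or {u : ι → ℂ} (hf : alg_Al e f) (hg : alg_Al e g) (h : ∀ x, u x = f x ∨ u x = g x) :
    alg_Al e u := by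
  obtain ⟨ψ, h0, h1⟩ := hf
  obtain ⟨φ, h2, h3⟩ := hg
  refine ⟨ψ * φ, mul_ne_zero h0 h2, fun x => ?_⟩
  rcases h x with k | k <;> simp [eval₂_mul, k, h1, h3]

lemma alg_prod {κ : Type} (s : Finset κ) {F : κ → ι → ℂ} (h : ∀ i, alg_Al e (F i)) :
    alg_Al e fun x => ∏ i ∈ s, F i x := by
  classical
  induction s using Finset.induction_on with
  | empty => simpa using alg_const (e := e) 1
  | insert i s hi ih => simpa only [Finset.prod_insert hi] using alg_mul (h i) ih

lemma alg_kap (s : R ≃+* R) (hs : ∀ x, (e x).comp s = (starRingEnd ℂ).comp (e x)) {p : R[X]}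
    (hp : p ≠ 0) (h : ∀ x, e x p.leadingCoeff ≠ 0) : alg_Al e fun x => kap (p.map (e x)) := by
  have k : ∀ x, ∃ r : Fin p.natDegree → ℂ, Finset.univ.val.map r = (p.map (e x)).roots := fun x => by
    obtain ⟨l, hl⟩ := Quotient.exists_rep (p.map (e x)).roots
    have h1 : l.length = p.natDegree := by
      rw [← natDegree_map_of_leadingCoeff_ne_zero _ (h x), ← IsAlgClosed.card_roots_eq_natDegree,
        ← hl]
      rfl
    rw [← h1, ← hl]
    exact ⟨l.get, by rw [Fin.univ_val_map, List.ofFn_get]; rfl⟩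
  choose r hr using k
  have h1 : ∀ i, alg_Al e fun x => r x i := fun i => ⟨p, hp, fun x => by
    rw [← eval_map]
    exact (mem_roots'.1 (hr x ▸ Multiset.mem_map_of_mem _ (Finset.mem_univ_val i))).2⟩
  have h2 : ∀ i, alg_Al e fun x => fr (r x i) := fun i =>
    alg_or (alg_const 1) (alg_or (u := fun x => if ‖r x i‖ = 1 then -r x i else r x i / conj (r x i))
      (alg_mul (alg_const (-1)) (h1 i)) (alg_mul (h1 i) (alg_inv (alg_conj s hs (h1 i))))
      fun x => by split_ifs <;> simp [div_eq_mul_inv]) fun x => by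
        rw [fr]
        by_cases c : ‖r x i‖ < 1
        · exact Or.inl (by rw [if_pos c, map_one])
        · exact Or.inr (if_neg c)
  have h3 := alg_mul (alg_mul (alg_const p.leadingCoeff)
    (alg_inv (alg_conj s hs (alg_const p.leadingCoeff)))) (alg_prod Finset.univ h2)
  convert h3 using 2 with x
  rw [kap, leadingCoeff_map_of_leadingCoeff_ne_zero _ (h x), ← hr, Multiset.map_map,
    div_eq_mul_inv]
  rfl

end

theorem p_ALG :
    S_ALG := by
  intro p hp
  have k : ∀ (x : ℝ) (m : ℤ) (r : ℂ), ev x (AddMonoidAlgebra.mapRingEquiv ℤ (starRingAut : RingAut ℂ)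
      (AddMonoidAlgebra.mapDomainRingEquiv ℂ (AddEquiv.neg ℤ) (.single m r))) =
      conj (ev x (.single m r)) := fun x m r => by
    rw [AddMonoidAlgebra.mapDomainRingEquiv_single, AddMonoidAlgebra.mapRingEquiv_single, ev_single,
      ev_single, map_mul, conj_ee]
    simp
  obtain ⟨ψ, h0, h⟩ := alg_kap (ι := {x : ℝ // ev x p.leadingCoeff ≠ 0})
    (e := fun x => (ev x.1 : LP →+* ℂ))
    ((AddMonoidAlgebra.mapDomainRingEquiv ℂ (AddEquiv.neg ℤ)).trans
      (AddMonoidAlgebra.mapRingEquiv ℤ (starRingAut : RingAut ℂ)))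
    (fun x => AddMonoidAlgebra.ringHom_ext (k x 0) fun m => k x m 1) hp fun x => x.2
  exact ⟨ψ, h0, fun x hx => (eval_map _ _).trans (h ⟨x, hx⟩)⟩

end ALG

section KN

lemma kn_div {r : ℂ} (h : r ≠ 0) : ‖r / conj r‖ = 1 := by
  rw [norm_div, norm_conj, div_self (norm_ne_zero_iff.2 h)]

lemma kn_fr (r : ℂ) : ‖fr r‖ = 1 := by
  unfold fr
  split_ifs with h1 h2
  · exact norm_one
  · rwa [norm_neg]
  · exact kn_div fun e => h1 (by simp [e])

lemma kn_kap {p : ℂ[X]} (h : p ≠ 0) : ‖kap p‖ = 1 := by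
  rw [kap, norm_mul, kn_div (leadingCoeff_ne_zero.2 h), one_mul]
  refine Multiset.prod_induction (fun z : ℂ => ‖z‖ = 1) _ (fun a b ha hb => ?_) norm_one
    fun a ha => ?_
  · rw [norm_mul, ha, hb, one_mul]
  · obtain ⟨r, -, rfl⟩ := Multiset.mem_map.1 ha
    exact kn_fr r

lemma kn_arg {z : ℂ} (h : ‖z‖ = 1) : ∃ y : ℝ, ee y = z := by
  obtain ⟨θ, rfl⟩ := (norm_eq_one_iff z).1 h
  refine ⟨θ / (2 * π), ?_⟩
  have : (π : ℂ) ≠ 0 := ofReal_ne_zero.2 Real.pi_ne_zero
  rw [ee]
  congr 1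
  push_cast
  field_simp

theorem p_KN (hNUL : S_NUL) (hEXP : S_EXP) (hNSUB : S_NSUB) (hALG : S_ALG) :
    S_KN := by
  intro p τ φ q hp hτ hq
  obtain ⟨ψ, h0, hψ⟩ := hALG p hp
  have key := hNUL (Σ _ : ℕ, ℤ) (ψ.support.sigma fun j => (ψ.coeff j).coeff.support)
    (fun k => (ψ.coeff k.1).coeff k.2 * ee (2 * k.1 * φ)) (fun k => k.2 + 2 * τ * k.1)
    (fun k => k.1) _ ?_ ?_ (hNSUB q hq)
  · filter_upwards [measure_eq_zero_iff_ae_notMem.1 key,
      hEXP.2.1 _ (leadingCoeff_ne_zero.2 hp)] with x h1 h2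
    have h3 : sp p x ≠ 0 := fun e => h2 (by
      have := congrArg (fun r : ℂ[X] => r.coeff p.natDegree) e
      simpa [sp] using this)
    refine ⟨h3, fun h4 => h1 ?_⟩
    obtain ⟨y, hy⟩ := kn_arg (z := kap (sp p x) * (conj (ee (φ + τ * x)) / ee (φ + τ * x))) (by
      rw [norm_mul, kn_kap h3, norm_div, norm_conj, norm_ee, div_one, one_mul])
    refine ⟨y, by rwa [← hy] at h4, ?_⟩
    have h5 : kap (sp p x) = ee (y + (φ + τ * x) + (φ + τ * x)) := by
      have := ee_ne_zero (φ + τ * x)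
      rw [ee_add, ee_add, hy, conj_ee, mul_assoc, mul_assoc, ← mul_assoc (_ / _),
        div_mul_cancel₀ _ this, ee_neg_mul, mul_one]
    rw [← hψ x h2, h5, sp, eval_map, eval₂_eq_sum, sum_def, Finset.sum_sigma]
    refine Finset.sum_congr rfl fun j _ => ?_
    rw [RingHom.coe_coe, ev_eq, Finset.sum_mul]
    refine Finset.sum_congr rfl fun i _ => ?_
    rw [← ee_nat_mul, mul_assoc, mul_assoc _ (ee _), ← ee_add, ← ee_add]
    congr 2
    ring
  · obtain ⟨i, hi⟩ := Finsupp.support_nonempty_iff.2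
      (mt AddMonoidAlgebra.coeff_eq_zero.1 (leadingCoeff_ne_zero.2 h0))
    exact ⟨⟨ψ.natDegree, i⟩, Finset.mem_sigma.2 ⟨natDegree_mem_support_of_nonzero h0, hi⟩,
      mul_ne_zero (Finsupp.mem_support_iff.1 hi) (ee_ne_zero _)⟩
  · rintro ⟨j, i⟩ - ⟨j', i'⟩ - e
    obtain rfl : j = j' := by
      by_contra h
      refine (hτ.mul_intCast (m := 2 * ((j : ℤ) - j')) (by omega)).ne_int (i' - i) ?_
      push_cast
      linarith
    obtain rfl : i = i' := by exact_mod_cast add_right_cancel e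
    rfl

end KN

section PL

lemma pl_pow (w : S1) (j : ℕ) : fourier 1 w ^ j = fourier (j : ℤ) w := by
  induction j with
  | zero => simp
  | succ j ih => rw [pow_succ, ih, Nat.cast_succ, fourier_add]

lemma pl_ee (n : ℤ) (x : ℝ) : ee (n * x) = fourier n (x : S1) := by
  rw [fourier_coe_apply, ee]; congr 1; push_cast; ring

theorem p_PL :
    S_PL := by
  intro S c N hN
  refine ⟨fun x w => ?_, fun j => ?_⟩
  · rw [sp, PL, Polynomial.map_sum, eval_finsetSum, PP, Finset.mul_sum]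
    refine Finset.sum_congr rfl fun k hk => ?_
    rw [Polynomial.map_mul, Polynomial.map_pow, map_X, map_C, eval_mul, eval_C, eval_pow, eval_X,
      pl_pow, Int.toNat_of_nonneg (sub_nonneg.2 (hN k hk)), RingHom.coe_coe, ev_single, pl_ee,
      sub_eq_add_neg, fourier_add]
    ring
  · have e : ∀ n : ℤ, ((PL S c N).coeff j).coeff n
        = if (N - j, n) ∈ S then c (N - j, n) else 0 := fun n => by
      rw [PL, finsetSum_coeff, AddMonoidAlgebra.coeff_sum, Finsupp.finsetSum_apply,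
        ← Finset.sum_ite_eq]
      refine Finset.sum_congr rfl fun k hk => ?_
      have := hN k hk
      rw [coeff_C_mul_X_pow]
      by_cases h1 : j = (N - k.1).toNat
      · rw [if_pos h1, AddMonoidAlgebra.coeff_single, Finsupp.single_apply]
        by_cases h2 : k.2 = n
        · have : (N - j, n) = k := Prod.ext (by simp only; omega) h2.symm
          rw [if_pos h2, if_pos this]
        · rw [if_neg h2, if_neg fun h => h2 (congrArg Prod.snd h).symm]
      · rw [if_neg h1, if_neg fun h => h1 (by have := congrArg Prod.fst h; simp only at this; omega)]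
        rfl
    constructor
    · intro h
      by_contra hc
      refine h (AddMonoidAlgebra.ext (Finsupp.ext fun n => ?_))
      rw [e]
      split_ifs with k
      · by_contra h2
        exact hc ⟨_, k, h2, by simp⟩
      · rfl
    · rintro ⟨k, hk, h1, h2⟩ h
      have := e k.2
      rw [h, h2, sub_sub_cancel, if_pos hk] at this
      exact h1 this.symm

end PL

section ITER

lemma iter_PP (S : Finset (ℤ × ℤ)) (c : ℤ × ℤ → ℂ) (a b x : ℝ) (w : S1) :
    PP S c (((x - a : ℝ) : S1), w - (b : S1)) =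
      PP S (fun k => c k * (ee (k.2 * (-a)) * ee ((-k.1 : ℤ) * (-b)))) ((x : S1), w) := by
  refine Finset.sum_congr rfl fun k _ => ?_
  rw [sub_eq_add_neg, sub_eq_add_neg, AddCircle.coe_add, ← AddCircle.coe_neg, fourier_add_right,
    fourier_add_right, fourier_coe_ee k.2 (-a), fourier_coe_ee (-k.1) (-b)]
  ring

theorem p_ITER :
    S_ITER := by
  intro S c θ F d p h hd
  let cc : ℕ → ℤ × ℤ → ℂ := fun i k =>
    c k * (ee (k.2 * (-(i * θ.1))) * ee ((-k.1 : ℤ) * (-(i * θ.2))))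
  have key : ∀ j : ℕ, ∃ φ : ℝ, ∀ᵐ y : ℝ × S1,
      ee (φ + j * θ.2 * y.1) * F (y.1 - j * θ.1, y.2 - ((j * θ.2 : ℝ) : S1)) =
        (∏ i ∈ Finset.range j, PP S (cc i) (y.1, y.2)) * F y := by
    intro j
    induction j with
    | zero => exact ⟨0, Eventually.of_forall fun y => by simp [ee_zero]⟩
    | succ j ih =>
      obtain ⟨φ, ih⟩ := ih
      have hm : MeasurePreserving (Prod.map (fun x : ℝ => x - j * θ.1)
          (fun w : S1 => w - ((j * θ.2 : ℝ) : S1))) volume volume :=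
        (measurePreserving_sub_right volume _).prod (measurePreserving_sub_right volume _)
      refine ⟨φ - j * θ.1 * θ.2, ?_⟩
      filter_upwards [ih, hm.quasiMeasurePreserving.ae h.eq] with y h1 h2
      simp only [Prod.map_fst, Prod.map_snd] at h2
      rw [iter_PP] at h2
      have e1 : y.1 - ((j + 1 : ℕ) : ℝ) * θ.1 = y.1 - j * θ.1 - θ.1 := by push_cast; ring
      have e2 : y.2 - ((((j + 1 : ℕ) : ℝ) * θ.2 : ℝ) : S1) = y.2 - ((j * θ.2 : ℝ) : S1) - θ.2 := by
        rw [sub_sub, ← AddCircle.coe_add]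
        congr 2
        push_cast
        ring
      have e3 : φ - j * θ.1 * θ.2 + ((j + 1 : ℕ) : ℝ) * θ.2 * y.1 =
          (φ + j * θ.2 * y.1) + θ.2 * (y.1 - j * θ.1) := by push_cast; ring
      rw [e1, e2, e3, ee_add, mul_assoc, h2, Finset.prod_range_succ, mul_left_comm]
      exact (congrArg _ h1).trans (by ring)
  obtain ⟨φ, hφ⟩ := key d
  refine ⟨cc, (-p : ℤ) * (-(d * θ.2)) + φ, fun i k => by simp [cc, ee_ne_zero],
    hφ.mono fun y hy => ?_⟩
  rw [← hy, hd, sub_eq_add_neg y.1, ← Int.cast_neg, h.qp, sub_eq_add_neg, ← AddCircle.coe_neg,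
    fourier_add_right, fourier_coe_ee, add_assoc, ee_add]
  ring

end ITER

section B2

theorem p_B2 (hITER : S_ITER) (hPL : S_PL) (hDKS : S_DKS) (hDK : S_DK) (hKN : S_KN) :
    S_B2 := by
  rintro S c θ F ⟨k₀, hk₀, hc₀⟩ h1 h2 hF
  obtain ⟨r, hr⟩ : θ.1 ∈ range ((↑) : ℚ → ℝ) := not_not.1 h1
  have hd : ((r.den : ℕ) : ℝ) * θ.1 = (r.num : ℤ) := by
    rw [← hr]; exact_mod_cast Rat.den_mul_eq_num r
  obtain ⟨cc, φ, hcc, hae⟩ := hITER S c θ F r.den r.num hF hd
  obtain ⟨N, hN⟩ := (S.image Prod.fst).exists_le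
  replace hN : ∀ k ∈ S, k.1 ≤ N := fun k hk => hN _ (Finset.mem_image_of_mem _ hk)
  have hP : ∏ i ∈ Finset.range r.den, PL S (cc i) N ≠ 0 := Finset.prod_ne_zero_iff.2 fun i _ h =>
    ((hPL S (cc i) N hN).2 (N - k₀.1).toNat).2 ⟨k₀, hk₀, fun e => hc₀ ((hcc i k₀).1 e),
      Int.toNat_of_nonneg (sub_nonneg.2 (hN _ hk₀))⟩ (by rw [h, coeff_zero])
  have hτ : Irrational (r.den * θ.2) := h2.natCast_mul r.den_ne_zero
  obtain ⟨q, hq⟩ := hDKS _ hτ.neg
  refine hF.nz ((Measure.ae_prod_iff_ae_ae (measurableSet_eq_fun hF.ms measurable_const)).2 ?_)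
  filter_upwards [Measure.ae_ae_of_ae_prod hae, hKN _ _ φ q hP hτ hq.top] with x hx hk
  by_contra hne
  refine hk.2 (hDK _ q (fun w => F (x, w)) _ _ (r.den * N - r.num) hτ.neg hq
    (hF.ms.comp measurable_prodMk_left) hne hk.1 (ee_ne_zero _) (hx.mono fun w hw => ?_))
  have e : (sp (∏ i ∈ Finset.range r.den, PL S (cc i) N) x).eval (fourier 1 w) =
      fourier (r.den * N) w * ∏ i ∈ Finset.range r.den, PP S (cc i) (x, w) := by
    rw [sp, Polynomial.map_prod, eval_prod]
    refine (Finset.prod_congr rfl fun i _ => (hPL S (cc i) N hN).1 x w).trans ?_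
    rw [Finset.prod_mul_distrib, Finset.prod_const, Finset.card_range]
    congr 1
    induction r.den with
    | zero => simp
    | succ n ih => rw [pow_succ, ih, ← fourier_add]; congr 2; push_cast; ring
  rw [e, sub_eq_add_neg, fourier_add, mul_assoc (fourier _ w), ← hw]
  ring

end B2

section B0

lemma b0_zero {F : ℝ × S1 → ℂ} (hF : Measurable F) (hEXP : S_EXP) {Δ : LP[X]} (h0 : Δ ≠ 0)
    (h : ∀ᵐ y : ℝ × S1, (sp Δ y.1).eval (fourier 1 y.2) * F y = 0) : F =ᵐ[volume] 0 := by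
  refine (Measure.ae_prod_iff_ae_ae (μ := volume) (ν := volume)
    (measurableSet_eq_fun hF measurable_const)).2 ?_
  filter_upwards [Measure.ae_ae_of_ae_prod h, hEXP.2.1 _ (leadingCoeff_ne_zero.2 h0)] with x h1 h2
  have h3 : sp Δ x ≠ 0 := fun e => h2 (by
    have := congrArg (coeff · Δ.natDegree) e
    simpa [sp] using this)
  filter_upwards [h1, (hEXP.2.2.1 _ h3).2] with w h4 h5
  exact (mul_eq_zero.1 h4).resolve_left h5

lemma b0_trail {f : ℕ → LP[X]} {D : ℕ} (h0 : ∀ i, f i ≠ 0) (h : ∀ i, (f i).natTrailingDegree = D)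
    (d : ℕ) : (∏ i ∈ Finset.range d, f i).natTrailingDegree = d * D := by
  induction d with
  | zero => simp
  | succ d ih =>
    rw [Finset.prod_range_succ, natTrailingDegree_mul (Finset.prod_ne_zero_iff.2 fun i _ => h0 i)
      (h0 d), ih, h, add_one_mul]

lemma b0_pow (n : ℕ) (N : ℤ) (w : S1) : (fourier N w : ℂ) ^ n = fourier (n * N) w := by
  induction n with
  | zero => simp
  | succ n ih => rw [pow_succ, ih, ← fourier_add, Nat.cast_succ, add_one_mul]

theorem p_B0 (hITER : S_ITER) (hPL : S_PL) (hEXP : S_EXP) :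
    S_B0 := by
  intro S c θ F _ h1 h2 hS k hk hck
  obtain ⟨q1, e1⟩ := not_not.1 h1
  obtain ⟨q2, e2⟩ := not_not.1 h2
  obtain ⟨d, p, m, hd, hp, hm⟩ : ∃ (d : ℕ) (p m : ℤ), 0 < d ∧ d * θ.1 = p ∧ d * θ.2 = m := by
    refine ⟨q1.den * q2.den, q1.num * q2.den, q2.num * q1.den, Nat.mul_pos q1.pos q2.pos, ?_, ?_⟩
    · rw [← e1, Rat.cast_def]
      push_cast
      field_simp
    · rw [← e2, Rat.cast_def]
      push_cast
      field_simp
  obtain ⟨cc, φ, hc, hF⟩ := hITER S c θ F d p hS hp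
  obtain ⟨N, hN, hpN⟩ : ∃ N : ℤ, (∀ k ∈ S, k.1 ≤ N) ∧ p ≤ d * N := by
    obtain ⟨N, hN⟩ := (S.image Prod.fst).bddAbove
    refine ⟨max N |p|, fun k hk => le_max_of_le_left (hN (Finset.mem_image_of_mem _ hk)), ?_⟩
    have h3 : (1 : ℤ) ≤ d := by exact_mod_cast hd
    nlinarith [le_abs_self p, abs_nonneg p, le_max_right N |p|]
  obtain ⟨n, hn⟩ : ∃ n : ℕ, (n : ℤ) = d * N - p := ⟨_, Int.toNat_of_nonneg (by omega)⟩
  have hΔ : ∏ i ∈ Finset.range d, PL S (cc i) N = C (.single m (ee φ)) * X ^ n := by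
    by_contra h0
    refine hS.nz (b0_zero hS.ms hEXP (sub_ne_zero.2 h0) ?_)
    filter_upwards [hF] with y hy
    have e3 : ((-(d * θ.2) : ℝ) : S1) = 0 := by
      rw [hm, ← Int.cast_neg, AddCircle.coe_eq_zero_iff]
      exact ⟨-m, by simp⟩
    have e4 := fun i => (hPL S (cc i) N hN).1 y.1 y.2
    rw [e3, add_zero, hm, ee_add] at hy
    simp only [sp] at e4
    simp only [sp, Polynomial.map_sub, Polynomial.map_prod, Polynomial.map_mul, Polynomial.map_pow,
      map_C, map_X, eval_sub, eval_prod, eval_mul, eval_pow, eval_C, eval_X, e4, RingHom.coe_coe,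
      ev_single, Finset.prod_mul_distrib, Finset.prod_const, Finset.card_range, b0_pow, mul_one, hn,
      sub_eq_add_neg (d * N), fourier_add]
    linear_combination -fourier (d * N) y.2 * hy
  have hs : ∀ i, (PL S (cc i) N).support = (PL S c N).support := fun i => by
    ext j
    simp only [mem_support_iff, (hPL S _ N hN).2, ne_eq, hc]
  obtain ⟨j, hj⟩ : ∃ j : ℕ, (j : ℤ) = N - k.1 := ⟨_, Int.toNat_of_nonneg (sub_nonneg.2 (hN k hk))⟩
  have hj0 : (PL S c N).coeff j ≠ 0 := ((hPL S c N hN).2 j).2 ⟨k, hk, hck, hj⟩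
  have h0 : ∀ i, PL S (cc i) N ≠ 0 := fun i e => hj0 (by
    rw [← notMem_support_iff, ← hs i, e]; simp)
  have hne : (.single m (ee φ) : LP) ≠ 0 := fun e =>
    mul_ne_zero (ee_ne_zero φ) (ee_ne_zero _) (by rw [← ev_single 0 m, e, map_zero])
  have d1 := congrArg natDegree hΔ
  have d0 := congrArg natTrailingDegree hΔ
  rw [natDegree_prod _ _ fun i _ => h0 i, natDegree_C_mul_X_pow _ _ hne,
    Finset.sum_congr rfl (g := fun _ => (PL S c N).natDegree) fun i _ => by
      simp only [natDegree, degree, hs], Finset.sum_const, Finset.card_range, smul_eq_mul] at d1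
  rw [b0_trail (D := (PL S c N).natTrailingDegree) h0 fun i => by
      simp only [natTrailingDegree, trailingDegree, hs], C_mul_X_pow_eq_monomial,
    natTrailingDegree_monomial hne] at d0
  have h3 : d * j = n := le_antisymm (d1 ▸ Nat.mul_le_mul_left d (le_natDegree_of_ne_zero hj0))
    (d0 ▸ Nat.mul_le_mul_left d (natTrailingDegree_le_of_ne_zero hj0))
  have h4 : (d : ℤ) * k.1 = p := by
    have : (d : ℤ) * j = n := by exact_mod_cast h3
    rw [hj, hn] at this
    linarith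
  have h5 : (d : ℝ) * k.1 = p := by exact_mod_cast h4
  exact mul_left_cancel₀ (Nat.cast_pos.2 hd).ne' (h5.trans hp.symm)

end B0

section B1

lemma b1_iter (F : ℝ × S1 → ℂ) (B : ℝ → ℂ) (β : S1)
    (h : ∀ᵐ y : ℝ × S1, F (y.1, y.2 - β) = B y.1 * F y) (n : ℕ) :
    ∀ᵐ y : ℝ × S1, F (y.1, y.2 - n • β) = B y.1 ^ n * F y := by
  induction n with
  | zero => simp
  | succ n ih =>
    have q : Measure.QuasiMeasurePreserving (Prod.map id fun w : S1 => w - n • β)
        (volume : Measure (ℝ × S1)) volume :=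
      QuasiMeasurePreserving.prodMap (.id _)
        (measurePreserving_sub_right volume (n • β)).quasiMeasurePreserving
    filter_upwards [ih, q.ae h] with y h1 h2
    simp only [Prod.map_fst, Prod.map_snd, id] at h2
    rw [succ_nsmul, ← sub_sub, h2, pow_succ', mul_assoc, ← h1]
    rfl

theorem p_B1 (hEXP : S_EXP) :
    S_B1 := by
  classical
  rintro S c ⟨a', b⟩ F ⟨k0, hk0, hc0⟩ hne hb h1 hF
  obtain rfl : (k0.1 : ℝ) = a' := h1 k0 hk0 hc0
  set a := k0.1
  have h1' : ∀ k ∈ S, c k ≠ 0 → k.1 = a := fun k hk hc =>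
    Int.cast_injective (α := ℝ) (h1 k hk hc)
  obtain ⟨r, hr⟩ := not_not.1 hb
  have hd : ((r.den : ℕ) : ℝ) * b = (r.num : ℤ) := by
    rw [← show (r : ℝ) = b from hr]; exact_mod_cast Rat.den_mul_eq_num r
  set T := S.filter fun k => c k ≠ 0
  set A : ℝ → ℂ := fun x => ∑ k ∈ T, c k * ee (k.2 * x)
  have hP : ∀ (x : ℝ) (w : S1), PP S c (x, w) = fourier (-a) w * A x := fun x w => by
    simp only [PP, A, T, Finset.sum_filter, Finset.mul_sum]
    refine Finset.sum_congr rfl fun k hk => ?_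
    by_cases hc : c k = 0
    · simp [hc]
    · rw [if_pos hc, h1' k hk hc, fourier_coe_ee]; ring
  have key : ∀ᵐ y : ℝ × S1,
      F (y.1, y.2 - (b : S1)) = A y.1 / (ee (a * b) * ee (b * y.1)) * F y := by
    filter_upwards [hF.eq] with y hy
    have e := hF.qp y.1 (-a) (y.2 - (b : S1))
    have e' : fourier (-a) (y.2 - (b : S1)) = fourier (-a) y.2 * ee (a * b) := by
      rw [sub_eq_add_neg, fourier_add_right, ← AddCircle.coe_neg, fourier_coe_ee]; simp
    simp only [Int.cast_neg, ← sub_eq_add_neg] at e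
    rw [hP, e, e'] at hy
    have n1 : fourier (-a) y.2 ≠ 0 := by
      rw [← norm_ne_zero_iff, norm_fourier]; exact one_ne_zero
    have n2 := ee_ne_zero (a * b)
    have n3 := ee_ne_zero (b * y.1)
    field_simp
    apply mul_left_cancel₀ n1
    linear_combination hy
  have it := b1_iter F (fun x => A x / (ee (a * b) * ee (b * x))) b key r.den
  have z : r.den • (b : S1) = 0 := by
    rw [← coe_nsmul, nsmul_eq_mul, hd, AddCircle.coe_eq_zero_iff]; exact ⟨r.num, by simp⟩
  have nr : ∀ ζ ∈ nthRootsFinset r.den (1 : ℂ), ∀ᵐ x : ℝ,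
      A x / (ee (a * b) * ee (b * x)) ≠ ζ := fun ζ _ => by
    have := hEXP.1 (Option (ℤ × ℤ)) (Finset.insertNone T) (fun o => o.elim (-(ζ * ee (a * b))) c)
      (fun o => o.elim b fun k => k.2) ⟨some k0, by simp [T, hk0, hc0], hc0⟩ (by
        have t : ∀ k ∈ T, (k.2 : ℝ) ≠ b := fun k hk e => by
          rw [Finset.mem_filter] at hk
          exact hne k hk.1 (by rw [h1' k hk.1 hk.2, e])
        rintro (_ | k) hk (_ | k') hk' e
        · rfl
        · exact absurd e.symm (t k' (by simpa using hk'))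
        · exact absurd e (t k (by simpa using hk))
        · have m : k ∈ S ∧ c k ≠ 0 := by simpa [T] using hk
          have m' : k' ∈ S ∧ c k' ≠ 0 := by simpa [T] using hk'
          refine congrArg some (Prod.ext ((h1' k m.1 m.2).trans (h1' k' m'.1 m'.2).symm) ?_)
          exact Int.cast_injective (α := ℝ) e)
    filter_upwards [this] with x hx e
    rw [div_eq_iff (mul_ne_zero (ee_ne_zero _) (ee_ne_zero _))] at e
    apply hx
    rw [Finset.sum_insertNone]
    change -(ζ * ee (a * b)) * ee (b * x) + A x = 0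
    rw [e]; ring
  refine hF.nz ?_
  filter_upwards [it, Measure.quasiMeasurePreserving_fst.ae
    ((eventually_all_finset _).2 nr)] with y h2 h3
  by_contra h0
  rw [z, sub_zero] at h2
  exact h3 _ ((mem_nthRootsFinset r.pos 1).2 (mul_right_cancel₀ h0 (by rw [one_mul, ← h2]))) rfl

end B1

section BB

lemma bb_re {ι κ : Type} (e : ι ≃ κ) {S : Finset ι} {T : Finset κ} (h : ∀ i, i ∈ S ↔ e i ∈ T)
    {pt : ι → ℝ × ℝ} {pt' : κ → ℝ × ℝ} (hp : ∀ i, pt' (e i) = pt i) (hT : Ind T pt') :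
    Ind S pt := by
  intro g hg h0 c hc i hi
  have := hT g hg h0 (fun j => c (e.symm j)) (hc.mono fun x hx => by
    rw [← hx]
    exact (Finset.sum_equiv e h fun i _ => by rw [e.symm_apply_apply, hp]).symm) (e i) ((h i).1 hi)
  rwa [e.symm_apply_apply] at this

theorem p_BB (hZK : S_ZK) (hMI : S_MI) (hB0 : S_B0) (hB1 : S_B1) (hB2 : S_B2) :
    S_BB := by
  have step : ∀ (S : Finset (ℤ × ℤ)) (θ : ℝ × ℝ), (∀ k ∈ S, ((k.1 : ℝ), (k.2 : ℝ)) ≠ θ) →
      ¬ Irrational θ.1 → Ind (Finset.insertNone S) (pp θ) := fun S θ hS h1 =>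
    hZK S θ fun c F hc hF => by
      by_cases h2 : Irrational θ.2
      · exact hB2 S c θ F hc h1 h2 hF
      · exact hB1 S c θ F hc hS h2 (hB0 S c θ F hc h1 h2 hF) hF
  intro S θ hS hI
  obtain ⟨a, b, m, hm, hab⟩ : ∃ a b m : ℤ, a * θ.1 + b * θ.2 = m ∧ ¬ (a = 0 ∧ b = 0) := by
    by_contra hc
    exact hI fun a b m hm => by
      by_contra h
      exact hc ⟨a, b, m, hm, h⟩
  have hg : 0 < Int.gcd a b := Nat.pos_of_ne_zero fun h => hab (Int.gcd_eq_zero_iff.1 h)
  obtain ⟨a', b', h1, ha, hb⟩ := Int.exists_gcd_one hg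
  obtain ⟨x, y, hxy⟩ := Int.isCoprime_iff_gcd_eq_one.2 h1
  have hr : (x : ℝ) * a' + y * b' = 1 := by exact_mod_cast hxy
  let M : ℤ × ℤ ≃ ℤ × ℤ :=
    { toFun := fun k => (a' * k.1 + b' * k.2, -y * k.1 + x * k.2)
      invFun := fun j => (x * j.1 - b' * j.2, y * j.1 + a' * j.2)
      left_inv := fun k => Prod.ext (by simp only; linear_combination k.1 * hxy)
        (by simp only; linear_combination k.2 * hxy)
      right_inv := fun k => Prod.ext (by simp only; linear_combination k.1 * hxy)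
        (by simp only; linear_combination k.2 * hxy) }
  have key : ∀ p : ℝ × ℝ, (0 : ℝ × ℝ) + (a' * p.1 + b' * p.2) • ((x : ℝ), (y : ℝ)) +
      (-y * p.1 + x * p.2) • (-(b' : ℝ), (a' : ℝ)) = p := fun p =>
    Prod.ext (by simp; linear_combination p.1 * hr) (by simp; linear_combination p.2 * hr)
  have h2 := step (S.map M.toEmbedding) (a' * θ.1 + b' * θ.2, -y * θ.1 + x * θ.2) ?_ ?_
  · refine bb_re M.optionCongr ?_ ?_ (hMI _ _ _ 0 (x, y) (-b', a') (by simpa using hr) h2)
    · rintro (_ | k) <;> simp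
    · rintro (_ | k)
      · exact key θ
      · simpa [pp, M] using key (k.1, k.2)
  · intro j hj e
    obtain ⟨k, hk, rfl⟩ := Finset.mem_map.1 hj
    apply hS k hk
    have e1 := congrArg Prod.fst e
    have e2 := congrArg Prod.snd e
    simp only [M, Equiv.coe_toEmbedding, Equiv.coe_fn_mk] at e1 e2
    push_cast at e1 e2
    rw [← key θ, ← e1, ← e2]
    exact (key (k.1, k.2)).symm
  · have hg' : (Int.gcd a b : ℝ) ≠ 0 := Nat.cast_ne_zero.2 hg.ne'
    have ha' : (a : ℝ) = a' * Int.gcd a b := by exact_mod_cast ha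
    have hb' : (b : ℝ) = b' * Int.gcd a b := by exact_mod_cast hb
    refine fun h => h ⟨m / Int.gcd a b, ?_⟩
    push_cast
    rw [div_eq_iff hg', ← hm]
    linear_combination θ.1 * ha' + θ.2 * hb'

end BB

end Pool.Agent.P.MP_2a8753_an.H
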