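import Pool.Agent.P.MP_2a8753_an.H.PartA
import Pool.Agent.P.MP_2a8753_an.H.PartB
import Pool.Agent.P.MP_2a8753_an.H.PartC
import Pool.Agent.P.MP_2a8753_an.H.PartD
import Pool.Agent.P.MP_2a8753_an.H.PartE
import Pool.Agent.P.MP_2a8753_an.H.PartF
import Pool.Agent.P.MP_2a8753_an.H.Fin

/-! The steps put together. -/

set_option autoImplicit false

namespace Pool.Agent.P.MP_2a8753_an.H

theorem a_NUL : S_NUL := p_NUL p_LL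

theorem a_EXP : S_EXP := p_EXP a_NUL

theorem a_ZK : S_ZK := p_ZK (p_ZR (p_ZQ p_ZAK)) a_EXP

theorem a_CORE : S_CORE := p_CORE p_ME

theorem a_EQ : S_EQ := p_EQ (p_NV p_ME) p_RH

theorem a_F1 : S_F1 := p_F1 (p_F0 a_CORE p_AVG) p_AVG (p_PH (p_PH1 p_CI) a_EXP) a_EXP

theorem a_C3 : S_C3 := p_C3 a_F1 p_SEP a_EXP

theorem a_F2 : S_F2 := p_F2 a_CORE (p_D2 p_ARC) p_LC p_TAY (p_INT (p_INX p_CI) p_INW a_EXP)

theorem a_END : S_END := p_END (p_TRI (p_NT a_F1 a_EXP) a_F2)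

theorem a_B2 : S_B2 :=
  p_B2 p_ITER p_PL p_DKS (p_DK p_FAC p_DK0 a_EXP) (p_KN a_NUL a_EXP p_NSUB p_ALG)

theorem a_BB : S_BB := p_BB a_ZK p_MI (p_B0 p_ITER p_PL a_EXP) (p_B1 a_EXP) a_B2

end Pool.Agent.P.MP_2a8753_an.H
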