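import Mathlib

/-! The definition used by the statements. -/

set_option autoImplicit false

namespace Pool.Agent.P.MP_2a8753_an

/-- The time-frequency shift of `g` by the point `p = (a, b)`: the function
`x ↦ exp (2 π i b x) g (x - a)`. -/
noncomputable def tf (p : ℝ × ℝ) (g : ℝ → ℂ) (x : ℝ) : ℂ :=
  Complex.exp (2 * (Real.pi : ℂ) * Complex.I * ((p.2 : ℂ) * (x : ℂ))) * g (x - p.1)

end Pool.Agent.P.MP_2a8753_an
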