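import Pool.Agent.P.MP_2a8753_an.Main
import Pool.Agent.P.MP_2a8753_an.H.Defs

/-! Working definitions and small tools: the torus, convergence in measure to one. -/

set_option autoImplicit false

namespace Pool.Agent.P.MP_2a8753_an.H

open MeasureTheory Filter Set Topology AddCircle Complex Polynomial
open scoped Real ComplexConjugate ENNReal

/-- The circle. -/
abbrev S1 := AddCircle (1 : ℝ)

/-- The torus. -/
abbrev T2 := S1 × S1

instance : IsProbabilityMeasure (volume : Measure S1) := ⟨UnitAddCircle.measure_univ⟩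

instance : IsProbabilityMeasure (volume : Measure T2) :=
  inferInstanceAs (IsProbabilityMeasure ((volume : Measure S1).prod volume))

instance : (volume : Measure T2).IsAddHaarMeasure :=
  inferInstanceAs (((volume : Measure S1).prod volume).IsAddHaarMeasure)

lemma haar_eq : (haarAddCircle : Measure S1) = volume := by
  rw [volume_eq_smul_haarAddCircle]; simp

lemma tf_eq (p : ℝ × ℝ) (g : ℝ → ℂ) (x : ℝ) : tf p g x = ee (p.2 * x) * g (x - p.1) := by
  simp [tf, ee]

lemma conj_ee (x : ℝ) : conj (ee x) = ee (-x) := by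
  simp [ee, ← Complex.exp_conj, map_ofNat]

lemma hasDerivAt_ee (l x : ℝ) :
    HasDerivAt (fun s => ee (l * s)) (2 * π * I * l * ee (l * x)) x := by
  have h : HasDerivAt (fun s : ℝ => 2 * (π : ℂ) * I * ((l * s : ℝ) : ℂ)) (2 * π * I * l) x := by
    simpa using ((hasDerivAt_id x).const_mul l).ofReal_comp.const_mul (2 * (π : ℂ) * I)
  simpa [ee, mul_comm] using h.cexp

/-- The projection of the plane to the torus. -/
def cT (h : ℝ × ℝ) : T2 := ((h.1 : S1), (h.2 : S1))

lemma cT_add (h k : ℝ × ℝ) : cT (h + k) = cT h + cT k := rfl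

lemma cT_neg (h : ℝ × ℝ) : cT (-h) = -cT h := rfl

lemma cT_zero : cT 0 = 0 := rfl

lemma cT_nsmul (n : ℕ) (h : ℝ × ℝ) : cT (n • h) = n • cT h := rfl

@[fun_prop]
lemma continuous_cT : Continuous cT := by unfold cT; fun_prop

/-- The trigonometric polynomial of a relation. -/
noncomputable def PP (S : Finset (ℤ × ℤ)) (c : ℤ × ℤ → ℂ) (y : T2) : ℂ :=
  ∑ k ∈ S, c k * (fourier k.2 y.1 * fourier (-k.1) y.2)

@[fun_prop]
lemma continuous_PP (S : Finset (ℤ × ℤ)) (c : ℤ × ℤ → ℂ) : Continuous (PP S c) := by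
  unfold PP; fun_prop

/-- The three-term polynomial. -/
noncomputable def P3 (a b c : ℂ) (y : T2) : ℂ := a + b * fourier 1 y.1 + c * fourier 1 y.2

@[fun_prop]
lemma continuous_P3 (a b c : ℂ) : Continuous (P3 a b c) := by unfold P3; fun_prop

/-- The numbers `1, θ₁, θ₂` are independent over the rationals. -/
def Irr (θ : ℝ × ℝ) : Prop := ∀ a b m : ℤ, a * θ.1 + b * θ.2 = m → a = 0 ∧ b = 0

/-- Independence of the time-frequency shifts by the points `pt i` for every window. -/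
def Ind {ι : Type} (S : Finset ι) (pt : ι → ℝ × ℝ) : Prop :=
  ∀ g : ℝ → ℂ, MemLp g 2 volume → ¬ g =ᵐ[volume] 0 → ∀ c : ι → ℂ,
    (∀ᵐ x ∂(volume : Measure ℝ), ∑ i ∈ S, c i * tf (pt i) g x = 0) → ∀ i ∈ S, c i = 0

/-- Lattice points and one more point. -/
def pp (θ : ℝ × ℝ) : Option (ℤ × ℤ) → ℝ × ℝ
  | none => θ
  | some k => (k.1, k.2)

/-- A nonzero measurable quasi-periodic solution of the equation on the Zak side. -/
structure Sol (P : T2 → ℂ) (θ : ℝ × ℝ) (F : ℝ × S1 → ℂ) : Prop where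
  ms : Measurable F
  qp : ∀ (x : ℝ) (m : ℤ) (w : S1), F (x + m, w) = fourier m w * F (x, w)
  nz : ¬ F =ᵐ[volume] 0
  eq : ∀ᵐ y : ℝ × S1, ee (θ.2 * y.1) * F (y.1 - θ.1, y.2 - θ.2) = P (y.1, y.2) * F y

/-- Convergence to one in measure. -/
def IM (f : ℕ → T2 → ℂ) : Prop :=
  ∀ ε : ℝ, 0 < ε → Tendsto (fun n => volume {y | ε ≤ ‖f n y - 1‖}) atTop (𝓝 0)

/-- Equicontinuity in measure of the products of `P` along the orbits, with frequency `ν`. -/
def EQ (P : T2 → ℂ) (θ ν : ℝ × ℝ) : Prop :=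
  ∀ (h : ℕ → ℝ × ℝ) (q : ℕ → ℕ), Tendsto h atTop (𝓝 0) → IM fun n y =>
    ∏ k ∈ Finset.range (q n), (P (y + k • cT θ + cT (h n)) / P (y + k • cT θ) *
      ee (-(ν.1 * (h n).1 + ν.2 * (h n).2)))

/-- Twice the number of times a root is counted by the mean winding. -/
noncomputable def Wn (r : ℂ) : ℝ := if ‖r‖ < 1 then 2 else if ‖r‖ = 1 then 1 else 0

/-- The derivative of twice the argument of `p (e t)`. -/
noncomputable def om (p : ℂ[X]) (t : ℝ) : ℝ :=
  2 * (2 * π * I * ee t * p.derivative.eval (ee t) / p.eval (ee t)).im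

/-- The unimodular constant of a root. -/
noncomputable def fr (r : ℂ) : ℂ := if ‖r‖ < 1 then 1 else if ‖r‖ = 1 then -r else r / conj r

/-- The unimodular constant of a polynomial. -/
noncomputable def kap (p : ℂ[X]) : ℂ :=
  p.leadingCoeff / conj p.leadingCoeff * (p.roots.map fr).prod

/-- Laurent polynomials. -/
abbrev LP := AddMonoidAlgebra ℂ ℤ

/-- The value of a Laurent polynomial at `e x`. -/
noncomputable def ev (x : ℝ) : LP →ₐ[ℂ] ℂ :=
  AddMonoidAlgebra.lift ℂ ℂ ℤ
    { toFun := fun n => ee (n.toAdd * x)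
      map_one' := by simp [ee_zero]
      map_mul' := fun m n => by simp [add_mul, ee_add] }

lemma ev_single (x : ℝ) (n : ℤ) (c : ℂ) : ev x (.single n c) = c * ee (n * x) := by
  rw [ev, AddMonoidAlgebra.lift_single]; rfl

lemma ev_eq (x : ℝ) (f : LP) : ev x f = ∑ n ∈ f.coeff.support, f.coeff n * ee (n * x) := by
  simp [ev, AddMonoidAlgebra.lift_apply, Finsupp.sum]

/-- The polynomial `p` with its coefficients evaluated at `e x`. -/
noncomputable def sp (p : LP[X]) (x : ℝ) : ℂ[X] := p.map (ev x : LP →+* ℂ)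

/-- The second order density. -/
noncomputable def Psi (a b : ℝ) (y : T2) : ℂ :=
  -(4 * π ^ 2) * (b / a) * (fourier 1 y.1 * fourier 1 y.2) * conj (P3 1 a b y) / P3 1 a b y ^ 2

lemma IM.congr {f g : ℕ → T2 → ℂ} (h : IM f) (e : ∀ n, f n =ᵐ[volume] g n) : IM g := fun ε hε =>
  (h ε hε).congr fun n => measure_congr ((e n).mono fun y hy => by
    change (ε ≤ ‖f n y - 1‖) = (ε ≤ ‖g n y - 1‖)
    rw [hy])

lemma IM.shift {f : ℕ → T2 → ℂ} (h : IM f) (a : ℕ → T2) : IM fun n y => f n (y + a n) :=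
  fun ε hε => (h ε hε).congr fun n =>
    (measure_preimage_add_right volume (a n) {y | ε ≤ ‖f n y - 1‖}).symm

lemma IM.map₂ {f g : ℕ → T2 → ℂ} (h : IM f) (h' : IM g) {φ : ℂ × ℂ → ℂ}
    (hφ : ContinuousAt φ (1, 1)) (h1 : φ (1, 1) = 1) : IM fun n y => φ (f n y, g n y) := by
  intro ε hε
  obtain ⟨δ, hδ, H⟩ := Metric.continuousAt_iff.1 hφ ε hε
  have := (h δ hδ).add (h' δ hδ)
  rw [add_zero] at this
  refine tendsto_of_tendsto_of_tendsto_of_le_of_le tendsto_const_nhds this
    (fun _ => zero_le) fun n => (measure_mono fun y hy => ?_).trans (measure_union_le _ _)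
  by_contra hc
  simp only [mem_union, mem_ofPred_eq, not_or, not_le] at hc
  have := H (x := (f n y, g n y)) (by simpa [Prod.dist_eq, dist_eq_norm] using hc)
  rw [h1, dist_eq_norm] at this
  exact not_le.2 this hy

lemma IM.mul {f g : ℕ → T2 → ℂ} (h : IM f) (h' : IM g) : IM fun n y => f n y * g n y :=
  h.map₂ h' (φ := fun p => p.1 * p.2) (by fun_prop) (by simp)

lemma IM.div {f g : ℕ → T2 → ℂ} (h : IM f) (h' : IM g) : IM fun n y => f n y / g n y :=
  h.map₂ h' (φ := fun p => p.1 / p.2) (by fun_prop (disch := simp)) (by simp)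

lemma IM.conj {f : ℕ → T2 → ℂ} (h : IM f) : IM fun n y => conj (f n y) :=
  h.map₂ h (φ := fun p => conj p.1) (by fun_prop) (by simp)

/-- Continuity of translation in `L¹`. -/
lemma tc {G : Type} [NormedAddCommGroup G] [CompactSpace G] [MeasurableSpace G] [BorelSpace G]
    (μ : Measure G) [μ.IsAddHaarMeasure] {φ : G → ℂ} (hφ : Integrable φ μ) :
    Tendsto (fun h => ∫ y, ‖φ (y + h) - φ y‖ ∂μ) (𝓝 0) (𝓝 0) := by
  have hm := memLp_one_iff_integrable.2 hφ
  let g : G → C(G, G) := fun h => ⟨fun y => y + h, by fun_prop⟩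
  have hg : Continuous g := ContinuousMap.continuous_of_continuous_uncurry _
    (continuous_snd.add continuous_fst)
  have hp : ∀ h, MeasurePreserving (g h) μ μ := fun h => measurePreserving_add_right μ h
  have hc := (continuous_const (y := hm.toLp φ)).compMeasurePreservingLp hg hp (by simp)
  have h0 := (hc.sub (continuous_const (y := hm.toLp φ))).norm
  have e : ∀ h, ‖Lp.compMeasurePreserving (g h) (hp h) (hm.toLp φ) - hm.toLp φ‖ =
      ∫ y, ‖φ (y + h) - φ y‖ ∂μ := fun h => by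
    rw [L1.norm_eq_integral_norm]
    refine integral_congr_ae ?_
    filter_upwards [Lp.coeFn_sub (Lp.compMeasurePreserving (g h) (hp h) (hm.toLp φ)) (hm.toLp φ),
      Lp.coeFn_compMeasurePreserving (hm.toLp φ) (hp h), hm.coeFn_toLp,
      (hp h).quasiMeasurePreserving.ae hm.coeFn_toLp] with y h1 h2 h3 h4
    rw [h1, Pi.sub_apply, h2, h3, Function.comp_apply, h4]
    rfl
  have := (h0.congr e).tendsto 0
  simpa using this

/-- The representative in `(0, 1]`. -/
noncomputable def sec (x : S1) : ℝ := equivIoc 1 0 x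

lemma sec_mem (x : S1) : sec x ∈ Ioc (0 : ℝ) 1 := by simpa [sec] using (equivIoc 1 0 x).2

@[simp] lemma coe_sec (x : S1) : ((sec x : ℝ) : S1) = x := (equivIoc 1 0).symm_apply_apply x

lemma sec_coe (x : ℝ) : ∃ m : ℤ, x = sec (x : S1) + m := by
  obtain ⟨m, hm⟩ := QuotientAddGroup.eq.1 (coe_sec (x : S1))
  refine ⟨m, ?_⟩
  simp only [zsmul_eq_mul, mul_one] at hm
  linarith

lemma sec_coe_of_mem {x : ℝ} (h : x ∈ Ioc (0 : ℝ) 1) : sec (x : S1) = x := by
  rw [sec, equivIoc_coe_eq (by simpa using h)]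

lemma mp_sec : MeasurePreserving sec volume (volume.restrict (Ioc (0 : ℝ) 1)) := by
  have := (measurePreserving_subtype_coe (μa := volume) measurableSet_Ioc).comp
    (measurePreserving_equivIoc (T := 1) (a := 0))
  simp only [zero_add] at this
  exact this

@[fun_prop]
lemma measurable_sec : Measurable sec := mp_sec.measurable

lemma qmp_coe : Measure.QuasiMeasurePreserving ((↑) : ℝ → S1) volume volume := by
  refine ⟨AddCircle.measurable_mk', Measure.AbsolutelyContinuous.mk fun s hs h0 => ?_⟩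
  rw [Measure.map_apply AddCircle.measurable_mk' hs, ← compl_compl (_ ⁻¹' s), ← mem_ae_iff]
  refine ae_of_ae_Ioc (P := fun x : ℝ => (x : S1) ∉ s) one_pos fun a => ?_
  exact (UnitAddCircle.measurePreserving_mk a).quasiMeasurePreserving.ae
    (measure_eq_zero_iff_ae_notMem.1 h0)

lemma ae_sec {p : ℝ × S1 → Prop} (h : ∀ᵐ y, p y) : ∀ᵐ y : T2, p (sec y.1, y.2) :=
  (QuasiMeasurePreserving.prodMap (mp_sec.quasiMeasurePreserving.mono_right
    Measure.absolutelyContinuous_restrict) (.id _)).ae h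

lemma ae_proj {p : T2 → Prop} (h : ∀ᵐ y, p y) : ∀ᵐ y : ℝ × S1, p (y.1, y.2) :=
  (QuasiMeasurePreserving.prodMap qmp_coe (.id _)).ae h

/-- The periodic difference quotient. -/
noncomputable def rho (F : ℝ × S1 → ℂ) (h : ℝ × ℝ) (y : T2) : ℂ :=
  F (sec y.1 + h.1, y.2 + h.2) / F (sec y.1, y.2) * ee (-(sec y.1 * h.2))

/-- The second difference quotient. -/
noncomputable def Q2 (a b : ℝ) (h : ℝ × ℝ) (y : T2) : ℂ :=
  P3 1 a b (y + cT h) / P3 1 a b y * (P3 1 a b (y + cT (-h)) / P3 1 a b y)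

/-- The three lattice points. -/
def S3 (n : ℤ) : Finset (ℤ × ℤ) := {(0, 0), (1, 0), (0, n)}

/-- The strict triangle inequalities for the sides `1, a, b`. -/
structure Tri (a b : ℝ) : Prop where
  a0 : 0 < a
  b0 : 0 < b
  lo : |1 - b| < a
  hi : a < 1 + b

/-- Denjoy-Koksma times of the rotation by `τ`. -/
structure DKq (τ : ℝ) (q : ℕ → ℕ) : Prop where
  top : Tendsto q atTop atTop
  rig : Tendsto (fun n => q n • (τ : S1)) atTop (𝓝 0)
  dk : ∀ a : ℂ, ‖a‖ < 1 → ∀ ε : ℝ, 0 < ε → ∀ᶠ n in atTop, ∀ w : S1,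
    ‖∏ k ∈ Finset.range (q n), (1 - a * fourier 1 (w + k • (τ : S1))) - 1‖ ≤ ε

/-- The polynomial over the Laurent ring of a relation. -/
noncomputable def PL (S : Finset (ℤ × ℤ)) (c : ℤ × ℤ → ℂ) (N : ℤ) : LP[X] :=
  ∑ k ∈ S, C (.single k.2 (c k)) * X ^ (N - k.1).toNat

end Pool.Agent.P.MP_2a8753_an.H
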