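import Pool.Agent.P.MP_2a8753_an.H.Base

/-! The statements of the steps. -/

set_option autoImplicit false

namespace Pool.Agent.P.MP_2a8753_an.H

open MeasureTheory Filter Set Topology AddCircle Complex Polynomial
open scoped Real ComplexConjugate ENNReal

-- deps:
def S_LL : Prop := ∀ φ : ℝ × ℝ → ℂ, ContDiff ℝ 1 φ → ∀ N : Set ℝ, volume N = 0 →
  volume {s : ℝ | ∃ y ∈ N, φ (s, y) = 0 ∧ fderiv ℝ φ (s, y) (1, 0) ≠ 0} = 0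

-- deps: LL
def S_NUL : Prop := ∀ (ι : Type) (S : Finset ι) (c : ι → ℂ) (l m : ι → ℝ) (N : Set ℝ),
  (∃ i ∈ S, c i ≠ 0) → InjOn l S → volume N = 0 →
    volume {s : ℝ | ∃ y ∈ N, ∑ i ∈ S, c i * ee (l i * s + m i * y) = 0} = 0

-- deps: NUL
def S_EXP : Prop :=
  (∀ (ι : Type) (S : Finset ι) (c : ι → ℂ) (l : ι → ℝ), (∃ i ∈ S, c i ≠ 0) → InjOn l S →
    ∀ᵐ s : ℝ, ∑ i ∈ S, c i * ee (l i * s) ≠ 0) ∧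
  (∀ f : LP, f ≠ 0 → ∀ᵐ x : ℝ, ev x f ≠ 0) ∧
  (∀ p : ℂ[X], p ≠ 0 → (∀ᵐ t : ℝ, p.eval (ee t) ≠ 0) ∧ ∀ᵐ w : S1, p.eval (fourier 1 w) ≠ 0) ∧
  (∀ (S : Finset (ℤ × ℤ)) (c : ℤ × ℤ → ℂ), (∃ k ∈ S, c k ≠ 0) → ∀ᵐ y : T2, PP S c y ≠ 0) ∧
  ∀ a b c : ℂ, ¬ (a = 0 ∧ b = 0 ∧ c = 0) → ∀ᵐ y : T2, P3 a b c y ≠ 0

-- deps:
def S_ZAK : Prop := ∀ g : ℝ → ℂ, MemLp g 2 volume → ∃ F : ℝ × S1 → ℂ, Measurable F ∧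
  ∀ᵐ x ∂(volume.restrict (Ioc (0 : ℝ) 1)), MemLp (fun w => F (x, w)) 2 haarAddCircle ∧
    ∀ n : ℤ, fourierCoeff (fun w => F (x, w)) n = g (x - n)

-- deps: ZAK
def S_ZQ : Prop := ∀ g : ℝ → ℂ, MemLp g 2 volume → ∃ F : ℝ × S1 → ℂ, Measurable F ∧
  (∀ (x : ℝ) (m : ℤ) (w : S1), F (x + m, w) = fourier m w * F (x, w)) ∧
  ∀ᵐ x : ℝ, MemLp (fun w => F (x, w)) 2 haarAddCircle ∧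
    ∀ n : ℤ, fourierCoeff (fun w => F (x, w)) n = g (x - n)

-- deps: ZQ
def S_ZR : Prop := ∀ g : ℝ → ℂ, MemLp g 2 volume → ¬ g =ᵐ[volume] 0 → ∃ F : ℝ × S1 → ℂ,
  Measurable F ∧ (∀ (x : ℝ) (m : ℤ) (w : S1), F (x + m, w) = fourier m w * F (x, w)) ∧
  ¬ F =ᵐ[volume] 0 ∧ ∀ (ι : Type) (S : Finset ι) (pt : ι → ℝ × ℝ) (c : ι → ℂ),
    (∀ᵐ x : ℝ, ∑ i ∈ S, c i * tf (pt i) g x = 0) → ∀ᵐ y : ℝ × S1,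
      ∑ i ∈ S, c i * (ee ((pt i).2 * y.1) * F (y.1 - (pt i).1, y.2 - (pt i).2)) = 0

-- deps: ZR EXP
def S_ZK : Prop := ∀ (S : Finset (ℤ × ℤ)) (θ : ℝ × ℝ),
  (∀ c F, (∃ k ∈ S, c k ≠ 0) → ¬ Sol (PP S c) θ F) → Ind (Finset.insertNone S) (pp θ)

-- deps:
def S_MI : Prop := ∀ (ι : Type) (S : Finset ι) (pt : ι → ℝ × ℝ) (o u v : ℝ × ℝ),
  u.1 * v.2 - u.2 * v.1 = 1 → Ind S pt → Ind S fun i => o + (pt i).1 • u + (pt i).2 • v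

-- deps:
def S_ME : Prop := ∀ θ : ℝ × ℝ, Irr θ → ∀ φ : T2 → ℂ, Integrable φ →
  Tendsto (fun n : ℕ => ∫ y, ‖(n : ℂ)⁻¹ * ∑ k ∈ Finset.range n, φ (y + k • cT θ) - ∫ z, φ z‖)
    atTop (𝓝 0)

-- deps: ME
def S_CORE : Prop := ∀ θ : ℝ × ℝ, Irr θ → ∀ (Ψ : T2 → ℂ) (Φ : ℝ → T2 → ℂ), Integrable Ψ →
  (∀ η : ℝ, 0 < η → ∃ K s₀ : ℝ, 0 < s₀ ∧ ∀ s, 0 < s → s < s₀ → ∃ (G : Set T2) (E : T2 → ℝ≥0∞),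
    volume Gᶜ ≤ ENNReal.ofReal (K * s) ∧ AEMeasurable E ∧ ∫⁻ y, E y ≤ ENNReal.ofReal (η * s) ∧
      ∀ y ∈ G, ∃ ε : ℂ, ‖ε‖ₑ ≤ E y ∧ Φ s y = exp (s * Ψ y + ε)) →
  (∀ t : ℝ, 0 < t → IM fun n y => ∏ k ∈ Finset.range n, Φ (t / n) (y + k • cT θ)) →
    ∫ y, Ψ y = 0

-- deps: ME
def S_NV : Prop := ∀ (P : T2 → ℂ) (θ : ℝ × ℝ) (F : ℝ × S1 → ℂ), (∀ᵐ y, P y ≠ 0) → Irr θ →
  Sol P θ F → ∀ᵐ y, F y ≠ 0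

-- deps:
def S_RH : Prop := ∀ F : ℝ × S1 → ℂ, Measurable F →
  (∀ (x : ℝ) (m : ℤ) (w : S1), F (x + m, w) = fourier m w * F (x, w)) → (∀ᵐ y, F y ≠ 0) →
    ∀ h : ℕ → ℝ × ℝ, Tendsto h atTop (𝓝 0) → IM fun n => rho F (h n)

-- deps: NV RH
def S_EQ : Prop := ∀ (P : T2 → ℂ) (θ : ℝ × ℝ) (F : ℝ × S1 → ℂ), (∀ᵐ y, P y ≠ 0) → Irr θ →
  Sol P θ F → EQ P (-θ) (θ.2, -θ.1)

-- deps: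
def S_CI : Prop := ∀ r : ℂ, ‖r‖ ≠ 1 →
  ∫ t in (0 : ℝ)..1, ee t / (ee t - r) = if ‖r‖ < 1 then 1 else 0

-- deps: CI
def S_PH1 : Prop := ∀ r : ℂ, ∃ w : ℝ → ℝ, Continuous w ∧
  (∀ t, ee t ≠ r → w t = 2 * (2 * π * I * ee t / (ee t - r)).im) ∧
  ∫ t in (0 : ℝ)..1, |w t| ≤ 4 * π ∧ ∫ t in (0 : ℝ)..1, w t = 2 * π * Wn r ∧
  ∀ t₀ t₁ : ℝ, ee t₀ ≠ r → ee t₁ ≠ r → (ee t₁ - r) / conj (ee t₁ - r) =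
    (ee t₀ - r) / conj (ee t₀ - r) * exp (I * (∫ t in t₀..t₁, w t : ℝ))

-- deps: PH1 EXP
def S_PH : Prop := ∀ p : ℂ[X], p ≠ 0 → (∀ a b, IntervalIntegrable (om p) volume a b) ∧
  ∫ t in (0 : ℝ)..1, |om p t| ≤ 4 * π * p.natDegree ∧
  ∫ t in (0 : ℝ)..1, om p t = 2 * π * (p.roots.map Wn).sum ∧
  ∀ t₀ t₁ : ℝ, p.eval (ee t₀) ≠ 0 → p.eval (ee t₁) ≠ 0 → p.eval (ee t₁) / conj (p.eval (ee t₁)) =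
    p.eval (ee t₀) / conj (p.eval (ee t₀)) * exp (I * (∫ t in t₀..t₁, om p t : ℝ))

-- deps:
def S_AVG : Prop := ∀ (w : T2 → ℝ) (e : ℝ × ℝ) (C : ℝ), Measurable w →
  (∀ᵐ y, IntervalIntegrable (fun t : ℝ => w (y + cT (t • e))) volume 0 1 ∧
    ∫ t in (0 : ℝ)..1, |w (y + cT (t • e))| ≤ C) →
  Integrable w ∧ Integrable (fun y => ∫ t in (0 : ℝ)..1, w (y + cT (t • e))) ∧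
    ∫ y, ∫ t in (0 : ℝ)..1, w (y + cT (t • e)) = ∫ y, w y ∧
    ∀ η : ℝ, 0 < η → ∃ s₀ : ℝ, 0 < s₀ ∧ ∀ s, 0 < s → s < s₀ → ∃ E : T2 → ℝ≥0∞, AEMeasurable E ∧
      ∫⁻ y, E y ≤ ENNReal.ofReal (η * s) ∧
        ∀ᵐ y, ‖(∫ t in (0 : ℝ)..s, w (y + cT (t • e))) - s * w y‖ₑ ≤ E y

-- deps: CORE AVG
def S_F0 : Prop := ∀ (P : T2 → ℂ) (w : T2 → ℝ) (θ ν e : ℝ × ℝ) (C : ℝ), Measurable w →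
  (∀ᵐ y, IntervalIntegrable (fun t : ℝ => w (y + cT (t • e))) volume 0 1 ∧
    ∫ t in (0 : ℝ)..1, |w (y + cT (t • e))| ≤ C) →
  (∀ s : ℝ, ∀ᵐ y, P y ≠ 0 ∧ P (y + cT (s • e)) / conj (P (y + cT (s • e))) =
    P y / conj (P y) * exp (I * (∫ t in (0 : ℝ)..s, w (y + cT (t • e)) : ℝ))) →
  Irr θ → EQ P θ ν → ∫ y, w y = 4 * π * (ν.1 * e.1 + ν.2 * e.2)

-- deps: F0 AVG PH EXP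
def S_F1 : Prop := ∀ (P P' : T2 → ℂ) (θ ν e : ℝ × ℝ) (J lo hi : ℝ) (D : ℕ) (p : T2 → ℂ[X]),
  Continuous P → Continuous P' → (∀ᵐ y, P y ≠ 0) →
  (∀ y (t : ℝ), HasDerivAt (fun s : ℝ => P (y + cT (s • e))) (P' (y + cT (t • e))) t) →
  (∀ y (t : ℝ), P (y + cT (t • e)) = ee (-(J * t)) * (p y).eval (ee t)) →
  (∀ y, (p y).natDegree ≤ D) →
  (∀ᵐ y, lo ≤ ((p y).roots.map Wn).sum ∧ ((p y).roots.map Wn).sum ≤ hi) →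
  Irr θ → EQ P θ ν → lo ≤ 2 * (ν.1 * e.1 + ν.2 * e.2 + J) ∧ 2 * (ν.1 * e.1 + ν.2 * e.2 + J) ≤ hi

-- deps:
def S_SEP : Prop := ∀ (S : Finset (ℤ × ℤ)) (θ : ℝ × ℝ),
  θ ∉ convexHull ℝ ((fun k : ℤ × ℤ => ((k.1 : ℝ), (k.2 : ℝ))) '' S) →
    ∃ a b : ℤ, ∀ k ∈ S, ((a * k.1 + b * k.2 : ℤ) : ℝ) < a * θ.1 + b * θ.2

-- deps: F1 SEP EXP
def S_C3 : Prop := ∀ (S : Finset (ℤ × ℤ)) (c : ℤ × ℤ → ℂ) (θ : ℝ × ℝ), (∃ k ∈ S, c k ≠ 0) →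
  Irr θ → EQ (PP S c) (-θ) (θ.2, -θ.1) →
    θ ∈ convexHull ℝ ((fun k : ℤ × ℤ => ((k.1 : ℝ), (k.2 : ℝ))) '' S)

-- deps:
def S_ARC : Prop := ∀ (ζ : ℂ) (δ : ℝ), volume {x : S1 | ‖fourier 1 x - ζ‖ ≤ δ} ≤ ENNReal.ofReal δ

-- deps: ARC
def S_D2 : Prop := ∀ a b : ℝ, Tri a b → ∃ C : ℝ, 0 ≤ C ∧ ∀ t : ℝ, 0 < t →
  volume {y | ‖P3 1 a b y‖ ≤ t} ≤ ENNReal.ofReal (C * t ^ 2)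

-- deps:
def S_LC : Prop := ∀ (f : T2 → ℝ) (C : ℝ), 0 ≤ C → Measurable f → (∀ y, 0 ≤ f y) →
  (∀ t : ℝ, 0 < t → volume {y | f y ≤ t} ≤ ENNReal.ofReal (C * t ^ 2)) →
    Integrable (fun y => (f y)⁻¹) ∧ ∀ t : ℝ, 0 < t →
      ∫⁻ y in {y | t ≤ f y}, ENNReal.ofReal ((f y ^ 4)⁻¹) ≤ ENNReal.ofReal (8 * C / t ^ 2)

-- deps:
def S_TAY : Prop := ∀ a b ρ σ : ℝ, 0 < a → 0 < b → 2 * a ^ 2 * ρ = a ^ 2 + b ^ 2 - 1 →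
  a ^ 2 * (ρ ^ 2 + σ ^ 2) = b ^ 2 → ∃ C : ℝ, 0 < C ∧ ∀ r : ℝ, 0 < r → ∀ y,
    C * r ≤ ‖P3 1 a b y‖ → ∃ ε : ℂ, ‖ε‖ ≤ C * r ^ 4 / ‖P3 1 a b y‖ ^ 4 ∧
      Q2 a b (r • (ρ, 1)) y * Q2 a b (r • (σ, 0)) y = exp ((r ^ 2 : ℝ) * Psi a b y + ε)

-- deps: CI
def S_INX : Prop := ∀ (A : ℂ) (a : ℝ), 0 < a → ‖A‖ ≠ a → A ≠ 0 →
  ∫ x : S1, fourier 1 x / (A + a * fourier 1 x) ^ 2 = 0 ∧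
    ∫ x : S1, 1 / (A + a * fourier 1 x) ^ 2 = if a < ‖A‖ then 1 / A ^ 2 else 0

-- deps:
def S_INW : Prop := ∀ a b : ℝ, Tri a b →
  ∫ w : S1, (if a < ‖1 + b * fourier 1 w‖ then fourier 1 w / (1 + b * fourier 1 w) ^ 2 else 0) ≠ 0

-- deps: INX INW EXP
def S_INT : Prop := ∀ a b : ℝ, Tri a b → Integrable (Psi a b) → ∫ y, Psi a b y ≠ 0

-- deps: CORE D2 LC TAY INT
def S_F2 : Prop := ∀ (a b : ℝ) (θ ν : ℝ × ℝ), Tri a b → Irr θ → ¬ EQ (P3 1 a b) θ ν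

-- deps: F1 EXP
def S_NT : Prop := ∀ (a b c : ℂ) (θ ν : ℝ × ℝ), ¬ (a = 0 ∧ b = 0 ∧ c = 0) →
  ¬ (|‖a‖ - ‖c‖| < ‖b‖ ∧ ‖b‖ < ‖a‖ + ‖c‖) → Irr θ → Irrational ν.1 → ¬ EQ (P3 a b c) θ ν

-- deps: NT F2
def S_TRI : Prop := ∀ (a b c : ℂ) (θ ν : ℝ × ℝ), ¬ (a = 0 ∧ b = 0 ∧ c = 0) →
  Irr θ → Irrational ν.1 → ¬ EQ (P3 a b c) θ ν

-- deps: TRI
def S_END : Prop := ∀ (n : ℤ) (c : ℤ × ℤ → ℂ) (θ : ℝ × ℝ), n ≠ 0 → (∃ k ∈ S3 n, c k ≠ 0) →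
  Irr θ → ¬ EQ (PP (S3 n) c) (-θ) (θ.2, -θ.1)

-- deps:
def S_DKS : Prop := ∀ τ : ℝ, Irrational τ → ∃ q, DKq τ q

-- deps:
def S_FAC : Prop := ∀ p : ℂ[X], p ≠ 0 → ∃ (D : ℤ) (N : S1 → ℂ),
  (∀ w, p.eval (fourier 1 w) ≠ 0 →
    p.eval (fourier 1 w) / conj (p.eval (fourier 1 w)) = kap p * fourier D w * N w) ∧
  ∀ τ q, DKq τ q → ∀ ε : ℝ, 0 < ε → ∀ᶠ n in atTop, ∀ w : S1,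
    ‖∏ k ∈ Finset.range (q n), N (w + k • (τ : S1)) - 1‖ ≤ ε

-- deps:
def S_DK0 : Prop := ∀ (τ : ℝ) (q : ℕ → ℕ) (u N : S1 → ℂ) (κ : ℂ) (D : ℤ), DKq τ q →
  Measurable u → (∀ᵐ w, ‖u w‖ = 1) → ‖κ‖ = 1 →
  (∀ᵐ w, u (w + (τ : S1)) = κ * fourier D w * N w * u w) →
  (∀ ε : ℝ, 0 < ε → ∀ᶠ n in atTop, ∀ w : S1,
    ‖∏ k ∈ Finset.range (q n), N (w + k • (τ : S1)) - 1‖ ≤ ε) →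
  Tendsto (fun n => κ ^ q n) atTop (𝓝 1)

-- deps: FAC DK0 EXP
def S_DK : Prop := ∀ (τ : ℝ) (q : ℕ → ℕ) (K : S1 → ℂ) (p : ℂ[X]) (C : ℂ) (j : ℤ),
  Irrational τ → DKq τ q → Measurable K → ¬ K =ᵐ[volume] 0 → p ≠ 0 → C ≠ 0 →
  (∀ᵐ w, C * fourier j w * K (w + (τ : S1)) = p.eval (fourier 1 w) * K w) →
  Tendsto (fun n => (kap p * (conj C / C)) ^ q n) atTop (𝓝 1)

-- deps: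
def S_NSUB : Prop := ∀ q : ℕ → ℕ, Tendsto q atTop atTop →
  volume {y : ℝ | Tendsto (fun n => ee y ^ q n) atTop (𝓝 1)} = 0

-- deps:
def S_ALG : Prop := ∀ p : LP[X], p ≠ 0 → ∃ ψ : LP[X], ψ ≠ 0 ∧
  ∀ x : ℝ, ev x p.leadingCoeff ≠ 0 → (sp ψ x).eval (kap (sp p x)) = 0

-- deps: NUL EXP NSUB ALG
def S_KN : Prop := ∀ (p : LP[X]) (τ φ : ℝ) (q : ℕ → ℕ), p ≠ 0 → Irrational τ →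
  Tendsto q atTop atTop → ∀ᵐ x : ℝ, sp p x ≠ 0 ∧ ¬ Tendsto
    (fun n => (kap (sp p x) * (conj (ee (φ + τ * x)) / ee (φ + τ * x))) ^ q n) atTop (𝓝 1)

-- deps:
def S_PL : Prop := ∀ (S : Finset (ℤ × ℤ)) (c : ℤ × ℤ → ℂ) (N : ℤ), (∀ k ∈ S, k.1 ≤ N) →
  (∀ (x : ℝ) (w : S1), (sp (PL S c N) x).eval (fourier 1 w) = fourier N w * PP S c (x, w)) ∧
    ∀ j : ℕ, (PL S c N).coeff j ≠ 0 ↔ ∃ k ∈ S, c k ≠ 0 ∧ (j : ℤ) = N - k.1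

-- deps:
def S_ITER : Prop := ∀ (S : Finset (ℤ × ℤ)) (c : ℤ × ℤ → ℂ) (θ : ℝ × ℝ) (F : ℝ × S1 → ℂ)
  (d : ℕ) (p : ℤ), Sol (PP S c) θ F → d * θ.1 = p →
    ∃ (cc : ℕ → ℤ × ℤ → ℂ) (φ : ℝ), (∀ i k, cc i k = 0 ↔ c k = 0) ∧ ∀ᵐ y : ℝ × S1,
      ee (φ + d * θ.2 * y.1) * fourier (-p) y.2 * F (y.1, y.2 + ((-(d * θ.2) : ℝ) : S1)) =
        (∏ i ∈ Finset.range d, PP S (cc i) (y.1, y.2)) * F y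

-- deps: ITER PL DKS DK KN
def S_B2 : Prop := ∀ (S : Finset (ℤ × ℤ)) (c : ℤ × ℤ → ℂ) (θ : ℝ × ℝ) (F : ℝ × S1 → ℂ),
  (∃ k ∈ S, c k ≠ 0) → ¬ Irrational θ.1 → Irrational θ.2 → ¬ Sol (PP S c) θ F

-- deps: ITER PL EXP
def S_B0 : Prop := ∀ (S : Finset (ℤ × ℤ)) (c : ℤ × ℤ → ℂ) (θ : ℝ × ℝ) (F : ℝ × S1 → ℂ),
  (∃ k ∈ S, c k ≠ 0) → ¬ Irrational θ.1 → ¬ Irrational θ.2 → Sol (PP S c) θ F →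
    ∀ k ∈ S, c k ≠ 0 → (k.1 : ℝ) = θ.1

-- deps: EXP
def S_B1 : Prop := ∀ (S : Finset (ℤ × ℤ)) (c : ℤ × ℤ → ℂ) (θ : ℝ × ℝ) (F : ℝ × S1 → ℂ),
  (∃ k ∈ S, c k ≠ 0) → (∀ k ∈ S, ((k.1 : ℝ), (k.2 : ℝ)) ≠ θ) → ¬ Irrational θ.2 →
    (∀ k ∈ S, c k ≠ 0 → (k.1 : ℝ) = θ.1) → ¬ Sol (PP S c) θ F

-- deps: ZK MI B0 B1 B2
def S_BB : Prop := ∀ (S : Finset (ℤ × ℤ)) (θ : ℝ × ℝ), (∀ k ∈ S, ((k.1 : ℝ), (k.2 : ℝ)) ≠ θ) →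
  ¬ Irr θ → Ind (Finset.insertNone S) (pp θ)

end Pool.Agent.P.MP_2a8753_an.H
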