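import Pool.Agent.P.MP_2a8753_an.H.Two2

/-! Points on two transversal lines, and four points. -/

set_option autoImplicit false
set_option linter.unusedSectionVars false

namespace Pool.Agent.P.MP_2a8753_an.H

open MeasureTheory Filter Set Topology AddCircle Complex Polynomial
open scoped Real ComplexConjugate ENNReal Pointwise

lemma wn_int (s : Multiset ℂ) : ∃ n : ℤ, (s.map Wn).sum = n := by
  induction s using Multiset.induction_on with
  | empty => exact ⟨0, by simp⟩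
  | cons a s ih =>
    obtain ⟨n, hn⟩ := ih
    rw [Multiset.map_cons, Multiset.sum_cons, hn, Wn]
    split_ifs
    exacts [⟨2 + n, by push_cast; rfl⟩, ⟨1 + n, by push_cast; rfl⟩, ⟨0 + n, by push_cast; rfl⟩]

lemma wn_rot (p : ℂ[X]) {κ l : ℂ} (hκ : κ ≠ 0) (hl : ‖l‖ = 1) :
    ((C κ * p.comp (C l * X + C 0)).roots.map Wn).sum = (p.roots.map Wn).sum := by
  have h0 : l ≠ 0 := by rw [← norm_ne_zero_iff, hl]; exact one_ne_zero
  rw [roots_C_mul _ hκ, ← p.map_roots_comp_C_mul_X_add_C l 0 h0.isUnit, Multiset.map_map]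
  refine congrArg _ (Multiset.map_congr rfl fun x _ => ?_)
  simp [Wn, hl]

theorem thm_D (S T : Finset (ℤ × ℤ)) (θ : ℝ × ℝ) (hS : ∀ k ∈ S, k.2 = 0) (hT : ∀ l ∈ T, l.1 = 0)
    (h : ∀ k ∈ S, ∀ l ∈ T, ((k.1 : ℝ), (k.2 : ℝ)) ≠ (θ.1 + l.1, θ.2 + l.2)) :
    Ind (S.disjSum T) (pq θ) := by
  by_cases hI : Irr θ
  swap
  · exact bb2 S T θ h hI
  refine zk2 S T θ fun c d F hc hd hF => ?_
  obtain ⟨c', h3, h5, h4⟩ := ph_PP hc hd
  obtain ⟨v, hv, hv'⟩ := S.exists_min_image (fun k => k.1) (let ⟨k, hk, _⟩ := hc; ⟨k, hk⟩)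
  set p : ℂ[X] := ∑ k ∈ S, C (c k) * X ^ (k.1 - v.1).toNat with hp
  obtain ⟨n, hn⟩ := wn_int p.roots
  have h := f1p (PP (S - T) c') (fun y => ∑ k ∈ S - T, c' k * (fourier k.2 y.1 * fourier (-k.1) y.2) *
    (2 * π * I * (((1 : ℤ) * k.1 + (0 : ℤ) * k.2 : ℤ) : ℝ))) (-θ) (θ.2, -θ.1) ((0 : ℤ), -(1 : ℤ))
    (-v.1) n n p.natDegree
    (fun y => C (conj (PP T d y) * fourier (-v.1) y.2) * p.comp (C (fourier (-1) y.2) * X + C 0))
    (continuous_PP _ _) (by fun_prop) (a_EXP.2.2.2.1 _ c' h3) (fun y t => ?_) (fun y t => ?_)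
    (fun y => (natDegree_C_mul_le _ _).trans (natDegree_comp_le.trans
      ((Nat.mul_le_mul_left _ natDegree_linear_le).trans (mul_one _).le)))
    ((a_EXP.2.2.2.1 T d hd).mono fun y hy => ?_) (fun a b m e => ?_) h4
    (a_EQ _ θ F (h4.mono fun y hy => hy.1) hI hF)
  · refine absurd (hI 2 0 (n + 2 * v.1) ?_).1 (by norm_num)
    push_cast at h ⊢
    linarith [h.1, h.2]
  · simp only [PP, c3_chi]
    refine HasDerivAt.fun_sum fun k _ => ?_
    exact (((hasDerivAt_ee _ t).const_mul _).const_mul (c' k)).congr_deriv (by ring)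
  · have e : PP T d (y + cT (t • (((0 : ℤ) : ℝ), -((1 : ℤ) : ℝ)))) = PP T d y :=
      Finset.sum_congr rfl fun l hl => by rw [c3_chi, hT l hl]; simp [ee_zero]
    rw [h5, e, PP, eval_mul, eval_C, eval_comp, hp, eval_finsetSum, Finset.sum_mul, Finset.mul_sum,
      Finset.mul_sum]
    refine Finset.sum_congr rfl fun k hk => ?_
    obtain ⟨m, hm⟩ := Int.eq_ofNat_of_zero_le (sub_nonneg.2 (hv' k hk))
    rw [c3_chi, hm, Int.toNat_natCast, hS k hk, sub_eq_iff_eq_add'.1 hm]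
    simp only [eval_mul, eval_C, eval_pow, eval_X, eval_add, add_zero, mul_pow, b0_pow, ← ee_nat_mul,
      fourier_zero, neg_add, fourier_add, one_mul, mul_zero, Int.cast_add, add_mul, ee_add, neg_mul,
      neg_neg, Int.cast_natCast, mul_neg, mul_one]
    ring
  · rw [wn_rot p (mul_ne_zero ((_root_.map_ne_zero conj).2 hy) (by
      rw [← norm_ne_zero_iff, norm_fourier]; exact one_ne_zero)) (norm_fourier _ _), hn]
    exact ⟨le_rfl, le_rfl⟩
  · exact hI a b (-m) (by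
      simp only [Prod.fst_neg, Prod.snd_neg] at e
      push_cast
      linarith)

theorem lines (o o' u v : ℝ × ℝ) (hd : u.1 * v.2 - u.2 * v.1 = 1) (A B : Finset ℤ)
    (hAB : ∀ k ∈ A, ∀ l ∈ B, o + (k : ℝ) • u ≠ o' + (l : ℝ) • v) :
    Ind (A.disjSum B) (Sum.elim (fun k => o + (k : ℝ) • u) fun l => o' + (l : ℝ) • v) := by
  set w : ℝ × ℝ := o' - o with hw
  set r : ℝ := w.1 * v.2 - w.2 * v.1 with hr
  set s : ℝ := u.1 * w.2 - u.2 * w.1 with hs
  have e3 : o + r • u + s • v = o' := by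
    have : r • u + s • v = w := by
      ext
      · simp only [Prod.fst_add, Prod.smul_fst, smul_eq_mul, hr, hs]
        linear_combination w.1 * hd
      · simp only [Prod.snd_add, Prod.smul_snd, smul_eq_mul, hr, hs]
        linear_combination w.2 * hd
    rw [add_assoc, this, hw, add_sub_cancel]
  have H := thm_D (A.image fun k => (k, 0)) (B.image fun l => (0, l)) (r, s) (by simp) (by simp) (by
    simp only [Finset.forall_mem_image]
    intro k hk l hl e
    obtain ⟨e1, e2⟩ := Prod.mk.inj e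
    simp only [Int.cast_zero, add_zero] at e1 e2
    refine hAB k hk l hl ?_
    rw [← e3, e1, add_assoc (o + r • u), ← add_smul, ← e2, zero_smul, add_zero])
  refine ind_sub (Sum.map (fun k => (k, 0)) fun l => (0, l)) ?_
    (Function.Injective.sumMap (Prod.mk_left_injective 0) (Prod.mk_right_injective 0)).injOn ?_
    (p_MI _ _ _ o u v hd H)
  · rintro (k | k) hk
    · exact Finset.inl_mem_disjSum.2 (Finset.mem_image_of_mem _ (Finset.inl_mem_disjSum.1 hk))
    · exact Finset.inr_mem_disjSum.2 (Finset.mem_image_of_mem _ (Finset.inr_mem_disjSum.1 hk))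
  · rintro (k | k) -
    · simp [pq]
    · simp [pq, ← e3, add_smul, add_assoc]

/-- The determinant of two difference vectors. -/
def dt (p : Fin 4 → ℝ × ℝ) (i j k l : Fin 4) : ℝ :=
  ((p i).1 - (p j).1) * ((p k).2 - (p l).2) - ((p i).2 - (p j).2) * ((p k).1 - (p l).1)

theorem four_a (p : Fin 4 → ℝ × ℝ) (hp : Function.Injective p) (n : ℤ) (hn : n ≠ 0)
    (h : dt p 1 0 2 0 = n) : Ind Finset.univ p := fun g hg hg0 c hc i _ =>
  congrFun (thm_A p_MI (thm_A0 a_EXP a_ZK a_EQ a_END a_BB) p hp n hn h g hg hg0 c hc) i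

theorem four_b (p : Fin 4 → ℝ × ℝ) (hp : Function.Injective p) (n : ℤ) (hn : n ≠ 0)
    (h : dt p 1 0 3 2 = n) : Ind Finset.univ p := by
  have hn' : (n : ℝ) ≠ 0 := Int.cast_ne_zero.2 hn
  have e : p 2 + (n : ℝ) • (n : ℝ)⁻¹ • (p 3 - p 2) = p 3 := by simp [smul_smul, hn']
  have H := lines (p 0) (p 2) (p 1 - p 0) ((n : ℝ)⁻¹ • (p 3 - p 2)) (by
    simp only [Prod.fst_sub, Prod.snd_sub, Prod.smul_fst, Prod.smul_snd, smul_eq_mul]
    unfold dt at h
    field_simp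
    linear_combination h) {0, 1} {0, n} (by
    simp only [Finset.mem_insert, Finset.mem_singleton]
    rintro k (rfl | rfl) l (rfl | rfl) <;> simp [e, hp.eq_iff])
  refine ind_sub ![.inl 0, .inl 1, .inr 0, .inr n] (fun i _ => ?_) (fun i _ j _ => ?_)
    (fun i _ => ?_) H
  · fin_cases i <;> simp
  · fin_cases i <;> fin_cases j <;> simp [hn, hn.symm]
  · fin_cases i <;> simp [e]

theorem four (p : Fin 4 → ℝ × ℝ) (hp : Function.Injective p) (i j k l : Fin 4) (n : ℤ) (hn : n ≠ 0)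
    (h : dt p i j k l = n) : Ind Finset.univ p := by
  have key : ∀ i j k l : Fin 4, i = j ∨ k = l ∨ (i = k ∧ j = l) ∨ (i = l ∧ j = k) ∨
      ∃ σ : Equiv.Perm (Fin 4), (σ 1 = i ∧ σ 0 = j ∧ σ 3 = k ∧ σ 2 = l) ∨
        (σ 1 = i ∧ σ 0 = j ∧ σ 2 = k ∧ σ 0 = l) ∨ (σ 1 = i ∧ σ 0 = j ∧ σ 0 = k ∧ σ 2 = l) ∨
        (σ 0 = i ∧ σ 1 = j ∧ σ 2 = k ∧ σ 0 = l) ∨ (σ 0 = i ∧ σ 1 = j ∧ σ 0 = k ∧ σ 2 = l) := by
    decide
  have hn' : (n : ℝ) ≠ 0 := Int.cast_ne_zero.2 hn
  have tr : ∀ σ : Equiv.Perm (Fin 4), Ind Finset.univ (p ∘ σ) → Ind Finset.univ p := fun σ H =>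
    ind_sub σ.symm (fun _ _ => Finset.mem_univ _) σ.symm.injective.injOn (fun i _ => by simp) H
  unfold dt at h
  rcases key i j k l with rfl | rfl | ⟨rfl, rfl⟩ | ⟨rfl, rfl⟩ | ⟨σ, H⟩
  · exact (hn' (by linear_combination -h)).elim
  · exact (hn' (by linear_combination -h)).elim
  · exact (hn' (by linear_combination -h)).elim
  · exact (hn' (by linear_combination -h)).elim
  have hσ := hp.comp σ.injective
  rcases H with ⟨rfl, rfl, rfl, rfl⟩ | ⟨rfl, rfl, rfl, rfl⟩ | ⟨rfl, rfl, rfl, rfl⟩ |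
    ⟨rfl, rfl, rfl, rfl⟩ | ⟨rfl, rfl, rfl, rfl⟩
  · exact tr σ (four_b _ hσ n hn h)
  · exact tr σ (four_a _ hσ n hn h)
  · exact tr σ (four_a _ hσ (-n) (neg_ne_zero.2 hn) (by
      simp only [dt, Function.comp_apply]; push_cast; linarith))
  · exact tr σ (four_a _ hσ (-n) (neg_ne_zero.2 hn) (by
      simp only [dt, Function.comp_apply]; push_cast; linarith))
  · exact tr σ (four_a _ hσ n hn (by simp only [dt, Function.comp_apply]; linarith))

end Pool.Agent.P.MP_2a8753_an.H
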