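import Pool.Agent.P.MP_2a8753_an.H.Iface

/-! Exponential sums and the Zak transform. -/

set_option autoImplicit false
set_option linter.unusedSectionVars false

namespace Pool.Agent.P.MP_2a8753_an.H

open MeasureTheory Filter Set Topology AddCircle Complex Polynomial
open scoped Real ComplexConjugate ENNReal

section LL

lemma ll_loc {φ : ℝ × ℝ → ℂ} (hφ : ContDiff ℝ 1 φ) {p₀ : ℝ × ℝ}
    (ha : fderiv ℝ φ p₀ (1, 0) ≠ 0) : ∃ U ∈ 𝓝 p₀, ∃ C : ℝ, 0 ≤ C ∧ ∀ p ∈ U, ∀ q ∈ U,
      φ p = 0 → φ q = 0 → |p.1 - q.1| ≤ C * |p.2 - q.2| := by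
  set L := fderiv ℝ φ p₀
  have a0 : 0 < ‖L (1, 0)‖ := norm_pos_iff.2 ha
  have h := (hφ.contDiffAt.hasStrictFDerivAt (x := p₀) one_ne_zero).isLittleO.bound
    (half_pos a0)
  rw [nhds_prod_eq] at h
  obtain ⟨U, hU, H⟩ := mem_prod_self_iff.1 h
  refine ⟨U, hU, 2 * ‖L (0, 1)‖ / ‖L (1, 0)‖ + 1, by positivity, fun p hp q hq h1 h2 => ?_⟩
  have h3 : ‖φ p - φ q - L (p - q)‖ ≤ ‖L (1, 0)‖ / 2 * ‖p - q‖ := H (mk_mem_prod hp hq)
  have e : p - q = (p.1 - q.1) • ((1 : ℝ), (0 : ℝ)) + (p.2 - q.2) • ((0 : ℝ), (1 : ℝ)) := by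
    ext <;> simp
  have h4 : ‖p - q‖ ≤ |p.1 - q.1| + |p.2 - q.2| := by
    rw [Prod.norm_def]
    exact max_le (le_add_of_nonneg_right (abs_nonneg _)) (le_add_of_nonneg_left (abs_nonneg _))
  have h5 : |p.1 - q.1| * ‖L (1, 0)‖ ≤ ‖L (p - q)‖ + |p.2 - q.2| * ‖L (0, 1)‖ := by
    have : (p.1 - q.1) • L (1, 0) = L (p - q) - (p.2 - q.2) • L (0, 1) := by
      rw [e, map_add, map_smul, map_smul]; simp
    rw [← Real.norm_eq_abs, ← Real.norm_eq_abs, ← norm_smul, ← norm_smul, this]
    exact norm_sub_le _ _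
  rw [h1, h2, sub_zero, zero_sub, norm_neg] at h3
  have h6 := mul_le_mul_of_nonneg_left h4 (half_pos a0).le
  rw [div_add_one a0.ne', div_mul_eq_mul_div, le_div_iff₀ a0]
  nlinarith

lemma ll_null {W : Set (ℝ × ℝ)} {C : ℝ} (hC : 0 ≤ C)
    (h : ∀ p ∈ W, ∀ q ∈ W, |p.1 - q.1| ≤ C * |p.2 - q.2|) (h0 : volume (Prod.snd '' W) = 0) :
    volume (Prod.fst '' W) = 0 := by
  let g : ℝ → ℝ := fun y => (Function.invFunOn Prod.snd W y).1
  have hg : LipschitzOnWith ⟨C, hC⟩ g (Prod.snd '' W) := by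
    refine LipschitzOnWith.of_dist_le_mul fun y hy z hz => ?_
    have := h _ (Function.invFunOn_mem hy) _ (Function.invFunOn_mem hz)
    rw [Function.invFunOn_eq hy, Function.invFunOn_eq hz] at this
    exact this
  have hs : Prod.fst '' W ⊆ g '' (Prod.snd '' W) := by
    rintro _ ⟨p, hp, rfl⟩
    have hy : p.2 ∈ Prod.snd '' W := ⟨p, hp, rfl⟩
    refine ⟨p.2, hy, ?_⟩
    have := h _ (Function.invFunOn_mem hy) p hp
    rw [Function.invFunOn_eq hy, sub_self, abs_zero, mul_zero] at this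
    exact sub_eq_zero.1 (abs_nonpos_iff.1 this)
  have := hg.hausdorffMeasure_image_le zero_le_one
  rw [hausdorffMeasure_real, h0, mul_zero] at this
  exact measure_mono_null hs (nonpos_iff_eq_zero.1 this)

theorem p_LL :
    S_LL := by
  intro φ hφ N hN
  let Z : Set (ℝ × ℝ) := {p | p.2 ∈ N ∧ φ p = 0 ∧ fderiv ℝ φ p (1, 0) ≠ 0}
  have H : ∀ p : ℝ × ℝ, ∃ U, p ∈ Z → U ∈ 𝓝[Z] p ∧ volume (Prod.fst '' U) = 0 := by
    intro p
    by_cases hp : p ∈ Z
    · obtain ⟨U, hU, C, hC, h⟩ := ll_loc hφ hp.2.2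
      refine ⟨Z ∩ U, fun _ => ⟨inter_mem_nhdsWithin _ hU, ll_null hC
        (fun a ha b hb => h a ha.2 b hb.2 ha.1.2.1 hb.1.2.1) (measure_mono_null ?_ hN)⟩⟩
      rintro _ ⟨a, ha, rfl⟩
      exact ha.1.1
    · exact ⟨∅, fun h => absurd h hp⟩
  choose U hU using H
  obtain ⟨t, ht, tc, hc⟩ := TopologicalSpace.countable_cover_nhdsWithin fun p hp => (hU p hp).1
  refine measure_mono_null (t := ⋃ p ∈ t, Prod.fst '' U p) ?_
    ((measure_biUnion_null_iff tc).2 fun p hp => (hU p (ht hp)).2)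
  rintro s ⟨y, hy, h⟩
  obtain ⟨p, hp, h'⟩ := mem_iUnion₂.1 (hc (show (s, y) ∈ Z from ⟨hy, h⟩))
  exact mem_iUnion₂.2 ⟨p, hp, _, h', rfl⟩

end LL

section NUL

lemma nul_fd {φ : ℝ × ℝ → ℂ} (h : ContDiff ℝ 1 φ) {s y : ℝ} {d : ℂ}
    (hd : HasDerivAt (fun t => φ (t, y)) d s) : fderiv ℝ φ (s, y) (1, 0) = d :=
  ((h.differentiable one_ne_zero (s, y)).hasFDerivAt.comp_hasDerivAt (f := fun t => (t, y)) s
    ((hasDerivAt_id s).prodMk (hasDerivAt_const s y))).unique hd

theorem p_NUL (hLL : S_LL) :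
    S_NUL := by
  intro ι S c l m N hc hl hN
  classical
  induction S using Finset.induction_on generalizing c l with
  | empty => simp at hc
  | insert a S ha ih =>
    by_cases h : ∃ i ∈ S, c i ≠ 0
    · have ne : ∀ i ∈ S, l i - l a ≠ 0 := fun i hi => sub_ne_zero.2 fun e =>
        ha (hl (by simp [hi]) (by simp) e ▸ hi)
      have h1 := ih (fun i => c i * (2 * π * I * (l i - l a : ℝ))) (fun i => l i - l a)
        (h.imp fun i hi => ⟨hi.1, mul_ne_zero hi.2 (mul_ne_zero two_pi_I_ne_zero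
          (ofReal_ne_zero.2 (ne i hi.1)))⟩)
        (fun i hi j hj e => hl (by simp [Finset.mem_coe.1 hi]) (by simp [Finset.mem_coe.1 hj])
          (sub_left_injective e))
      have hφ : ContDiff ℝ 1 fun p : ℝ × ℝ =>
          c a * ee (m a * p.2) + ∑ i ∈ S, c i * ee ((l i - l a) * p.1 + m i * p.2) := by
        have := contDiff_ee.of_le (m := 1) (by exact_mod_cast le_top)
        exact (contDiff_const.mul (this.comp (by fun_prop))).add
          (ContDiff.sum fun i _ => contDiff_const.mul (this.comp (by fun_prop)))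
      refine measure_mono_null (fun s ⟨y, hy, e⟩ => ?_) (measure_union_null h1 (hLL _ hφ N hN))
      by_contra hn
      simp only [mem_union, mem_ofPred_eq, not_or, not_exists, not_and, not_not] at hn
      refine hn.1 y hy ?_
      rw [← hn.2 y hy, eq_comm]
      · refine nul_fd hφ (HasDerivAt.const_add (c a * ee (m a * y)) (HasDerivAt.fun_sum
          (A := fun i t => c i * ee ((l i - l a) * t + m i * y)) fun i _ => ?_))
        simp only [ee_add]
        refine (((hasDerivAt_ee (l i - l a) s).mul_const (ee (m i * y))).const_mul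
          (c i)).congr_deriv ?_
        ring
      · refine mul_left_cancel₀ (ee_ne_zero (l a * s)) ?_
        rw [Finset.sum_insert ha, ee_add] at e
        rw [mul_zero, ← e, mul_add, Finset.mul_sum]
        congr 1
        · ring
        · refine Finset.sum_congr rfl fun i _ => ?_
          rw [mul_left_comm, ← ee_add]
          congr 2
          ring
    · push Not at h
      obtain ⟨i, hi, h0⟩ := hc
      obtain rfl : i = a := (Finset.mem_insert.1 hi).resolve_right fun e => h0 (h i e)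
      refine measure_mono_null (fun s ⟨y, _, e⟩ => ?_) measure_empty
      rw [Finset.sum_insert ha, Finset.sum_eq_zero fun j hj => by rw [h j hj, zero_mul],
        add_zero] at e
      exact mul_ne_zero h0 (ee_ne_zero _) e

end NUL

section EXP

theorem exp_shift (n : ℤ) (w : S1) (x : ℝ) :
    fourier n (w + (x : S1)) = fourier n w * ee (n * x) := by
  rw [← fourier_coe_ee, fourier_apply, fourier_apply, fourier_apply, smul_add, toCircle_add,
    Circle.coe_mul]

theorem p_EXP (hNUL : S_NUL) :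
    S_EXP := by
  have h1 : ∀ (ι : Type) (S : Finset ι) (c : ι → ℂ) (l : ι → ℝ), (∃ i ∈ S, c i ≠ 0) → InjOn l S →
      ∀ᵐ s : ℝ, ∑ i ∈ S, c i * ee (l i * s) ≠ 0 := fun ι S c l h h' => by
    have := hNUL ι S c l (fun _ => 0) {0} h h' (measure_singleton _)
    rw [ae_iff]
    simpa using this
  have h4 : ∀ (S : Finset (ℤ × ℤ)) (c : ℤ × ℤ → ℂ), (∃ k ∈ S, c k ≠ 0) →
      ∀ᵐ y : T2, PP S c y ≠ 0 := fun S c ⟨k, hk, hc⟩ => by
    have a0 : InjOn (fun k : ℤ × ℤ => (k.2 : ℝ) - k.1 * √2) S := fun a _ b _ e => by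
      have e1 : a.1 = b.1 := by
        by_contra hn
        refine (irrational_sqrt_two.intCast_mul (sub_ne_zero.2 hn)).ne_int (a.2 - b.2) ?_
        push_cast
        linarith
      simp only [e1, sub_left_inj, Int.cast_inj] at e
      exact Prod.ext e1 e
    have a1 : ∀ y : T2, ∀ᵐ t : ℝ, PP S c (y + cT (t, √2 * t)) ≠ 0 := fun y => by
      filter_upwards [h1 _ S (fun k => c k * (fourier k.2 y.1 * fourier (-k.1) y.2)) _
        ⟨k, hk, by simp [hc, fourier_apply]⟩ a0] with t ht
      refine fun e => ht (Eq.trans (Finset.sum_congr rfl fun k _ => ?_) e)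
      simp only [cT, Prod.fst_add, Prod.snd_add, exp_shift]
      rw [show ((k.2 : ℝ) - k.1 * √2) * t = k.2 * t + (-k.1 : ℤ) * (√2 * t) by push_cast; ring,
        ee_add]
      ring
    obtain ⟨t, ht⟩ := ((Measure.ae_ae_comm (μ := volume) (ν := volume)
      (p := fun (y : T2) (t : ℝ) => PP S c (y + cT (t, √2 * t)) ≠ 0)
      (isOpen_ne_fun (by fun_prop) continuous_const).measurableSet).1 (.of_forall a1)).exists
    simpa using (measurePreserving_sub_right volume (cT (t, √2 * t))).quasiMeasurePreserving.ae ht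
  refine ⟨h1, fun f hf => ?_, fun p hp => ?_, h4, fun a b c h => ?_⟩
  · obtain ⟨n, hn⟩ := Finsupp.support_nonempty_iff.2 (AddMonoidAlgebra.coeff_eq_zero.not.2 hf)
    simpa only [ev_eq] using h1 ℤ f.coeff.support f.coeff (fun n => n)
      ⟨n, hn, Finsupp.mem_support_iff.1 hn⟩ Int.cast_injective.injOn
  · have a1 : ∀ᵐ t : ℝ, p.eval (ee t) ≠ 0 := by
      simpa only [eval_eq_sum, Polynomial.sum, ee_nat_mul] using h1 ℕ p.support p.coeff (fun n => n)
        ⟨_, natDegree_mem_support_of_nonzero hp, leadingCoeff_ne_zero.2 hp⟩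
        Nat.cast_injective.injOn
    refine ⟨a1, (mp_sec.quasiMeasurePreserving.ae (ae_restrict_of_ae a1)).mono fun w hw => ?_⟩
    rwa [← coe_sec w, fourier_coe_ee, Int.cast_one, one_mul]
  · filter_upwards [h4 {(0, 0), (0, 1), (-1, 0)}
      (fun k => if k.1 = -1 then c else if k.2 = 1 then b else a) (by simpa using not_and_or.1 h |>.imp_right not_and_or.1)]
      with y hy
    simpa [PP, P3, add_assoc, -fourier_neg'] using hy

end EXP

section ZAK

/-- Measurable selection of indices. -/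
lemma zak_sel (p : ℕ → ℕ → ℝ → Prop) (hp : ∀ j n, MeasurableSet {x | p j n x}) :
    ∃ N : ℕ → ℝ → ℕ, (∀ j, Measurable (N j)) ∧ ∀ j x, (∃ n, p j n x) → p j (N j x) x := by
  classical
  have hq : ∀ j x, ∃ n, p j n x ∨ ¬ ∃ n, p j n x := fun j x => by
    by_cases h : ∃ n, p j n x
    · exact h.imp fun n hn => Or.inl hn
    · exact ⟨0, Or.inr h⟩
  refine ⟨fun j x => Nat.find (hq j x), fun j => measurable_find (hq j) fun n =>
    ((hp j n).union (MeasurableSet.iUnion (hp j)).compl).congr ?_, fun j x h =>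
    (Nat.find_spec (hq j x)).resolve_right (not_not.2 h)⟩
  ext x
  simp

/-- A jointly measurable version of fibrewise limits in `L²`. -/
lemma zak_lim (G : ℕ → ℝ × S1 → ℂ) (hG : ∀ n, Measurable (G n)) :
    ∃ F : ℝ × S1 → ℂ, Measurable F ∧ ∀ (x : ℝ) (K : S1 → ℂ), AEStronglyMeasurable K haarAddCircle →
      Tendsto (fun n => eLpNorm ((fun w => G n (x, w)) - K) 2 haarAddCircle) atTop (𝓝 0) →
      (fun w => F (x, w)) =ᵐ[haarAddCircle] K := by
  let D : ℕ → ℕ → ℝ → ℝ≥0∞ := fun n m x =>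
    eLpNorm ((fun w => G n (x, w)) - fun w => G m (x, w)) 2 haarAddCircle
  have hD : ∀ n m, Measurable (D n m) := fun n m => by
    simp only [D, eLpNorm_eq_lintegral_rpow_enorm_toReal two_ne_zero ENNReal.ofNat_ne_top]
    exact (Measurable.lintegral_prod_right' (ν := haarAddCircle)
      (((hG n).sub (hG m)).enorm.pow_const _)).pow_const _
  let p : ℕ → ℕ → ℝ → Prop := fun j n x => ∀ m, n ≤ m → D n m x ≤ 2⁻¹ ^ j
  have hp : ∀ j n, MeasurableSet {x | p j n x} := fun j n => by
    simp only [p, ofPred_forall]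
    exact .iInter fun m => .iInter fun _ => measurableSet_le (hD n m) measurable_const
  obtain ⟨N, hN, hN'⟩ := zak_sel p hp
  let f : ℕ → ℝ × S1 → ℂ := fun j y => G (N j y.1) y
  have hf : ∀ j, Measurable (f j) := fun j =>
    (measurable_from_prod_countable_left (f := fun z : (ℝ × S1) × ℕ => G z.2 z.1) hG).comp
      (measurable_id.prodMk ((hN j).comp measurable_fst))
  refine ⟨fun y => limUnder atTop fun j => f j y,
    (StronglyMeasurable.limUnder fun j => (hf j).stronglyMeasurable).measurable,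
    fun x K hK ht => ?_⟩
  have mG : ∀ n, AEStronglyMeasurable (fun w => G n (x, w)) haarAddCircle := fun n =>
    ((hG n).comp measurable_prodMk_left).aestronglyMeasurable
  have mf : ∀ j, AEStronglyMeasurable (fun w => f j (x, w)) haarAddCircle := fun j =>
    ((hf j).comp measurable_prodMk_left).aestronglyMeasurable
  have tri : ∀ {a b c : S1 → ℂ}, AEStronglyMeasurable a haarAddCircle →
      AEStronglyMeasurable b haarAddCircle → AEStronglyMeasurable c haarAddCircle →
      eLpNorm (a - c) 2 haarAddCircle ≤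
        eLpNorm (a - b) 2 haarAddCircle + eLpNorm (b - c) 2 haarAddCircle := fun ha hb hc => by
    rw [← sub_add_sub_cancel]
    exact eLpNorm_add_le (ha.sub hb) (hb.sub hc) one_le_two
  have h1 : ∀ j, ∃ n, p j n x := fun j => by
    obtain ⟨n, hn⟩ := eventually_atTop.1 (ht.eventually_le_const
      (ENNReal.pow_pos (ENNReal.inv_pos.2 ENNReal.ofNat_ne_top) (j + 1) : 0 < (2⁻¹ : ℝ≥0∞) ^ (j + 1)))
    refine ⟨n, fun m hm => (tri (mG n) hK (mG m)).trans ?_⟩
    rw [eLpNorm_sub_comm K]
    refine (add_le_add (hn n le_rfl) (hn m hm)).trans_eq ?_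
    rw [pow_succ, ← mul_add, ENNReal.inv_two_add_inv_two, mul_one]
  have h2 : ∀ j, eLpNorm ((fun w => f j (x, w)) - K) 2 haarAddCircle ≤ 2⁻¹ ^ j := fun j => by
    have h3 := hN' j x (h1 j)
    have h4 := ht.const_add (2⁻¹ ^ j)
    rw [add_zero] at h4
    refine ge_of_tendsto h4 (eventually_atTop.2 ⟨N j x, fun m hm => ?_⟩)
    exact (tri (mG (N j x)) (mG m) hK).trans (add_le_add (h3 m hm) le_rfl)
  have h5 := Lp.ae_tendsto_of_cauchy_eLpNorm mf one_le_two (B := fun j => 3 * 2⁻¹ ^ j)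
    (by simp [ENNReal.tsum_mul_left, ENNReal.mul_eq_top]) fun N n m hn hm => by
      have a1 : ∀ k, N ≤ k → (2⁻¹ : ℝ≥0∞) ^ k ≤ 2⁻¹ ^ N := fun k hk =>
        pow_le_pow_of_le_one zero_le (by simp) hk
      refine (tri (mf n) hK (mf m)).trans_lt ?_
      rw [eLpNorm_sub_comm K]
      refine (add_le_add ((h2 n).trans (a1 n hn)) ((h2 m).trans (a1 m hm))).trans_lt ?_
      rw [← two_mul]
      exact ENNReal.mul_lt_mul_left (by simp) (by simp) (by norm_num)
  obtain ⟨ns, h6, h7⟩ := (tendstoInMeasure_of_tendsto_eLpNorm two_ne_zero mf hK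
    (tendsto_of_tendsto_of_tendsto_of_le_of_le tendsto_const_nhds
      (ENNReal.tendsto_pow_atTop_nhds_zero_of_lt_one (by simp)) (fun _ => zero_le)
      h2)).exists_seq_tendsto_ae
  filter_upwards [h5, h7] with w ⟨l, hl⟩ hw
  rw [hl.limUnder_eq]
  exact tendsto_nhds_unique (hl.comp h6.tendsto_atTop) hw

theorem p_ZAK :
    S_ZAK := by
  intro g hg
  let e : ℕ ≃ ℤ := (Denumerable.eqv ℤ).symm
  let g' := hg.1.mk g
  have hm : Measurable g' := hg.1.measurable_mk
  obtain ⟨F, hF, H⟩ := zak_lim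
    (fun N y => ∑ i ∈ Finset.range N, g' (y.1 - e i) * fourier (e i) y.2) fun N =>
      Finset.measurable_sum _ fun i _ => (hm.comp (by fun_prop)).mul
        ((map_continuous _).measurable.comp measurable_snd)
  refine ⟨F, hF, ae_restrict_of_ae ?_⟩
  have h1 : ∀ᵐ x : ℝ, ∀ n : ℤ, g (x - n) = g' (x - n) := ae_all_iff.2 fun n =>
    (measurePreserving_sub_right volume (n : ℝ)).quasiMeasurePreserving.ae hg.1.ae_eq_mk
  filter_upwards [h1, ae_summable_shift hg (β := -1) (by norm_num)] with x h2 h3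
  obtain ⟨K, hK, hk⟩ := exists_of_summable (T := 1) (fun n => g (x - n)) (by
    simpa [sub_eq_add_neg] using h3)
  have h4 := (e.hasSum_iff.2 (hasSum_fourier_series_L2 (hK.toLp K))).tendsto_sum_nat
  rw [Lp.tendsto_Lp_iff_tendsto_eLpNorm', fourierCoeff_congr_ae hK.coeFn_toLp] at h4
  have h5 := H x K hK.1 (h4.congr fun N => eLpNorm_congr_ae (EventuallyEq.sub ?_ hK.coeFn_toLp))
  · exact ⟨(memLp_congr_ae h5).2 hK, fun n => by rw [fourierCoeff_congr_ae h5, hk]⟩
  · filter_upwards [Lp.coeFn_fun_finsetSum (Finset.range N)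
      ((fun i => fourierCoeff K i • fourierLp (T := 1) 2 i) ∘ e),
      ae_all_iff.2 fun i => Lp.coeFn_smul (fourierCoeff K i) (fourierLp (T := 1) 2 i),
      ae_all_iff.2 fun i => coeFn_fourierLp (T := 1) 2 i] with w a1 a2 a3
    rw [a1]
    refine Finset.sum_congr rfl fun i _ => ?_
    rw [Function.comp_apply, a2, Pi.smul_apply, a3, hk, h2, smul_eq_mul]

end ZAK

section ZQ

lemma zq_meas : Measurable fun p : S1 × ℤ => fourier p.2 p.1 :=
  measurable_from_prod_countable_left fun n => (fourier n).continuous.measurable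

theorem p_ZQ (hZAK : S_ZAK) :
    S_ZQ := by
  intro g hg
  obtain ⟨F, hF, h⟩ := hZAK g hg
  have hm : Measurable fun y : ℝ × S1 => ⌈y.1⌉ - 1 :=
    (Int.measurable_ceil.comp measurable_fst).sub_const 1
  refine ⟨fun y => fourier (⌈y.1⌉ - 1) y.2 * F (y.1 - (⌈y.1⌉ - 1 : ℤ), y.2), ?_, ?_, ?_⟩
  · refine (zq_meas.comp (measurable_snd.prodMk hm)).mul (hF.comp (Measurable.prodMk ?_ ?_))
    · exact measurable_fst.sub ((measurable_from_top (f := fun n : ℤ => (n : ℝ))).comp hm)
    · exact measurable_snd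
  · intro x m w
    simp only [Int.ceil_add_intCast]
    rw [← mul_assoc, ← fourier_add]
    congr 3
    · ring
    · push_cast
      ring
  · have h1 := (ae_restrict_iff' measurableSet_Ioc).1 h
    have h2 := ae_all_iff.2 fun k : ℤ =>
      (measurePreserving_sub_right volume (k : ℝ)).quasiMeasurePreserving.ae h1
    filter_upwards [h2] with x hx
    have h3 := Int.le_ceil x
    have h4 := Int.ceil_lt_add_one x
    obtain ⟨a, b⟩ := hx (⌈x⌉ - 1) ⟨by push_cast; linarith, by push_cast; linarith⟩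
    refine ⟨memLp_cont_mul a (fourier _).continuous, fun n => ?_⟩
    rw [coeff_mul, b]
    congr 1
    push_cast
    ring

end ZQ

section ZR

lemma zr_sub {p : ℝ → Prop} (h : ∀ᵐ x : ℝ, p x) (a : ℝ) : ∀ᵐ x : ℝ, p (x - a) :=
  (measurePreserving_sub_right volume a).quasiMeasurePreserving.ae h

lemma zr_ee (n : ℤ) (b : ℝ) : fourier n (-(b : S1)) = ee (-(b * n)) := by
  rw [← AddCircle.coe_neg, fourier_coe_apply, ee]
  congr 1
  push_cast
  ring

theorem p_ZR (hZQ : S_ZQ) :
    S_ZR := by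
  intro g hg h0
  obtain ⟨F, hm, hq, hF⟩ := hZQ g hg
  refine ⟨F, hm, hq, fun h => h0 ?_, fun ι S pt c hc => ?_⟩
  · filter_upwards [hF, Measure.ae_ae_of_ae_prod h] with x a b
    have := a.2 0
    rw [fourierCoeff_congr_ae (g := fun _ => 0) (by rw [haar_eq]; exact b)] at this
    simpa [fourierCoeff] using this.symm
  · have hs : Measurable fun y : ℝ × S1 =>
        ∑ i ∈ S, c i * (ee ((pt i).2 * y.1) * F (y.1 - (pt i).1, y.2 - (pt i).2)) :=
      Finset.measurable_sum _ fun i _ => measurable_const.mul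
        ((continuous_ee.measurable.comp (measurable_const.mul measurable_fst)).mul
          (hm.comp ((measurable_fst.sub measurable_const).prodMk
            (measurable_snd.sub measurable_const))))
    refine (Measure.ae_prod_iff_ae_ae (hs (measurableSet_singleton 0))).2 ?_
    filter_upwards [ae_all_iff.2 fun n : ℤ => zr_sub hc n,
      (eventually_all_finset S).2 fun i _ => zr_sub hF (pt i).1] with x a b
    have h1 : ∀ i ∈ S, MemLp (fun w : S1 => c i * (ee ((pt i).2 * x) *
        F (x - (pt i).1, w - (pt i).2))) 2 haarAddCircle := fun i hi =>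
      (((b i hi).1.comp_measurePreserving
        (measurePreserving_sub_right _ ((pt i).2 : S1))).const_mul _).const_mul _
    rw [← haar_eq]
    refine ae_zero_of_coeff (memLp_finsetSum S h1) fun n => ?_
    rw [← Finset.sum_fn, fourierCoeff.sum _ _ fun i hi => (h1 i hi).integrable one_le_two,
      Finset.sum_apply, ← a n]
    refine Finset.sum_congr rfl fun i hi => ?_
    simp only [sub_eq_add_neg _ ((pt i).2 : S1)]
    rw [fourierCoeff.const_mul, fourierCoeff.const_mul,
      coeff_shift (fun w => F (x - (pt i).1, w)), (b i hi).2, tf_eq, zr_ee, ← mul_assoc (ee _),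
      ← ee_add, mul_sub, sub_eq_add_neg ((pt i).2 * x), sub_right_comm]

end ZR

section ZK

lemma zk_fourier (n : ℤ) (x : ℝ) : fourier n (x : S1) = ee (n * x) := by
  rw [fourier_coe_apply, ee]
  congr 1
  push_cast
  ring

theorem p_ZK (hZR : S_ZR) (hEXP : S_EXP) :
    S_ZK := by
  intro S θ H g hg hg0 c hc
  obtain ⟨F, ms, qp, nz, rel⟩ := hZR g hg hg0
  have R : ∀ᵐ y : ℝ × S1, c none * (ee (θ.2 * y.1) * F (y.1 - θ.1, y.2 - θ.2)) +
      PP S (fun k => c (some k)) (y.1, y.2) * F y = 0 := (rel _ _ (pp θ) c hc).mono fun y hy => by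
    rw [Finset.sum_insertNone] at hy
    rw [← hy, PP, Finset.sum_mul]
    refine congrArg₂ _ rfl (Finset.sum_congr rfl fun k _ => ?_)
    have e : (((k.2 : ℝ)) : S1) = 0 := (AddCircle.coe_eq_zero_iff _).2 ⟨k.2, by simp⟩
    have e' := qp y.1 (-k.1) y.2
    rw [Int.cast_neg, ← sub_eq_add_neg] at e'
    simp only [pp, e, sub_zero, e', zk_fourier]
    ring
  by_cases h : ∃ k ∈ S, c (some k) ≠ 0
  · exfalso
    rcases eq_or_ne (c none) 0 with d | d
    · refine nz ?_
      filter_upwards [R, ae_proj (hEXP.2.2.2.1 S _ h)] with y h1 h2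
      rw [d, zero_mul, zero_add] at h1
      exact (mul_eq_zero.1 h1).resolve_left h2
    · obtain ⟨k, hk, h0⟩ := h
      refine H (fun k => -(c none)⁻¹ * c (some k)) F
        ⟨k, hk, mul_ne_zero (neg_ne_zero.2 (inv_ne_zero d)) h0⟩ ⟨ms, qp, nz, R.mono fun y hy => ?_⟩
      have e : PP S (fun k => -(c none)⁻¹ * c (some k)) (y.1, y.2) =
          -(c none)⁻¹ * PP S (fun k => c (some k)) (y.1, y.2) := by
        simp only [PP, Finset.mul_sum, mul_assoc]
      rw [e]
      field_simp
      linear_combination hy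
  push Not at h
  rintro (_ | k) hi
  · by_contra d
    have : (volume : Measure (ℝ × S1)).IsAddRightInvariant :=
      inferInstanceAs (((volume : Measure ℝ).prod (volume : Measure S1)).IsAddRightInvariant)
    refine nz ?_
    filter_upwards [(measurePreserving_add_right volume
      ((θ.1, θ.2) : ℝ × S1)).quasiMeasurePreserving.ae R] with y hy
    rw [PP, Finset.sum_eq_zero fun k hk => by rw [h k hk, zero_mul], zero_mul, add_zero] at hy
    simpa [d, ee_ne_zero] using hy
  · exact h k (Finset.some_mem_insertNone.1 hi)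

end ZK

section MI

lemma mi_qmp {l : ℝ} (hl : l ≠ 0) :
    Measure.QuasiMeasurePreserving (fun x : ℝ => l * x) volume volume :=
  ⟨by fun_prop, by rw [Real.map_volume_mul_left hl]; exact Measure.smul_absolutelyContinuous⟩

variable {ι : Type} {S : Finset ι} {pt : ι → ℝ × ℝ}

lemma mi_aff (o : ℝ × ℝ) (s : ℝ) {l : ℝ} (hl : l ≠ 0) (h : Ind S pt) :
    Ind S fun i => (o.1 + l * (pt i).1, o.2 + s * (pt i).1 + (pt i).2 / l) := by
  intro g hg h0 c hc i hi
  have m1 : MemLp (fun y => g (l * y)) 2 volume := MemLp.comp_of_map (f := fun x : ℝ => l * x)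
    (by rw [Real.map_volume_mul_left hl]; exact hg.smul_measure ENNReal.ofReal_ne_top)
    (by fun_prop)
  have := h _ (chirp_memLp m1 (-(s * l) / 2)) (fun e => h0 (by
    filter_upwards [(mi_qmp (inv_ne_zero hl)).ae (chirp_zero _ e)] with x hx
    simpa [hl] using hx))
    (fun i => c i * ee ((o.2 + s * (pt i).1 + (pt i).2 / l) * o.1 + s * l / 2 * (pt i).1 ^ 2)) (by
      filter_upwards [(mi_qmp hl).ae
        ((measurePreserving_add_right volume o.1).quasiMeasurePreserving.ae hc)] with y hy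
      rw [← mul_zero (ee (-(s * l) / 2 * y ^ 2 - l * o.2 * y)), ← hy, Finset.mul_sum]
      refine Finset.sum_congr rfl fun j _ => ?_
      rw [tf_eq, tf_eq, show l * y + o.1 - (o.1 + l * (pt j).1) = l * (y - (pt j).1) by ring,
        mul_left_comm _ (c j), mul_assoc (c j)]
      simp only [← mul_assoc (ee _), ← ee_add]
      congr 3
      field_simp
      ring) i hi
  exact (mul_eq_zero.1 this).resolve_right (ee_ne_zero _)

lemma mi_J (h : Ind S pt) : Ind S fun i => (-(pt i).2, (pt i).1) := by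
  intro g hg h0 c hc i hi
  obtain ⟨f, hf, f0, hrel⟩ := ft_relation g hg
  have e : ∀ φ : ι → ℂ, ∑ j, φ (S.equivFin.symm j) = ∑ i ∈ S, φ i := fun φ => by
    rw [← Finset.sum_coe_sort S]
    exact S.equivFin.symm.sum_comp fun i => φ i
  have := h f hf (mt f0 h0) (fun i => c i * ee (-((pt i).1 * (pt i).2))) (by
    filter_upwards [hrel _ (fun j => c (S.equivFin.symm j)) (fun j => (pt (S.equivFin.symm j)).1)
      (fun j => -(pt (S.equivFin.symm j)).2) (by
        filter_upwards [hc] with x hx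
        rw [← hx, ← e]
        simp only [tf_eq])] with x hx
    rw [← hx, ← e]
    refine Finset.sum_congr rfl fun j _ => ?_
    rw [tf_eq, mul_assoc, ← mul_assoc (ee _), ← ee_add]
    congr 3
    ring) i hi
  exact (mul_eq_zero.1 this).resolve_right (ee_ne_zero _)

theorem p_MI :
    S_MI := by
  intro ι S pt o u v huv h
  rcases eq_or_ne v.1 0 with e | e
  · rw [e, mul_zero, sub_zero] at huv
    have hu : u.1 ≠ 0 := left_ne_zero_of_mul_eq_one huv
    convert mi_aff o u.2 hu h using 2 with i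
    refine Prod.ext (by simp [e, mul_comm]) ?_
    simp only [Prod.snd_add, Prod.smul_snd, smul_eq_mul]
    field_simp
    linear_combination (pt i).2 * huv
  · convert mi_aff o (-v.2) (neg_ne_zero.2 e) (mi_J (mi_aff 0 (u.1 / v.1) one_ne_zero h)) using 2
      with i
    refine Prod.ext ?_ ?_
    · simp only [Prod.fst_add, Prod.smul_fst, smul_eq_mul, Prod.snd_zero]
      field_simp
      ring
    · simp only [Prod.snd_add, Prod.smul_snd, smul_eq_mul, Prod.snd_zero, Prod.fst_zero]
      field_simp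
      linear_combination (-(pt i).1) * huv

end MI

end Pool.Agent.P.MP_2a8753_an.H
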