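import Pool.Agent.P.MP_2a8753_an.H.All

/-! Two cosets of the lattice: the Zak side and the first order invariant. -/

set_option autoImplicit false
set_option linter.unusedSectionVars false

namespace Pool.Agent.P.MP_2a8753_an.H

open MeasureTheory Filter Set Topology AddCircle Complex Polynomial
open scoped Real ComplexConjugate ENNReal Pointwise

/-- Points of the lattice and of one translate of it. -/
def pq (θ : ℝ × ℝ) : (ℤ × ℤ) ⊕ (ℤ × ℤ) → ℝ × ℝ
  | .inl k => (k.1, k.2)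
  | .inr l => (θ.1 + l.1, θ.2 + l.2)

/-- The functions `Q` and `P` have the same argument modulo `π`. -/
def Ph (Q P : T2 → ℂ) : Prop := ∀ᵐ y, Q y ≠ 0 ∧ Q y / conj (Q y) = P y / conj (P y)

lemma ind_sub {ι κ : Type} (e : ι → κ) {S : Finset ι} {T : Finset κ} (h : ∀ i ∈ S, e i ∈ T)
    (he : InjOn e S) {pt : ι → ℝ × ℝ} {pt' : κ → ℝ × ℝ} (hp : ∀ i ∈ S, pt' (e i) = pt i)
    (hT : Ind T pt') : Ind S pt := by
  classical
  intro g hg h0 c hc i hi
  have := hT g hg h0 (fun j => ∑ i ∈ S with e i = j, c i) (hc.mono fun x hx => by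
    rw [← hx, ← Finset.sum_fiberwise_of_maps_to h]
    refine Finset.sum_congr rfl fun j _ => ?_
    rw [Finset.sum_mul]
    refine Finset.sum_congr rfl fun i hi => ?_
    rw [← (Finset.mem_filter.1 hi).2, hp i (Finset.mem_filter.1 hi).1]) (e i) (h i hi)
  rwa [Finset.sum_eq_single_of_mem i (by simp [hi]) fun j hj hn =>
    (hn (he (Finset.mem_filter.1 hj).1 hi (Finset.mem_filter.1 hj).2)).elim] at this

theorem zk2 (S T : Finset (ℤ × ℤ)) (θ : ℝ × ℝ)
    (H : ∀ c d F, (∃ k ∈ S, c k ≠ 0) → (∃ l ∈ T, d l ≠ 0) →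
      ¬ Sol (fun y => PP S c y / PP T d y) θ F) : Ind (S.disjSum T) (pq θ) := by
  intro g hg hg0 c hc
  obtain ⟨F, ms, qp, nz, rel⟩ := p_ZR (p_ZQ p_ZAK) g hg hg0
  set d : ℤ × ℤ → ℂ := fun l => -(c (.inr l) * ee (l.1 * θ.2)) with hd
  have R : ∀ᵐ y : ℝ × S1, PP T d (y.1, y.2) * (ee (θ.2 * y.1) * F (y.1 - θ.1, y.2 - θ.2)) =
      PP S (fun k => c (.inl k)) (y.1, y.2) * F y := (rel _ _ (pq θ) c hc).mono fun y hy => by
    rw [Finset.sum_disjSum] at hy
    have e : ∀ n : ℤ, ((n : ℝ) : S1) = 0 := fun n => (AddCircle.coe_eq_zero_iff _).2 ⟨n, by simp⟩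
    rw [eq_comm, ← sub_eq_zero, ← hy, PP, PP, Finset.sum_mul, Finset.sum_mul, sub_eq_add_neg,
      ← Finset.sum_neg_distrib]
    refine congrArg₂ _ (Finset.sum_congr rfl fun k _ => ?_) (Finset.sum_congr rfl fun l _ => ?_)
    · have e' := qp y.1 (-k.1) y.2
      rw [Int.cast_neg, ← sub_eq_add_neg] at e'
      simp only [pq, e, sub_zero, e', zk_fourier]
      ring
    · have e' := qp (y.1 - θ.1) (-l.1) (y.2 - θ.2)
      rw [Int.cast_neg, ← sub_eq_add_neg, sub_sub, sub_eq_add_neg y.2, fourier_add_right,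
        ← AddCircle.coe_neg, zk_fourier, AddCircle.coe_neg, ← sub_eq_add_neg y.2] at e'
      simp only [pq, AddCircle.coe_add, e, add_zero, e', zk_fourier, hd, add_mul, ee_add,
        Int.cast_neg, neg_mul_neg]
      ring
  have hI : (volume : Measure (ℝ × S1)).IsAddRightInvariant :=
    inferInstanceAs (((volume : Measure ℝ).prod (volume : Measure S1)).IsAddRightInvariant)
  have z : ∀ (S : Finset (ℤ × ℤ)) (c : ℤ × ℤ → ℂ) y, (∀ k ∈ S, c k = 0) → PP S c y = 0 :=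
    fun S c y h => Finset.sum_eq_zero fun k hk => by rw [h k hk, zero_mul]
  have key : (∀ k ∈ S, c (.inl k) = 0) ∧ ∀ l ∈ T, d l = 0 := by
    by_cases h1 : ∃ k ∈ S, c (.inl k) ≠ 0 <;> by_cases h2 : ∃ l ∈ T, d l ≠ 0
    · refine (H _ d F h1 h2 ⟨ms, qp, nz, ?_⟩).elim
      filter_upwards [R, ae_proj (a_EXP.2.2.2.1 T _ h2)] with y e1 e2
      rw [div_mul_eq_mul_div, eq_div_iff e2, ← e1, mul_comm]
    · push Not at h2
      refine (nz ?_).elim
      filter_upwards [R, ae_proj (a_EXP.2.2.2.1 S _ h1)] with y e1 e2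
      rw [z T d _ h2, zero_mul] at e1
      exact (mul_eq_zero.1 e1.symm).resolve_left e2
    · push Not at h1
      refine (nz ?_).elim
      filter_upwards [(measurePreserving_add_right volume
        ((θ.1, θ.2) : ℝ × S1)).quasiMeasurePreserving.ae
          (R.and (ae_proj (a_EXP.2.2.2.1 T _ h2)))] with y hy
      obtain ⟨e1, e2⟩ := hy
      rw [z S _ _ h1, zero_mul] at e1
      simpa [ee_ne_zero] using (mul_eq_zero.1 e1).resolve_left e2
    · push Not at h1 h2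
      exact ⟨h1, h2⟩
  rintro (k | l) hi
  · exact key.1 k (Finset.inl_mem_disjSum.1 hi)
  · simpa [hd, ee_ne_zero] using key.2 l (Finset.inr_mem_disjSum.1 hi)

lemma ph_PP {S T : Finset (ℤ × ℤ)} {c d : ℤ × ℤ → ℂ} (hc : ∃ k ∈ S, c k ≠ 0)
    (hd : ∃ l ∈ T, d l ≠ 0) : ∃ c', (∃ m ∈ S - T, c' m ≠ 0) ∧
      (∀ y, PP (S - T) c' y = PP S c y * conj (PP T d y)) ∧
      Ph (fun y => PP S c y / PP T d y) (PP (S - T) c') := by
  have e : ∀ y, PP (S - T) (fun m => ∑ p ∈ S ×ˢ T with p.1 - p.2 = m, c p.1 * conj (d p.2)) y =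
      PP S c y * conj (PP T d y) := fun y => by
    rw [PP, PP, PP, map_sum, Finset.sum_mul_sum, ← Finset.sum_product',
      ← Finset.sum_fiberwise_of_maps_to (t := S - T) (g := fun p => p.1 - p.2) fun p hp =>
        Finset.sub_mem_sub (Finset.mem_product.1 hp).1 (Finset.mem_product.1 hp).2]
    refine Finset.sum_congr rfl fun m _ => ?_
    rw [Finset.sum_mul]
    refine Finset.sum_congr rfl fun p hp => ?_
    rw [← (Finset.mem_filter.1 hp).2, map_mul, map_mul, ← fourier_neg, ← fourier_neg, Prod.fst_sub,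
      Prod.snd_sub, sub_eq_add_neg, neg_sub, sub_eq_add_neg p.2.1, fourier_add, fourier_add, neg_neg]
    ring
  have h := (a_EXP.2.2.2.1 S c hc).and (a_EXP.2.2.2.1 T d hd)
  refine ⟨_, ?_, e, h.mono fun y hy => ⟨div_ne_zero hy.1 hy.2, ?_⟩⟩
  · by_contra hn
    push Not at hn
    obtain ⟨y, h1, h2⟩ := h.exists
    refine mul_ne_zero h1 ((_root_.map_ne_zero conj).2 h2) ((e y).symm.trans ?_)
    exact Finset.sum_eq_zero fun k hk => mul_eq_zero_of_left (hn k hk) _
  · have h1 := (_root_.map_ne_zero conj).2 hy.1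
    have h2 := (_root_.map_ne_zero conj).2 hy.2
    have h3 := hy.2
    rw [e, map_div₀, map_mul, conj_conj]
    field_simp

theorem f0p {Q P : T2 → ℂ} (hQ : Ph Q P) (w : T2 → ℝ) (θ ν e : ℝ × ℝ) (C : ℝ) (wm : Measurable w)
    (H1 : ∀ᵐ y, IntervalIntegrable (fun t : ℝ => w (y + cT (t • e))) volume 0 1 ∧
      ∫ t in (0 : ℝ)..1, |w (y + cT (t • e))| ≤ C)
    (H2 : ∀ s : ℝ, ∀ᵐ y, P y ≠ 0 ∧ P (y + cT (s • e)) / conj (P (y + cT (s • e))) =
      P y / conj (P y) * exp (I * (∫ t in (0 : ℝ)..s, w (y + cT (t • e)) : ℝ)))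
    (hI : Irr θ) (hE : EQ Q θ ν) : ∫ y, w y = 4 * π * (ν.1 * e.1 + ν.2 * e.2) := by
  refine p_F0 a_CORE p_AVG Q w θ ν e C wm H1 (fun s => ?_) hI hE
  filter_upwards [H2 s, hQ,
    (measurePreserving_add_right volume (cT (s • e))).quasiMeasurePreserving.ae hQ] with y h1 h2 h3
  exact ⟨h2.1, by rw [h3.2, h2.2, h1.2]⟩

theorem f1p {Q : T2 → ℂ} (P P' : T2 → ℂ) (θ ν e : ℝ × ℝ) (J lo hi : ℝ) (D : ℕ) (p : T2 → ℂ[X])
    (hP : Continuous P) (hP' : Continuous P') (h0 : ∀ᵐ y, P y ≠ 0)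
    (hd : ∀ y (t : ℝ), HasDerivAt (fun s : ℝ => P (y + cT (s • e))) (P' (y + cT (t • e))) t)
    (hp : ∀ y (t : ℝ), P (y + cT (t • e)) = ee (-(J * t)) * (p y).eval (ee t))
    (hD : ∀ y, (p y).natDegree ≤ D)
    (hb : ∀ᵐ y, lo ≤ ((p y).roots.map Wn).sum ∧ ((p y).roots.map Wn).sum ≤ hi)
    (hI : Irr θ) (hQ : Ph Q P) (hE : EQ Q θ ν) :
    lo ≤ 2 * (ν.1 * e.1 + ν.2 * e.2 + J) ∧ 2 * (ν.1 * e.1 + ν.2 * e.2 + J) ≤ hi := by
  have hPH := p_PH (p_PH1 p_CI) a_EXP
  set w : T2 → ℝ := fun y => 2 * (P' y / P y).im with hw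
  have wm : Measurable w := by
    have := hP.measurable
    have := hP'.measurable
    fun_prop
  have pe : ∀ y, P y = (p y).eval (ee 0) := fun y => by
    simpa [cT_zero, ee_zero] using hp y 0
  have pn : ∀ y, P y ≠ 0 → p y ≠ 0 := fun y h h' => h (by rw [pe, h', eval_zero])
  have ae : ∀ y, P y ≠ 0 → ∀ᵐ t : ℝ, w (y + cT (t • e)) = -(4 * π * J) + om (p y) t := by
    intro y hy
    filter_upwards [(a_EXP.2.2.1 _ (pn y hy)).1] with t ht
    refine f1_val J (p y) t _ _ ht (hp y t) ((hd y t).unique ?_)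
    simpa only [hp] using f1_der J (p y) t
  have ii : ∀ y, P y ≠ 0 → ∀ a b,
      IntervalIntegrable (fun t : ℝ => -(4 * π * J) + om (p y) t) volume a b := fun y hy a b =>
    intervalIntegrable_const.add ((hPH _ (pn y hy)).1 a b)
  have ie : ∀ y, P y ≠ 0 → ∀ s, ∫ t in (0 : ℝ)..s, w (y + cT (t • e)) =
      -(4 * π * J) * s + ∫ t in (0 : ℝ)..s, om (p y) t := by
    intro y hy s
    rw [intervalIntegral.integral_congr_ae ((ae y hy).mono fun t ht _ => ht),
      intervalIntegral.integral_add intervalIntegrable_const ((hPH _ (pn y hy)).1 0 s),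
      intervalIntegral.integral_const, sub_zero, smul_eq_mul, mul_comm s]
  have H1 : ∀ᵐ y, IntervalIntegrable (fun t : ℝ => w (y + cT (t • e))) volume 0 1 ∧
      ∫ t in (0 : ℝ)..1, |w (y + cT (t • e))| ≤ |4 * π * J| + 4 * π * D := by
    filter_upwards [h0] with y hy
    refine ⟨(ii y hy 0 1).congr_ae (ae_restrict_of_ae ((ae y hy).mono fun t ht => ht.symm)), ?_⟩
    rw [intervalIntegral.integral_congr_ae (g := fun t => |-(4 * π * J) + om (p y) t|)
      ((ae y hy).mono fun t ht _ => by rw [ht])]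
    have i2 := ((hPH _ (pn y hy)).1 0 1).abs
    calc _ ≤ ∫ t in (0 : ℝ)..1, (|4 * π * J| + |om (p y) t|) :=
          intervalIntegral.integral_mono_on zero_le_one (ii y hy 0 1).abs
            (intervalIntegrable_const.add i2) fun t _ => by
              simpa only [abs_neg] using abs_add_le (-(4 * π * J)) (om (p y) t)
      _ ≤ _ := by
          rw [intervalIntegral.integral_add intervalIntegrable_const i2]
          have h1 := (hPH _ (pn y hy)).2.1
          have h2 : (4 * π : ℝ) * (p y).natDegree ≤ 4 * π * D := by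
            gcongr; exact hD y
          simp only [intervalIntegral.integral_const, sub_zero, one_smul]
          linarith
  have H2 : ∀ s : ℝ, ∀ᵐ y, P y ≠ 0 ∧ P (y + cT (s • e)) / conj (P (y + cT (s • e))) =
      P y / conj (P y) * exp (I * (∫ t in (0 : ℝ)..s, w (y + cT (t • e)) : ℝ)) := by
    intro s
    filter_upwards [h0, (measurePreserving_add_right volume (cT (s • e))).quasiMeasurePreserving.ae
      h0] with y hy hy'
    refine ⟨hy, ?_⟩
    have h1 : (p y).eval (ee s) ≠ 0 := fun h => hy' (by rw [hp, h, mul_zero])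
    have h2 := (hPH _ (pn y hy)).2.2.2 0 s (pe y ▸ hy) h1
    rw [ie y hy, hp, map_mul, mul_div_mul_comm, f1_ph, h2, ← pe, ofReal_add, mul_add,
      Complex.exp_add]
    ring
  have h1 := f0p hQ w θ ν e _ wm H1 H2 hI hE
  obtain ⟨-, i1, h2, -⟩ := p_AVG w e _ wm H1
  have key : ∀ᵐ y, -(4 * π * J) + 2 * π * lo ≤ ∫ t in (0 : ℝ)..1, w (y + cT (t • e)) ∧
      ∫ t in (0 : ℝ)..1, w (y + cT (t • e)) ≤ -(4 * π * J) + 2 * π * hi := by
    filter_upwards [h0, hb] with y hy hb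
    rw [ie y hy, (hPH _ (pn y hy)).2.2.1, mul_one]
    constructor
    · gcongr; exact hb.1
    · gcongr; exact hb.2
  have l1 := integral_mono_ae (integrable_const _) i1 (key.mono fun y h => h.1)
  have l2 := integral_mono_ae i1 (integrable_const _) (key.mono fun y h => h.2)
  simp only [integral_const, probReal_univ, one_smul, h2, h1] at l1 l2
  have := Real.pi_pos
  constructor <;> refine le_of_mul_le_mul_left ?_ (by positivity : 0 < 2 * π) <;> linarith

theorem c3p {Q : T2 → ℂ} (S : Finset (ℤ × ℤ)) (c : ℤ × ℤ → ℂ) (θ : ℝ × ℝ) (hc : ∃ k ∈ S, c k ≠ 0)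
    (hθ : Irr θ) (hQ : Ph Q (PP S c)) (hE : EQ Q (-θ) (θ.2, -θ.1)) :
    θ ∈ convexHull ℝ ((fun k : ℤ × ℤ => ((k.1 : ℝ), (k.2 : ℝ))) '' S) := by
  by_contra hn
  obtain ⟨a, b, hab⟩ := p_SEP S θ hn
  have hS : S.Nonempty := let ⟨k, hk, _⟩ := hc; ⟨k, hk⟩
  obtain ⟨u, hu, hu'⟩ := S.exists_max_image (fun k => a * k.1 + b * k.2) hS
  obtain ⟨v, hv, hv'⟩ := S.exists_min_image (fun k => a * k.1 + b * k.2) hS
  obtain ⟨D, hD⟩ := Int.eq_ofNat_of_zero_le (sub_nonneg.2 (hv' u hu))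
  have hd : ∀ y : T2, (∑ k ∈ S, C (c k * (fourier k.2 y.1 * fourier (-k.1) y.2)) *
      X ^ (a * k.1 + b * k.2 - (a * v.1 + b * v.2)).toNat).natDegree ≤ D := fun y =>
    natDegree_sum_le_of_forall_le _ _ fun k hk => (natDegree_C_mul_X_pow_le _ _).trans (by
      have := hu' k hk
      omega)
  have h := (f1p (PP S c) (fun y => ∑ k ∈ S, c k * (fourier k.2 y.1 * fourier (-k.1) y.2) *
    (2 * π * I * ((a * k.1 + b * k.2 : ℤ) : ℝ))) (-θ) (θ.2, -θ.1) (b, -a)
    (-(a * v.1 + b * v.2 : ℤ)) 0 (2 * D) D _ (continuous_PP S c) (by fun_prop)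
    (a_EXP.2.2.2.1 S c hc) (fun y t => ?_) (fun y t => ?_) hd
    (.of_forall fun y => ⟨(c3_wn _).1, (c3_wn _).2.trans (by
      have : ((_ : ℕ) : ℝ) ≤ D := Nat.cast_le.2 (hd y)
      linarith)⟩) (fun a b m e => ?_) hQ hE).2
  · have h1 := hab u hu
    have h2 := congrArg (Int.cast : ℤ → ℝ) hD
    push_cast at h h1 h2
    linarith
  · simp only [PP, c3_chi]
    refine HasDerivAt.fun_sum fun k _ => ?_
    exact (((hasDerivAt_ee _ t).const_mul _).const_mul (c k)).congr_deriv (by ring)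
  · simp only [PP, c3_chi, eval_finsetSum, eval_mul, eval_C, eval_pow, eval_X, Finset.mul_sum]
    refine Finset.sum_congr rfl fun k hk => ?_
    obtain ⟨m, hm⟩ := Int.eq_ofNat_of_zero_le (sub_nonneg.2 (hv' k hk))
    rw [hm, Int.toNat_natCast, ← ee_nat_mul, sub_eq_iff_eq_add'.1 hm, Int.cast_add _ (m : ℤ),
      add_mul, ee_add, neg_mul, neg_neg, Int.cast_natCast]
    ring
  · have := hθ a b (-m) (by
      simp only [Prod.fst_neg, Prod.snd_neg] at e
      push_cast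
      linarith)
    exact this

end Pool.Agent.P.MP_2a8753_an.H
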