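import Pool.Agent.P.MP_2a8753_an.H.Two

/-! Two cosets of the lattice: the case of rank two and the final forms. -/

set_option autoImplicit false
set_option linter.unusedSectionVars false

namespace Pool.Agent.P.MP_2a8753_an.H

open MeasureTheory Filter Set Topology AddCircle Complex Polynomial
open scoped Real ComplexConjugate ENNReal Pointwise

theorem iterp {Q : T2 → ℂ} {θ : ℝ × ℝ} {F : ℝ × S1 → ℂ} {d : ℕ} {p : ℤ} (h : Sol Q θ F)
    (hd : d * θ.1 = p) : ∃ φ : ℝ, ∀ᵐ y : ℝ × S1,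
      ee (φ + d * θ.2 * y.1) * fourier (-p) y.2 * F (y.1, y.2 + ((-(d * θ.2) : ℝ) : S1)) =
        (∏ i ∈ Finset.range d, Q (((y.1 - i * θ.1 : ℝ) : S1), y.2 - ((i * θ.2 : ℝ) : S1))) * F y := by
  have key : ∀ j : ℕ, ∃ φ : ℝ, ∀ᵐ y : ℝ × S1,
      ee (φ + j * θ.2 * y.1) * F (y.1 - j * θ.1, y.2 - ((j * θ.2 : ℝ) : S1)) =
        (∏ i ∈ Finset.range j, Q (((y.1 - i * θ.1 : ℝ) : S1), y.2 - ((i * θ.2 : ℝ) : S1))) * F y := by
    intro j
    induction j with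
    | zero => exact ⟨0, Eventually.of_forall fun y => by simp [ee_zero]⟩
    | succ j ih =>
      obtain ⟨φ, ih⟩ := ih
      have hm : MeasurePreserving (Prod.map (fun x : ℝ => x - j * θ.1)
          (fun w : S1 => w - ((j * θ.2 : ℝ) : S1))) volume volume :=
        (measurePreserving_sub_right volume _).prod (measurePreserving_sub_right volume _)
      refine ⟨φ - j * θ.1 * θ.2, ?_⟩
      filter_upwards [ih, hm.quasiMeasurePreserving.ae h.eq] with y h1 h2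
      simp only [Prod.map_fst, Prod.map_snd] at h2
      have e1 : y.1 - ((j + 1 : ℕ) : ℝ) * θ.1 = y.1 - j * θ.1 - θ.1 := by push_cast; ring
      have e2 : y.2 - ((((j + 1 : ℕ) : ℝ) * θ.2 : ℝ) : S1) = y.2 - ((j * θ.2 : ℝ) : S1) - θ.2 := by
        rw [sub_sub, ← AddCircle.coe_add]
        congr 2
        push_cast
        ring
      have e3 : φ - j * θ.1 * θ.2 + ((j + 1 : ℕ) : ℝ) * θ.2 * y.1 =
          (φ + j * θ.2 * y.1) + θ.2 * (y.1 - j * θ.1) := by push_cast; ring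
      rw [e1, e2, e3, ee_add, mul_assoc, h2, Finset.prod_range_succ, mul_left_comm]
      exact (congrArg _ h1).trans (by ring)
  obtain ⟨φ, hφ⟩ := key d
  refine ⟨(-p : ℤ) * (-(d * θ.2)) + φ, hφ.mono fun y hy => ?_⟩
  rw [← hy, hd, sub_eq_add_neg y.1, ← Int.cast_neg, h.qp, sub_eq_add_neg, ← AddCircle.coe_neg,
    fourier_add_right, fourier_coe_ee, add_assoc, ee_add]
  ring

theorem dkp {τ : ℝ} {q : ℕ → ℕ} {K r : S1 → ℂ} {p : ℂ[X]} {C : ℂ} {j i : ℤ} (hτ : Irrational τ)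
    (hq : DKq τ q) (hK : Measurable K) (h0 : ¬ K =ᵐ[volume] 0) (hp : p ≠ 0) (hC : C ≠ 0)
    (hr : ∀ᵐ w, r w ≠ 0 ∧ fourier i w * (r w / conj (r w)) =
      p.eval (fourier 1 w) / conj (p.eval (fourier 1 w)))
    (h : ∀ᵐ w, C * fourier j w * K (w + (τ : S1)) = r w * K w) :
    Tendsto (fun n => (kap p * (conj C / C)) ^ q n) atTop (𝓝 1) := by
  have h1 := (a_EXP.2.2.1 p hp).2
  have he : Ergodic (· + (τ : S1)) :=
    ergodic_add_right.2 (denseRange_zsmul_iff.1 (denseRange_zsmul_coe_iff.2 (by simpa using hτ)))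
  have h2 : ∀ᵐ w, K w ≠ 0 := by
    rcases he.ae_empty_or_univ_of_preimage_ae_le (s := K ⁻¹' {0})
      (hK (measurableSet_singleton 0)).nullMeasurableSet (by
        filter_upwards [h, hr] with w e e1 e2
        rw [show K (w + (τ : S1)) = 0 from e2, mul_zero] at e
        exact (mul_eq_zero.1 e.symm).resolve_left e1.1) with e | e
    · exact (eventuallyEq_empty.1 e)
    · exact (h0 (eventuallyEq_univ.1 e)).elim
  obtain ⟨D, N, f1, f2⟩ := p_FAC p hp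
  refine p_DK0 τ q (fun w => K w / conj (K w)) N _ (D + (-j + -j) + -i) hq
    (hK.div (continuous_conj.measurable.comp hK)) (h2.mono fun w => dk_norm) ?_ ?_ (f2 τ q hq)
  · rw [norm_mul, dk_kap hp, one_mul, ← inv_div, norm_inv, dk_norm hC, inv_one]
  · filter_upwards [h, h1, h2, he.quasiMeasurePreserving.ae h2, hr] with w e e1 e2 e3 e7
    have e4 := congrArg conj e
    rw [map_mul, map_mul, map_mul, ← fourier_neg] at e4
    have e5 := e7.2.trans (f1 w e1)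
    have e6 : ∀ j : ℤ, fourier (-j) w = (fourier j w)⁻¹ := fun j => eq_inv_of_mul_eq_one_left (by
      rw [← fourier_add, neg_add_cancel, fourier_zero])
    have e8 : ∀ j : ℤ, fourier j w ≠ 0 := fun j => by
      rw [← norm_ne_zero_iff, norm_fourier]; exact one_ne_zero
    have c1 := (_root_.map_ne_zero conj).2 e7.1
    have c2 := (_root_.map_ne_zero conj).2 e2
    have c3 := (_root_.map_ne_zero conj).2 e3
    have c4 := (_root_.map_ne_zero conj).2 hC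
    have c5 := e8 i
    have c6 := e8 j
    have a1 : K (w + τ) = r w * K w / (C * fourier j w) := by rw [← e]; field_simp
    have a2 : conj (K (w + τ)) = conj (r w) * conj (K w) * fourier j w / conj C := by
      rw [← e4, e6]; field_simp
    have a3 : kap p * fourier D w * N w = fourier i w * (r w / conj (r w)) := e5.symm
    rw [fourier_add, fourier_add, fourier_add, e6, e6, a2, a1]
    calc _ = fourier i w * (r w / conj (r w)) * (conj C / C * ((fourier j w)⁻¹ * (fourier j w)⁻¹) *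
          (fourier i w)⁻¹ * (K w / conj (K w))) := by field_simp
      _ = _ := by rw [← a3]; ring

lemma sp_prod (S : Finset (ℤ × ℤ)) (cc : ℕ → ℤ × ℤ → ℂ) {N : ℤ} (hN : ∀ k ∈ S, k.1 ≤ N) (d : ℕ)
    (x : ℝ) (w : S1) : (sp (∏ i ∈ Finset.range d, PL S (cc i) N) x).eval (fourier 1 w) =
      fourier (d * N) w * ∏ i ∈ Finset.range d, PP S (cc i) (x, w) := by
  rw [sp, Polynomial.map_prod, eval_prod]
  refine (Finset.prod_congr rfl fun i _ => (p_PL S (cc i) N hN).1 x w).trans ?_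
  rw [Finset.prod_mul_distrib, Finset.prod_const, Finset.card_range, b0_pow]

lemma PL_ne {S : Finset (ℤ × ℤ)} {c : ℤ × ℤ → ℂ} {N : ℤ} (hN : ∀ k ∈ S, k.1 ≤ N)
    (hc : ∃ k ∈ S, c k ≠ 0) : PL S c N ≠ 0 := fun h => by
  obtain ⟨k, hk, h0⟩ := hc
  exact ((p_PL S c N hN).2 (N - k.1).toNat).2 ⟨k, hk, h0,
    Int.toNat_of_nonneg (sub_nonneg.2 (hN _ hk))⟩ (by rw [h, coeff_zero])

/-- The coefficients of a translated polynomial. -/
noncomputable def sh (θ : ℝ × ℝ) (c : ℤ × ℤ → ℂ) (i : ℕ) (k : ℤ × ℤ) : ℂ :=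
  c k * (ee (k.2 * (-(i * θ.1))) * ee ((-k.1 : ℤ) * (-(i * θ.2))))

lemma sh_ne {θ : ℝ × ℝ} {c : ℤ × ℤ → ℂ} {i : ℕ} {k : ℤ × ℤ} : sh θ c i k ≠ 0 ↔ c k ≠ 0 := by
  simp [sh, ee_ne_zero]

lemma sh_PP (S : Finset (ℤ × ℤ)) (c : ℤ × ℤ → ℂ) (θ : ℝ × ℝ) (i : ℕ) (x : ℝ) (w : S1) :
    PP S c (((x - i * θ.1 : ℝ) : S1), w - ((i * θ.2 : ℝ) : S1)) = PP S (sh θ c i) ((x : S1), w) :=
  iter_PP S c _ _ x w

lemma ph_prod {d : ℕ} {a b : ℕ → ℂ} (h : ∀ i, a i ≠ 0 ∧ a i / conj (a i) = b i / conj (b i)) :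
    ∏ i ∈ Finset.range d, a i ≠ 0 ∧ (∏ i ∈ Finset.range d, a i) / conj (∏ i ∈ Finset.range d, a i) =
      (∏ i ∈ Finset.range d, b i) / conj (∏ i ∈ Finset.range d, b i) := by
  refine ⟨Finset.prod_ne_zero_iff.2 fun i _ => (h i).1, ?_⟩
  rw [map_prod, map_prod, ← Finset.prod_div_distrib, ← Finset.prod_div_distrib]
  exact Finset.prod_congr rfl fun i _ => (h i).2

theorem b2p {Q : T2 → ℂ} {S : Finset (ℤ × ℤ)} {c : ℤ × ℤ → ℂ} {θ : ℝ × ℝ} {F : ℝ × S1 → ℂ}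
    (hc : ∃ k ∈ S, c k ≠ 0) (h1 : ¬ Irrational θ.1) (h2 : Irrational θ.2) (hQ : Ph Q (PP S c)) :
    ¬ Sol Q θ F := by
  intro hF
  obtain ⟨r, hr⟩ : θ.1 ∈ range ((↑) : ℚ → ℝ) := not_not.1 h1
  have hd : ((r.den : ℕ) : ℝ) * θ.1 = (r.num : ℤ) := by
    rw [← hr]; exact_mod_cast Rat.den_mul_eq_num r
  obtain ⟨φ, hae⟩ := iterp hF hd
  obtain ⟨N, hN⟩ := (S.image Prod.fst).exists_le
  replace hN : ∀ k ∈ S, k.1 ≤ N := fun k hk => hN _ (Finset.mem_image_of_mem _ hk)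
  have hP : ∏ i ∈ Finset.range r.den, PL S (sh θ c i) N ≠ 0 :=
    Finset.prod_ne_zero_iff.2 fun i _ => PL_ne hN (by simpa only [sh_ne] using hc)
  have hτ : Irrational (r.den * θ.2) := h2.natCast_mul r.den_ne_zero
  obtain ⟨q, hq⟩ := p_DKS _ hτ.neg
  have hp : ∀ᵐ y : ℝ × S1, ∀ i : ℕ,
      Q (((y.1 - i * θ.1 : ℝ) : S1), y.2 - ((i * θ.2 : ℝ) : S1)) ≠ 0 ∧
      Q (((y.1 - i * θ.1 : ℝ) : S1), y.2 - ((i * θ.2 : ℝ) : S1)) /
        conj (Q (((y.1 - i * θ.1 : ℝ) : S1), y.2 - ((i * θ.2 : ℝ) : S1))) =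
      PP S (sh θ c i) (y.1, y.2) / conj (PP S (sh θ c i) (y.1, y.2)) := ae_all_iff.2 fun i => by
    have hm : MeasurePreserving (Prod.map (fun x : ℝ => x - i * θ.1)
        (fun w : S1 => w - ((i * θ.2 : ℝ) : S1))) volume volume :=
      (measurePreserving_sub_right volume _).prod (measurePreserving_sub_right volume _)
    filter_upwards [hm.quasiMeasurePreserving.ae (ae_proj hQ)] with y hy
    simp only [Prod.map_fst, Prod.map_snd] at hy
    rwa [sh_PP] at hy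
  refine hF.nz ((Measure.ae_prod_iff_ae_ae (measurableSet_eq_fun hF.ms measurable_const)).2 ?_)
  filter_upwards [Measure.ae_ae_of_ae_prod hae, Measure.ae_ae_of_ae_prod hp,
    p_KN a_NUL a_EXP p_NSUB p_ALG _ _ φ q hP hτ hq.top] with x hx hy hk
  by_contra hne
  refine hk.2 (dkp (i := r.den * N + r.den * N) hτ.neg hq (hF.ms.comp measurable_prodMk_left) hne
    hk.1 (ee_ne_zero _) (hy.mono fun w hw => ⟨(ph_prod hw).1, ?_⟩) hx)
  have e : fourier (r.den * N) w * fourier (-(r.den * N)) w = 1 := by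
    rw [← fourier_add, add_neg_cancel, fourier_zero]
  rw [(ph_prod hw).2, sp_prod S _ hN, map_mul, ← fourier_neg, mul_div_mul_comm, fourier_add,
    ← inv_eq_of_mul_eq_one_right e, div_inv_eq_mul]

theorem b0p {S T : Finset (ℤ × ℤ)} {c b : ℤ × ℤ → ℂ} {θ : ℝ × ℝ} {F : ℝ × S1 → ℂ}
    (hc : ∃ k ∈ S, c k ≠ 0) (hb : ∃ l ∈ T, b l ≠ 0) (h1 : ¬ Irrational θ.1) (h2 : ¬ Irrational θ.2)
    (hS : Sol (fun y => PP S c y / PP T b y) θ F) : ∃ n : ℤ, θ.1 = n := by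
  obtain ⟨q1, e1⟩ := not_not.1 h1
  obtain ⟨q2, e2⟩ := not_not.1 h2
  obtain ⟨d, p, m, hd, hp, hm⟩ : ∃ (d : ℕ) (p m : ℤ), 0 < d ∧ d * θ.1 = p ∧ d * θ.2 = m := by
    refine ⟨q1.den * q2.den, q1.num * q2.den, q2.num * q1.den, Nat.mul_pos q1.pos q2.pos, ?_, ?_⟩
    · rw [← e1, Rat.cast_def]
      push_cast
      field_simp
    · rw [← e2, Rat.cast_def]
      push_cast
      field_simp
  obtain ⟨φ, hF⟩ := iterp hS hp
  obtain ⟨N, hN⟩ := ((S ∪ T).image Prod.fst).exists_le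
  have hN1 : ∀ k ∈ S, k.1 ≤ N := fun k hk =>
    hN _ (Finset.mem_image_of_mem _ (Finset.mem_union_left _ hk))
  have hN2 : ∀ k ∈ T, k.1 ≤ N := fun k hk =>
    hN _ (Finset.mem_image_of_mem _ (Finset.mem_union_right _ hk))
  have hq : ∀ᵐ y : ℝ × S1, ∀ i : ℕ, PP T (sh θ b i) (y.1, y.2) ≠ 0 := ae_all_iff.2 fun i =>
    ae_proj (a_EXP.2.2.2.1 T _ (by simpa only [sh_ne] using hb))
  have hΔ : X ^ p.toNat * ∏ i ∈ Finset.range d, PL S (sh θ c i) N =
      C (.single m (ee φ)) * X ^ (-p).toNat * ∏ i ∈ Finset.range d, PL T (sh θ b i) N := by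
    by_contra h0
    refine hS.nz (b0_zero hS.ms a_EXP (sub_ne_zero.2 h0) ?_)
    filter_upwards [hF, hq] with y hy hz
    have e3 : ((-(d * θ.2) : ℝ) : S1) = 0 := by
      rw [hm, ← Int.cast_neg, AddCircle.coe_eq_zero_iff]
      exact ⟨-m, by simp⟩
    have e4 := sp_prod S (sh θ c) hN1 d y.1 y.2
    have e5 := sp_prod T (sh θ b) hN2 d y.1 y.2
    have e6 : fourier (p.toNat : ℤ) y.2 * fourier (-p) y.2 = fourier ((-p).toNat : ℤ) y.2 := by
      rw [← fourier_add]; congr 2; omega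
    simp only [sh_PP] at hy
    rw [e3, add_zero, hm, ee_add, Finset.prod_div_distrib, div_mul_eq_mul_div,
      eq_div_iff (Finset.prod_ne_zero_iff.2 fun i _ => hz i)] at hy
    simp only [sp] at e4 e5
    simp only [sp, Polynomial.map_sub, Polynomial.map_mul, Polynomial.map_pow,
      map_C, map_X, eval_sub, eval_mul, eval_pow, eval_C, eval_X, e4, e5, RingHom.coe_coe,
      ev_single, pl_pow, ← e6]
    linear_combination -fourier (d * N) y.2 * fourier (p.toNat : ℤ) y.2 * hy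
  have hs : ∀ (S : Finset (ℤ × ℤ)) (c : ℤ × ℤ → ℂ), (∀ k ∈ S, k.1 ≤ N) → (∃ k ∈ S, c k ≠ 0) →
      ∏ i ∈ Finset.range d, PL S (sh θ c i) N ≠ 0 ∧
      (∏ i ∈ Finset.range d, PL S (sh θ c i) N).natDegree = d * (PL S c N).natDegree := by
    intro S c hN hc
    have h0 : ∀ i ∈ Finset.range d, PL S (sh θ c i) N ≠ 0 := fun i _ =>
      PL_ne hN (by simpa only [sh_ne] using hc)
    have hs : ∀ i, (PL S (sh θ c i) N).support = (PL S c N).support := fun i => by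
      ext j
      simp only [mem_support_iff, (p_PL S _ N hN).2, sh_ne]
    refine ⟨Finset.prod_ne_zero_iff.2 h0, ?_⟩
    rw [natDegree_prod _ _ h0, Finset.sum_congr rfl (g := fun _ => (PL S c N).natDegree) fun i _ => by
      simp only [natDegree, degree, hs], Finset.sum_const, Finset.card_range, smul_eq_mul]
  have hne : (.single m (ee φ) : LP) ≠ 0 := fun e =>
    mul_ne_zero (ee_ne_zero φ) (ee_ne_zero _) (by rw [← ev_single 0 m, e, map_zero])
  have d1 := congrArg natDegree hΔ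
  rw [natDegree_mul (pow_ne_zero _ X_ne_zero) (hs S c hN1 hc).1,
    natDegree_mul (mul_ne_zero (C_ne_zero.2 hne) (pow_ne_zero _ X_ne_zero)) (hs T b hN2 hb).1,
    natDegree_C_mul_X_pow _ _ hne, natDegree_X_pow, (hs S c hN1 hc).2, (hs T b hN2 hb).2] at d1
  refine ⟨(PL T b N).natDegree - (PL S c N).natDegree,
    mul_left_cancel₀ (Nat.cast_pos.2 hd).ne' (hp.trans ?_)⟩
  have h4 : p = d * (((PL T b N).natDegree : ℤ) - (PL S c N).natDegree) := by
    have := congrArg (Nat.cast : ℕ → ℤ) d1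
    have h5 := Int.toNat_sub_toNat_neg p
    push_cast at this
    linarith
  exact_mod_cast h4

lemma pq_sl {S T : Finset (ℤ × ℤ)} {θ : ℝ × ℝ} {a b x y : ℤ} (hxy : x * a + y * b = 1)
    (h : Ind ((S.image fun k => (a * k.1 + b * k.2, -y * k.1 + x * k.2)).disjSum
      (T.image fun k => (a * k.1 + b * k.2, -y * k.1 + x * k.2)))
      (pq (a * θ.1 + b * θ.2, -y * θ.1 + x * θ.2))) : Ind (S.disjSum T) (pq θ) := by
  have hr : (x : ℝ) * a + y * b = 1 := by exact_mod_cast hxy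
  have hM : Function.Injective fun k : ℤ × ℤ => (a * k.1 + b * k.2, -y * k.1 + x * k.2) := by
    intro k l e
    obtain ⟨e1, e2⟩ := Prod.mk.inj e
    exact Prod.ext (by linear_combination x * e1 - b * e2 - (k.1 - l.1) * hxy)
      (by linear_combination y * e1 + a * e2 - (k.2 - l.2) * hxy)
  refine ind_sub (Sum.map _ _) ?_ (Function.Injective.sumMap hM hM).injOn ?_
    (p_MI _ _ _ 0 (x, y) (-b, a) (by simpa using hr) h)
  · rintro (k | k) hk
    · exact Finset.inl_mem_disjSum.2 (Finset.mem_image_of_mem _ (Finset.inl_mem_disjSum.1 hk))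
    · exact Finset.inr_mem_disjSum.2 (Finset.mem_image_of_mem _ (Finset.inr_mem_disjSum.1 hk))
  · rintro (k | k) -
    · exact Prod.ext (by simp [pq]; linear_combination (k.1 : ℝ) * hr)
        (by simp [pq]; linear_combination (k.2 : ℝ) * hr)
    · exact Prod.ext (by simp [pq]; linear_combination (θ.1 + k.1) * hr)
        (by simp [pq]; linear_combination (θ.2 + k.2) * hr)

theorem bb2 (S T : Finset (ℤ × ℤ)) (θ : ℝ × ℝ)
    (hS : ∀ k ∈ S, ∀ l ∈ T, ((k.1 : ℝ), (k.2 : ℝ)) ≠ (θ.1 + l.1, θ.2 + l.2)) (hI : ¬ Irr θ) :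
    Ind (S.disjSum T) (pq θ) := by
  have s1 : ∀ (S T : Finset (ℤ × ℤ)) (θ : ℝ × ℝ), ¬ Irrational θ.1 → Irrational θ.2 →
      Ind (S.disjSum T) (pq θ) := fun S T θ h1 h2 => zk2 S T θ fun c d F hc hd hF => by
    obtain ⟨c', h3, -, h4⟩ := ph_PP hc hd
    exact b2p h3 h1 h2 h4 hF
  have s2 : ∀ (S T : Finset (ℤ × ℤ)) (θ : ℝ × ℝ), ¬ Irrational θ.1 → ¬ Irrational θ.2 →
      (¬ ∃ n : ℤ, θ.1 = n) → Ind (S.disjSum T) (pq θ) := fun S T θ h1 h2 h3 =>
    zk2 S T θ fun c d F hc hd hF => h3 (b0p hc hd h1 h2 hF)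
  by_cases hq : ¬ Irrational θ.1 ∧ ¬ Irrational θ.2
  · by_cases h1 : ∃ n : ℤ, θ.1 = n
    swap
    · exact s2 S T θ hq.1 hq.2 h1
    by_cases h2 : ∃ n : ℤ, θ.2 = n
    swap
    · exact pq_sl (a := 0) (b := 1) (x := 0) (y := 1) (by simp)
        (s2 _ _ _ (by simpa using hq.2) (by simpa using hq.1) (by simpa using h2))
    obtain ⟨m, hm⟩ := h1
    obtain ⟨n, hn⟩ := h2
    have h := a_BB (S ∪ T.image fun l => (m + l.1, n + l.2)) (1 / 2, 0) (fun k _ e => ?_) fun e => ?_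
    · refine ind_sub (Sum.elim some fun l => some (m + l.1, n + l.2)) ?_ ?_ ?_ h
      · rintro (k | k) hk
        · exact Finset.some_mem_insertNone.2 (Finset.mem_union_left _ (Finset.inl_mem_disjSum.1 hk))
        · exact Finset.some_mem_insertNone.2 (Finset.mem_union_right _
            (Finset.mem_image_of_mem _ (Finset.inr_mem_disjSum.1 hk)))
      · have key : ∀ k ∈ S, ∀ l ∈ T, k ≠ (m + l.1, n + l.2) := fun k hk l hl e =>
          hS k hk l hl (by rw [e, hm, hn]; simp)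
        rintro (k | k) hk (l | l) hl e
        · exact congrArg _ (Option.some.inj e)
        · exact (key k (Finset.inl_mem_disjSum.1 hk) l (Finset.inr_mem_disjSum.1 hl)
            (Option.some.inj e)).elim
        · exact (key l (Finset.inl_mem_disjSum.1 hl) k (Finset.inr_mem_disjSum.1 hk)
            (Option.some.inj e).symm).elim
        · obtain ⟨e1, e2⟩ := Prod.mk.inj (Option.some.inj e)
          exact congrArg _ (Prod.ext (add_left_cancel e1) (add_left_cancel e2))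
      · rintro (k | k) -
        · rfl
        · simp [pp, pq, hm, hn]
    · have e1 : (2 * k.1 : ℝ) = 1 := by rw [(Prod.mk.inj e).1]; norm_num
      have e2 : 2 * k.1 = 1 := by exact_mod_cast e1
      omega
    · exact absurd (e 2 0 1 (by norm_num)).1 (by norm_num)
  obtain ⟨a, b, m, hm, hab⟩ : ∃ a b m : ℤ, a * θ.1 + b * θ.2 = m ∧ ¬ (a = 0 ∧ b = 0) := by
    by_contra hc
    exact hI fun a b m hm => by
      by_contra h
      exact hc ⟨a, b, m, hm, h⟩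
  have hg : 0 < Int.gcd a b := Nat.pos_of_ne_zero fun h => hab (Int.gcd_eq_zero_iff.1 h)
  obtain ⟨a', b', h1, ha, hb⟩ := Int.exists_gcd_one hg
  obtain ⟨x, y, hxy⟩ := Int.isCoprime_iff_gcd_eq_one.2 h1
  have hr : (x : ℝ) * a' + y * b' = 1 := by exact_mod_cast hxy
  have hg' : (Int.gcd a b : ℝ) ≠ 0 := Nat.cast_ne_zero.2 hg.ne'
  have ha' : (a : ℝ) = a' * Int.gcd a b := by exact_mod_cast ha
  have hb' : (b : ℝ) = b' * Int.gcd a b := by exact_mod_cast hb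
  have e : ((m / Int.gcd a b : ℚ) : ℝ) = a' * θ.1 + b' * θ.2 := by
    push_cast
    rw [div_eq_iff hg', ← hm]
    linear_combination θ.1 * ha' + θ.2 * hb'
  refine pq_sl hxy (s1 _ _ _ (fun h => h ⟨_, e⟩) ?_)
  rintro ⟨t, ht⟩
  refine hq ⟨fun h => h ⟨x * (m / Int.gcd a b) - b' * t, ?_⟩,
    fun h => h ⟨y * (m / Int.gcd a b) + a' * t, ?_⟩⟩
  · rw [Rat.cast_sub, Rat.cast_mul, Rat.cast_mul, e, ht]
    push_cast
    linear_combination θ.1 * hr
  · rw [Rat.cast_add, Rat.cast_mul, Rat.cast_mul, e, ht]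
    push_cast
    linear_combination θ.2 * hr

theorem thm_C2 (S T : Finset (ℤ × ℤ)) (θ : ℝ × ℝ)
    (h : Disjoint (convexHull ℝ ((fun k : ℤ × ℤ => ((k.1 : ℝ), (k.2 : ℝ))) '' S))
      (convexHull ℝ ((fun l : ℤ × ℤ => (θ.1 + (l.1 : ℝ), θ.2 + (l.2 : ℝ))) '' T))) :
    Ind (S.disjSum T) (pq θ) := by
  by_cases hI : Irr θ
  swap
  · exact bb2 S T θ (fun k hk l hl e => disjoint_left.1 h (subset_convexHull ℝ _ ⟨k, hk, rfl⟩)
      (subset_convexHull ℝ _ ⟨l, hl, e.symm⟩)) hI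
  refine zk2 S T θ fun c d F hc hd hF => ?_
  obtain ⟨c', h3, -, h4⟩ := ph_PP hc hd
  have h5 := c3p _ c' θ h3 hI h4 (a_EQ _ θ F (h4.mono fun y hy => hy.1) hI hF)
  have h6 : (fun k : ℤ × ℤ => ((k.1 : ℝ), (k.2 : ℝ))) '' (S - T : Finset (ℤ × ℤ)) ⊆
      {θ} + ((fun k : ℤ × ℤ => ((k.1 : ℝ), (k.2 : ℝ))) '' S -
        (fun l : ℤ × ℤ => (θ.1 + (l.1 : ℝ), θ.2 + (l.2 : ℝ))) '' T) := by
    rintro _ ⟨m, hm, rfl⟩
    obtain ⟨k, hk, l, hl, rfl⟩ := Finset.mem_sub.1 hm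
    exact ⟨θ, rfl, _, ⟨_, ⟨k, hk, rfl⟩, _, ⟨l, hl, rfl⟩, rfl⟩,
      Prod.ext (by simp; ring) (by simp; ring)⟩
  have h7 := convexHull_mono h6 h5
  rw [convexHull_add, convexHull_singleton, convexHull_sub] at h7
  obtain ⟨_, rfl, _, ⟨u, hu, v, hv, rfl⟩, e⟩ := h7
  exact disjoint_left.1 h hu (sub_eq_zero.1 (add_eq_left.1 e) ▸ hv)

lemma fin_of_ind2 {S T : Finset (ℤ × ℤ)} {r s : ℝ} (H : Ind (S.disjSum T) (pq (r, s)))
    (o u v : ℝ × ℝ) (hdet : u.1 * v.2 - u.2 * v.1 = 1)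
    (g : ℝ → ℂ) (hg : MemLp g 2 volume) (hg0 : ¬ g =ᵐ[volume] 0) (c d : ℤ × ℤ → ℂ)
    (h : ∀ᵐ x ∂(volume : Measure ℝ), ∑ k ∈ S, c k * tf (o + (k.1 : ℝ) • u + (k.2 : ℝ) • v) g x
      + ∑ l ∈ T, d l * tf (o + (r + (l.1 : ℝ)) • u + (s + (l.2 : ℝ)) • v) g x = 0) :
    (∀ k ∈ S, c k = 0) ∧ ∀ l ∈ T, d l = 0 := by
  have := p_MI _ _ _ o u v hdet H g hg hg0 (Sum.elim c d) (h.mono fun x hx => by
    rw [Finset.sum_disjSum]
    exact hx)
  exact ⟨fun k hk => this (.inl k) (Finset.inl_mem_disjSum.2 hk),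
    fun l hl => this (.inr l) (Finset.inr_mem_disjSum.2 hl)⟩

end Pool.Agent.P.MP_2a8753_an.H
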